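import Pool.Agent.Helper67.HS.Gate

/-! # Project HS, module HS-B1: packing and covering by balls in trees -/

set_option autoImplicit false

namespace Pool.Agent.Helper67.HS

open Finset

variable {V : Type*} [DecidableEq V] {G : SimpleGraph V}

omit [DecidableEq V] in
private theorem far_of_deepest (hT : G.IsTree) (R : ℕ) {r w c v : V}
    (hc1 : G.dist w c = min R (G.dist w r))
    (hc2 : G.dist w c + G.dist c r = G.dist w r)
    (hmax : G.dist r v ≤ G.dist r w) (hv : R < G.dist c v) : 2 * R < G.dist w v := by
  obtain ⟨z₀, hz0, hz⟩ := exists_gate hT w r v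
  have h1 := hz w (by rw [SimpleGraph.dist_self, Nat.zero_add])
  have h2 := hz r (by rw [SimpleGraph.dist_self, Nat.add_zero])
  have h3 := hz c hc2
  have h4 := between_dist hT hz0 hc2
  have e1 : G.dist v w = G.dist w v := SimpleGraph.dist_comm
  have e2 : G.dist v r = G.dist r v := SimpleGraph.dist_comm
  have e3 : G.dist v c = G.dist c v := SimpleGraph.dist_comm
  have e4 : G.dist z₀ w = G.dist w z₀ := SimpleGraph.dist_comm
  have e5 : G.dist r w = G.dist w r := SimpleGraph.dist_comm
  have e6 : G.dist v z₀ = G.dist z₀ v := SimpleGraph.dist_comm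
  rcases le_total R (G.dist w r) with h | h
  · rw [min_eq_left h] at hc1
    omega
  · rw [min_eq_right h] at hc1
    omega

theorem duality (hT : G.IsTree) (R : ℕ) (W : Finset V) :
    ∃ U C : Finset V, U ⊆ W ∧ C.card ≤ U.card ∧
      (∀ u ∈ U, ∀ v ∈ U, u ≠ v → 2 * R < G.dist u v) ∧
      ∀ w ∈ W, ∃ c ∈ C, G.dist c w ≤ R := by
  rcases W.eq_empty_or_nonempty with rfl | ⟨r, -⟩
  · exact ⟨∅, ∅, by simp, by simp, by simp, by simp⟩
  have key : ∀ n : ℕ, ∀ W : Finset V, W.card = n →
      ∃ U C : Finset V, U ⊆ W ∧ C.card ≤ U.card ∧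
        (∀ u ∈ U, ∀ v ∈ U, u ≠ v → 2 * R < G.dist u v) ∧
        ∀ w ∈ W, ∃ c ∈ C, G.dist c w ≤ R := by
    intro n
    induction n using Nat.strong_induction_on with
    | _ n ih =>
      intro W hW
      rcases W.eq_empty_or_nonempty with rfl | hne
      · exact ⟨∅, ∅, by simp, by simp, by simp, by simp⟩
      obtain ⟨w, hw, hmax⟩ := W.exists_max_image (fun x => G.dist r x) hne
      obtain ⟨c, hc1, hc2⟩ := Pool.Agent.Helper64.FB.exists_between hT.connected w r
        (min_le_right R (G.dist w r))
      have hwc : G.dist c w ≤ R := by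
        rw [SimpleGraph.dist_comm, hc1]
        exact min_le_left _ _
      have hlt : (W.filter (fun x => R < G.dist c x)).card < n := by
        rw [← hW]
        refine Finset.card_lt_card ?_
        rw [Finset.filter_ssubset]
        exact ⟨w, hw, not_lt.mpr hwc⟩
      obtain ⟨U', C', hU, hC, hsep, hcov⟩ := ih _ hlt _ rfl
      have hwU : w ∉ U' := by
        intro h
        have := (Finset.mem_filter.mp (hU h)).2
        omega
      have hfar : ∀ v ∈ U', 2 * R < G.dist w v := by
        intro v hv
        have h := Finset.mem_filter.mp (hU hv)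
        exact far_of_deepest hT R hc1 hc2 (hmax v h.1) h.2
      refine ⟨insert w U', insert c C', ?_, ?_, ?_, ?_⟩
      · intro x hx
        rcases Finset.mem_insert.mp hx with rfl | hx
        · exact hw
        · exact (Finset.mem_filter.mp (hU hx)).1
      · rw [Finset.card_insert_of_notMem hwU]
        have := Finset.card_insert_le c C'
        omega
      · intro u hu v hv huv
        rcases Finset.mem_insert.mp hu with hu1 | hu1
        · rcases Finset.mem_insert.mp hv with hv1 | hv1
          · exact absurd (hu1.trans hv1.symm) huv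
          · rw [hu1]
            exact hfar v hv1
        · rcases Finset.mem_insert.mp hv with hv1 | hv1
          · rw [hv1, SimpleGraph.dist_comm]
            exact hfar u hu1
          · exact hsep u hu1 v hv1 huv
      · intro x hx
        by_cases h : G.dist c x ≤ R
        · exact ⟨c, Finset.mem_insert_self _ _, h⟩
        · obtain ⟨c', hc', h'⟩ := hcov x (Finset.mem_filter.mpr ⟨hx, not_le.mp h⟩)
          exact ⟨c', Finset.mem_insert_of_mem hc', h'⟩
  exact key _ W rfl

end Pool.Agent.Helper67.HS
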