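import Pool.Agent.Helper67.HS.Sigma
import Pool.Agent.Helper67.HS.Dual

/-! # Project HS, module HS-C2: the scale is close to `k` -/

set_option autoImplicit false

namespace Pool.Agent.Helper67.HS

open Finset Pool.Agent.Helper51.BN Pool.Agent.Helper51.ST

variable {V : Type*} [DecidableEq V] {G : SimpleGraph V} {k A L m : ℕ} {y : Fin m → RT}
  {P : Fin m → Finset V} {q : Fin m → V} {g : ℕ → ℝ} {b : ℕ} {K : ℝ}

/-- the arithmetic of the upper bound for the tail of the price -/
private theorem num_tail {n E k m R b X L x S Sb K : ℝ} (hK : 0 < K) (hE : 0 ≤ E) (hR : 1 ≤ R)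
    (h1 : S < K / 2 * (n + 4 * 10 ^ 4 * L + E / (10 * R))) (h2 : n * (R + 1) + E ≤ k ^ 2 + m)
    (h3 : K * (b - 10 ^ 4 * L) ≤ 2 * Sb) (hk : k = b + X + L) (hb : b = R + x)
    (hL0 : 0 ≤ L) (hx0 : 0 ≤ x) (hLX : 10 ^ 9 * L ≤ X) (hxX : 10 ^ 4 * x ≤ X)
    (hXb : 99 * X ≤ b) (hm : m ≤ k) (hX9 : 10 ^ 9 ≤ X) :
    S - Sb < K / 2 * (2.03 * X) := by
  have hX0 : 0 ≤ X := by linarith
  have hb0 : 0 ≤ b := by linarith
  have hT : (n + E / (10 * R)) * (R + 1) ≤ k ^ 2 + m := by
    have e1 : E / (10 * R) * (R + 1) ≤ E := by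
      rw [div_mul_eq_mul_div, div_le_iff₀ (by linarith)]
      nlinarith
    linarith
  have a1 : L * b ≤ 1 / 10 ^ 9 * (X * b) := by nlinarith
  have a2 : x * b ≤ 1 / 10 ^ 4 * (X * b) := by nlinarith
  have a3 : X * X ≤ 1 / 99 * (X * b) := by nlinarith
  have a4 : x * X ≤ x * b := by nlinarith
  have a5 : L * L ≤ L * b := by nlinarith
  have a6 : X * L ≤ L * b := by nlinarith
  have a7 : b ≤ 1 / 10 ^ 9 * (X * b) := by nlinarith
  have a8 : 0 ≤ L * x := by positivity
  have a9 : 0 ≤ X * b := by positivity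
  have hq : k ^ 2 + m ≤ (b + 2.03 * X - 5 * 10 ^ 4 * L) * (R + 1) := by
    have hR' : R = b - x := by linarith
    rw [hR', hk]
    rw [hk] at hm
    nlinarith
  have hfin : n + E / (10 * R) ≤ b + 2.03 * X - 5 * 10 ^ 4 * L :=
    le_of_mul_le_mul_right (hT.trans hq) (by linarith)
  have h4 : K / 2 * (n + 4 * 10 ^ 4 * L + E / (10 * R)) ≤
      K / 2 * (b + 2.03 * X - 10 ^ 4 * L) := by
    apply mul_le_mul_of_nonneg_left _ (by linarith)
    linarith
  nlinarith

/-- the price of a radius in the middle of the tail -/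
private theorem tail_mid (hg0 : ∀ i, 0 ≤ g i) (hg : Monotone g) (b X : ℕ) :
    (X : ℝ) / 2 * g (b + X / 2) ≤
      ∑ r ∈ range (b + X), g r - ∑ r ∈ range b, g r := by
  have h1 : ∑ r ∈ range (b + X), g r - ∑ r ∈ range b, g r = ∑ i ∈ range X, g (b + i) := by
    rw [sum_range_add]
    ring
  rw [h1]
  have h2 : ∑ i ∈ Ico (X / 2) X, g (b + i) ≤ ∑ i ∈ range X, g (b + i) := by
    rw [range_eq_Ico]
    exact sum_le_sum_of_subset_of_nonneg (Ico_subset_Ico (Nat.zero_le _) le_rfl)
      fun _ _ _ => hg0 _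
  refine le_trans ?_ h2
  have h3 : ∑ i ∈ Ico (X / 2) X, g (b + X / 2) ≤ ∑ i ∈ Ico (X / 2) X, g (b + i) := by
    refine sum_le_sum fun i hi => hg ?_
    have := (mem_Ico.1 hi).1
    omega
  refine le_trans ?_ h3
  rw [sum_const, Nat.card_Ico, nsmul_eq_mul]
  refine mul_le_mul_of_nonneg_right ?_ (hg0 _)
  have h4 : X ≤ 2 * (X - X / 2) := by omega
  have h5 : (X : ℝ) ≤ 2 * ((X - X / 2 : ℕ) : ℝ) := by exact_mod_cast h4
  linarith

/-- the arithmetic of the final comparison -/
private theorem num_fin {E k m A L x X b gj gR K S : ℝ} (hK : 0 < K) (hA : 10 ≤ A)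
    (hL0 : 0 ≤ L) (hX : 0 < X) (hkpos : 0 < k) (hb0 : 0 ≤ b)
    (hxX : 1000 * (A * x) ≤ X) (hE : E ≤ 2.01 * (k * x)) (hE0 : 0 ≤ E)
    (hj : gj ≤ 2.03 * K) (hm : 80 * m ≤ k) (hm0 : 0 ≤ m) (hR : gR ≤ 0.501 * K)
    (hL : 1000 * L ≤ k) (hb : 2 * b + 1 ≤ 2 * k)
    (hS : K * (k ^ 2 - 4 * k * L) ≤ (2 * b + 1) * S) :
    m * gj + 8 * E / X * (17 * A * gR) ≤ S := by
  have h1 : 0.49 * (k * K) ≤ S := by
    have e1 : (2 * b + 1) * (0.49 * (k * K)) ≤ (2 * b + 1) * S := by
      refine le_trans ?_ hS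
      have e2 : (2 * b + 1) * (0.49 * (k * K)) ≤ 2 * k * (0.49 * (k * K)) :=
        mul_le_mul_of_nonneg_right hb (by positivity)
      refine e2.trans ?_
      have e3 : 0 ≤ k * K * (k - 1000 * L) := by
        have : 0 ≤ k - 1000 * L := by linarith
        positivity
      have e4 : 0 ≤ k * K * L := by positivity
      nlinarith
    exact le_of_mul_le_mul_left e1 (by linarith)
  have h2 : m * gj ≤ 0.03 * (k * K) := by
    have e1 : m * gj ≤ m * (2.03 * K) := mul_le_mul_of_nonneg_left hj hm0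
    have e2 : m * (2.03 * K) ≤ k / 80 * (2.03 * K) :=
      mul_le_mul_of_nonneg_right (by linarith) (by linarith)
    nlinarith [mul_pos hkpos hK]
  have h3 : 8 * E / X * (17 * A * gR) ≤ 0.14 * (k * K) := by
    have e1 : 8 * E / X * (17 * A * gR) ≤ 8 * E / X * (17 * A * (0.501 * K)) := by
      refine mul_le_mul_of_nonneg_left ?_ (by positivity)
      exact mul_le_mul_of_nonneg_left hR (by linarith)
    refine e1.trans ?_
    rw [div_mul_eq_mul_div, div_le_iff₀ hX]
    have e2 : 8 * E * (17 * A * (0.501 * K)) ≤ 8 * (2.01 * (k * x)) * (17 * A * (0.501 * K)) := by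
      refine mul_le_mul_of_nonneg_right ?_ (by positivity)
      linarith
    refine e2.trans ?_
    have e3 : k * K * (1000 * (A * x)) ≤ k * K * X :=
      mul_le_mul_of_nonneg_left hxX (by positivity)
    have e4 : 8 * (2.01 * (k * x)) * (17 * A * (0.501 * K)) =
        0.13695336 * (k * K * (1000 * (A * x))) := by ring
    have e5 : 0 ≤ k * K * X := by positivity
    rw [e4]
    linarith
  nlinarith [mul_pos hkpos hK]

theorem b_large (hD : Data G k A L m y P q) (hT : G.IsTree) (hA : 10 ≤ A)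
    (hup : ∀ i, (y i).e ≤ 16 * A * k) (hF : FP g k L b K) (hk : 10 ^ 14 * A ^ 2 * L ≤ k)
    (hn : ¬ Cheap G g k L P) : k ≤ b + 3 * 10 ^ 11 * A ^ 2 * L := by
  classical
  by_contra hc
  push Not at hc
  have hL2 := hD.L2
  have hbk := hF.bk
  have hb9 := hF.b9
  obtain ⟨X, hX⟩ : ∃ X, k = b + X + L := ⟨k - b - L, by omega⟩
  have hAL : A * L * 10 ≤ A ^ 2 * L := by
    calc A * L * 10 ≤ A * L * A := Nat.mul_le_mul_left _ hA
      _ = A ^ 2 * L := by ring
  have hLA : 100 * L ≤ A ^ 2 * L := by nlinarith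
  set B : ℕ := A ^ 2 * L with hB
  have hk' : 10 ^ 14 * B ≤ k := by rw [hB]; linarith
  have hc' : b + 3 * 10 ^ 11 * B < k := by rw [hB]; linarith
  set x : ℕ := 2 * 10 ^ 8 * A * L with hx
  have hxB : 10 * x ≤ 2 * 10 ^ 8 * B := by rw [hx]; linarith
  have hAx : 1000 * (A * x) ≤ X := by
    have e1 : A * x = 2 * 10 ^ 8 * B := by rw [hx, hB]; ring
    omega
  obtain ⟨R, hR⟩ : ∃ R, b = R + x := ⟨b - x, by omega⟩
  have hkR : R + 1 ≤ k := by omega
  -- packings and covers
  have hdu : ∀ i, ∃ U C : Finset V, U ⊆ P i ∧ C.card ≤ U.card ∧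
      (∀ u ∈ U, ∀ v ∈ U, u ≠ v → 2 * R < G.dist u v) ∧
      ∀ w ∈ P i, ∃ c ∈ C, G.dist c w ≤ R := fun i => duality hT R (P i)
  choose U C hU hCU hsep hcov using hdu
  have H : HD G k A L m y P q R U C := ⟨hD, hT, hA, hup, hU, hsep, hcov, hCU⟩
  have hR8 : R + 2 * 10 ^ 8 * A * L ≤ b := by rw [hR]
  have hR97 : 97 * k ≤ 100 * R := by omega
  have hsig := sigma_le H hF hR8 hR97 hn
  obtain ⟨D, hD1, hD2, hD3⟩ := base_cover H hF hR8 hR97
  have hnc : ∑ r ∈ range (k - L), g r < ∑ i, cost g (D i) := by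
    by_contra h
    push Not at h
    exact hn ⟨D, hD1, hD2, h⟩
  have hsum := H.sum_le (by omega : R ≤ k)
  have hm := H.m_le
  have hkX : k - L = b + X := by omega
  rw [hkX] at hnc
  set E : ℕ := ∑ i, exc P U R i with hE
  set n : ℕ := ∑ i, (U i).card with hn'
  have hA' : (10 : ℝ) ≤ A := by exact_mod_cast hA
  have hxX : 10 ^ 4 * x ≤ X := by nlinarith
  have hXB : 10 ^ 11 * B ≤ X := by omega
  have htail := num_tail (n := n) (E := E) (k := k) (m := m) (R := R) (b := b) (X := X) (L := L)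
    (x := x) hF.Kpos (by positivity) (by norm_cast; omega) (hnc.trans_le hD3)
    (by exact_mod_cast hsum) hF.low (by exact_mod_cast hX) (by exact_mod_cast hR)
    (by positivity) (by positivity) (by norm_cast; omega) (by exact_mod_cast hxX)
    (by norm_cast; omega) (by norm_cast; omega) (by norm_cast; omega)
  have hmid := tail_mid hF.nonneg hF.mono b X
  have hXpos : (0 : ℝ) < X := by norm_cast; omega
  have hgj : g (b + X / 2) ≤ 2.03 * K := by
    have e1 : (X : ℝ) * g (b + X / 2) ≤ X * (2.03 * K) := by linarith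
    exact le_of_mul_le_mul_left e1 hXpos
  have hxpos : 0 < x := by rw [hx]; positivity
  have hgR : g R ≤ 0.501 * K := by
    have e1 := hF.flat R (by omega)
    have e2 : (b : ℝ) - R = x := by rw [hR]; push_cast; ring
    rw [e2] at e1
    have e3 : (10 : ℝ) ^ 4 * L ≤ 0.001 * x := by
      have : 10 ^ 7 * L ≤ x := by rw [hx]; nlinarith
      have : (10 : ℝ) ^ 7 * L ≤ x := by exact_mod_cast this
      linarith
    have hx' : (0 : ℝ) < x := by exact_mod_cast hxpos
    have e4 : g R * x ≤ 0.501 * K * x := by nlinarith [hF.Kpos]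
    exact le_of_mul_le_mul_right e4 hx'
  have hE2 : (E : ℝ) ≤ 2.01 * (k * x) := by
    have e1 : b - R = x := by omega
    rw [e1] at hsig
    have e2 : 10 ^ 7 * L ≤ x := by rw [hx]; nlinarith
    have e3 : 100 * (10 ^ 5 * k * L) ≤ k * x := by nlinarith
    have e4 : (E : ℝ) ≤ 2 * k * x + 10 ^ 5 * k * L := by exact_mod_cast hsig
    have e5 : (100 : ℝ) * (10 ^ 5 * k * L) ≤ k * x := by exact_mod_cast e3
    linarith
  -- one ball for a good piece
  have hstar : ∀ i, ∃ c, 8 * exc P U R i ≤ X → ∀ v ∈ P i, G.dist c v ≤ b + X / 2 := by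
    intro i
    by_cases h : 8 * exc P U R i ≤ X
    · have h2 := H.two_le hkR i (by omega)
      obtain ⟨c, hc⟩ := exists_star hT (H.conv i) (hU i) (hsep i) h2
        (H.exc_eq (by omega : R ≤ k) i).ge
      refine ⟨c, fun _ v hv => (hc.cover_one hT v hv).trans ?_⟩
      have h3 := H.card_le (by omega : R ≤ k) hR97 i
      have h4 : 17 * A ≤ x := by
        rw [hx]
        nlinarith
      omega
    · exact ⟨q i, fun h' => absurd h' h⟩
  choose cc hcc using hstar
  refine hn ⟨fun i => if 8 * exc P U R i ≤ X then {(cc i, b + X / 2)}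
    else (C i).image fun c => (c, R), ?_, ?_, ?_⟩
  · intro i p hp
    dsimp only at hp
    split_ifs at hp with h
    · rw [mem_singleton.1 hp]
      change b + X / 2 < k - L
      omega
    · obtain ⟨c, -, rfl⟩ := mem_image.1 hp
      change R < k - L
      omega
  · intro i v hv
    dsimp only
    split_ifs with h
    · exact ⟨_, mem_singleton_self _, hcc i h v hv⟩
    · obtain ⟨c, hc, hd⟩ := hcov i v hv
      exact ⟨(c, R), mem_image_of_mem _ hc, hd⟩
  · rw [hkX]
    have hi : ∀ i : Fin m, cost g (if 8 * exc P U R i ≤ X then {(cc i, b + X / 2)}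
        else (C i).image fun c => (c, R)) ≤
        g (b + X / 2) + 8 * (exc P U R i : ℝ) / X * (17 * A * g R) := by
      intro i
      have g0 := hF.nonneg (b + X / 2)
      have g1 := hF.nonneg R
      split_ifs with h
      · have e1 : cost g {(cc i, b + X / 2)} = g (b + X / 2) := by
          rw [cost, sum_singleton]
        rw [e1]
        have : 0 ≤ 8 * (exc P U R i : ℝ) / X * (17 * A * g R) := by positivity
        linarith
      · have e1 : cost g ((C i).image fun c => (c, R)) ≤ 17 * A * g R := by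
          have e2 : cost g ((C i).image fun c => (c, R)) = ((C i).card : ℝ) * g R := by
            rw [cost, sum_image fun a _ b _ hab => (Prod.ext_iff.1 hab).1]
            simp only [sum_const, nsmul_eq_mul]
          rw [e2]
          have e3 : (C i).card ≤ 17 * A :=
            (hCU i).trans (H.card_le (by omega : R ≤ k) hR97 i)
          have e4 : ((C i).card : ℝ) ≤ 17 * A := by exact_mod_cast e3
          exact mul_le_mul_of_nonneg_right e4 g1
        have e2 : 1 ≤ 8 * (exc P U R i : ℝ) / X := by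
          rw [le_div_iff₀ hXpos, one_mul]
          push Not at h
          exact_mod_cast h.le
        have e3 : 0 ≤ 17 * (A : ℝ) * g R := by positivity
        have e4 := le_mul_of_one_le_left e3 e2
        linarith
    refine (sum_le_sum fun i _ => hi i).trans ?_
    have e1 : ∑ i : Fin m, (g (b + X / 2) + 8 * (exc P U R i : ℝ) / X * (17 * A * g R)) =
        m * g (b + X / 2) + 8 * (E : ℝ) / X * (17 * A * g R) := by
      rw [sum_add_distrib, sum_const, card_univ, Fintype.card_fin, nsmul_eq_mul, hE]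
      congr 1
      rw [← sum_mul]
      congr 1
      rw [← sum_div, ← mul_sum]
      push_cast
      rfl
    rw [e1]
    have htot := hF.tot
    rw [hkX] at htot
    refine num_fin (k := k) (L := L) (x := x) (b := b) hF.Kpos hA' (by positivity) hXpos
      (by norm_cast; omega) (by positivity) (by exact_mod_cast hAx) hE2 (by positivity) hgj
      (by exact_mod_cast hm) (by positivity) hgR (by norm_cast; omega) (by norm_cast; omega)
      htot

end Pool.Agent.Helper67.HS
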