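import Pool.Agent.Helper67.HS.Level

/-! # Project HS, module HS-C4: disjoint balls give long paths -/

set_option autoImplicit false

namespace Pool.Agent.Helper67.HS

open Finset Pool.Agent.Helper51.ST Pool.Agent.Helper64.FB

variable {V : Type*} [Fintype V] [DecidableEq V] {G : SimpleGraph V}

omit [DecidableEq V] in
private theorem ball_card (hT : G.IsTree) {u r : V} {ρ : ℕ} (hr : ρ < G.dist u r) :
    ρ + 1 ≤ (univ.filter fun v => G.dist u v ≤ ρ).card := by
  have : Nonempty V := ⟨r⟩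
  have h : ∀ i : ℕ, i ≤ ρ → ∃ z, G.dist u z = i := fun i hi => by
    obtain ⟨z, h1, _⟩ := exists_between hT.connected u r (t := i) (by omega)
    exact ⟨z, h1⟩
  choose! f hf using h
  have key := Finset.card_le_card_of_injOn (s := range (ρ + 1))
    (t := univ.filter fun v => G.dist u v ≤ ρ) f (by
      intro i hi
      have hi' : i < ρ + 1 := by simpa using hi
      have h1 := hf i (by omega)
      simp only [coe_filter, mem_univ, true_and, Set.mem_ofPred_eq]
      omega) (by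
      intro i hi j hj hij
      have hi' : i < ρ + 1 := by simpa using hi
      have hj' : j < ρ + 1 := by simpa using hj
      have h1 := hf i (by omega)
      have h2 := hf j (by omega)
      rw [← h1, ← h2, hij])
  simpa using key

theorem count (hT : G.IsTree) {x : RT} {r : V} (H : Tr G x univ r) {k R a c : ℕ} (hR : R ≤ k)
    (hcard : Fintype.card V ≤ k ^ 2) {W : Finset V} {ρ : V → ℕ}
    (hd : ∀ u ∈ W, ∀ v ∈ W, u ≠ v → ρ u + ρ v < G.dist u v) (hρ : ∀ u ∈ W, ρ u ≤ R)
    (ha : k ≤ W.card + a) (hc : ∑ u ∈ W, (R - ρ u) ≤ c) :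
    ∑ t ∈ Icc 1 k, (k - x.N t) ≤ 3 * k * (k - R) + 3 * (a + 1) * k + 3 * c := by
  have : Nonempty V := ⟨r⟩
  rcases Nat.lt_or_ge a k with hak | hak
  swap
  · -- trivial case
    have h1 : ∑ t ∈ Icc 1 k, (k - x.N t) ≤ ∑ _t ∈ Icc 1 k, k :=
      sum_le_sum fun t _ => Nat.sub_le _ _
    rw [sum_const, Nat.card_Icc, smul_eq_mul, Nat.add_sub_cancel] at h1
    have h2 : k * k ≤ (a + 1) * k := Nat.mul_le_mul_right _ (by omega)
    nlinarith [Nat.zero_le (k * (k - R)), Nat.zero_le c, Nat.zero_le ((a + 1) * k)]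
  classical
  -- the balls
  obtain ⟨B, hB⟩ : ∃ B : V → Finset V, ∀ u, B u = univ.filter fun v => G.dist u v ≤ ρ u :=
    ⟨_, fun _ => rfl⟩
  obtain ⟨gg, hgd⟩ : ∃ gg : V → ℕ, ∀ u, gg u = (B u).card - (ρ u + 1) := ⟨_, fun _ => rfl⟩
  obtain ⟨W', hWd⟩ : ∃ W' : Finset V, W' = W.filter fun u => ρ u < G.dist u r := ⟨_, rfl⟩
  have hW' : W' ⊆ W := by
    rw [hWd]
    exact filter_subset _ _
  have hW2 : ∀ u ∈ W', ρ u < G.dist u r := by
    intro u hu
    rw [hWd] at hu
    exact (mem_filter.1 hu).2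
  have hdisj : ∀ u ∈ W, ∀ v ∈ W, u ≠ v → Disjoint (B u) (B v) := by
    intro u hu v hv huv
    rw [Finset.disjoint_left]
    intro z hz1 hz2
    rw [hB, mem_filter] at hz1 hz2
    have hz1 := hz1.2
    have hz2 := hz2.2
    have h1 := hd u hu v hv huv
    have h2 : G.dist u v ≤ G.dist u z + G.dist z v := hT.connected.dist_triangle
    rw [SimpleGraph.dist_comm (u := v)] at hz2
    omega
  -- at most one ball contains the root
  have hWc : W.card ≤ W'.card + 1 := by
    have h1 : (W.filter fun u => ¬ ρ u < G.dist u r).card ≤ 1 := by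
      rw [card_le_one]
      intro u hu v hv
      rw [mem_filter] at hu hv
      by_contra hne
      have h2 := hd u hu.1 v hv.1 hne
      have h3 : G.dist u v ≤ G.dist u r + G.dist r v := hT.connected.dist_triangle
      rw [SimpleGraph.dist_comm (u := r)] at h3
      omega
    have h2 := card_filter_add_card_filter_not (s := W) (fun u => ρ u < G.dist u r)
    rw [← hWd] at h2
    omega
  -- the balls have at least `ρ + 1` points
  have hgg : ∀ u ∈ W', gg u + (ρ u + 1) = (B u).card := by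
    intro u hu
    have h1 := ball_card hT (hW2 u hu)
    rw [← hB] at h1
    rw [hgd]
    omega
  have hsum : ∑ u ∈ W', (B u).card ≤ k ^ 2 := by
    rw [← card_biUnion (fun u hu v hv huv => hdisj u (hW' hu) v (hW' hv) huv)]
    exact (card_le_univ _).trans hcard
  -- the lower bound for `N`
  have hN : ∀ t ∈ Icc 1 R,
      (W'.filter fun u => gg u + 1 ≤ t ∧ t + gg u ≤ ρ u).card ≤ x.N t := by
    intro t htt
    rw [mem_Icc] at htt
    rw [N_card hT H htt.1]
    have h1 : ∀ u : V, u ∈ W'.filter (fun u => gg u + 1 ≤ t ∧ t + gg u ≤ ρ u) →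
        ∃ v, G.dist u v ≤ ρ u ∧ v ≠ r ∧ ht G univ r v = t - 1 := by
      intro u hu
      rw [mem_filter] at hu
      have h2 := hgg u hu.1
      refine level_hit hT (a := gg u) (hW2 u hu.1) ?_ (by omega) (by omega)
      rw [← hB]
      omega
    choose! f hf using h1
    refine Finset.card_le_card_of_injOn f ?_ ?_
    · intro u hu
      have h2 := hf u hu
      simp only [coe_filter, mem_univ, true_and, Set.mem_ofPred_eq]
      exact ⟨h2.2.1, by omega⟩
    · intro u hu v hv huv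
      have h2 := hf u hu
      have h3 := hf v hv
      by_contra hne
      have hu' : u ∈ W := hW' (mem_filter.1 hu).1
      have hv' : v ∈ W := hW' (mem_filter.1 hv).1
      have h4 := hdisj u hu' v hv' hne
      rw [Finset.disjoint_left] at h4
      refine h4 (a := f u) ?_ ?_
      · rw [hB, mem_filter]
        exact ⟨mem_univ _, h2.1⟩
      · rw [hB, mem_filter, huv]
        exact ⟨mem_univ _, h3.1⟩
  have hN2 : ∀ t ∈ Icc 1 R, k - x.N t ≤
      (a + 1) + (W'.filter fun u => ¬ (gg u + 1 ≤ t ∧ t + gg u ≤ ρ u)).card := by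
    intro t ht
    have h1 := hN t ht
    have h2 := card_filter_add_card_filter_not (s := W')
      (fun u => gg u + 1 ≤ t ∧ t + gg u ≤ ρ u)
    omega
  -- exchange of the sums
  have hex : ∑ t ∈ Icc 1 R, (W'.filter fun u => ¬ (gg u + 1 ≤ t ∧ t + gg u ≤ ρ u)).card
      ≤ ∑ u ∈ W', (2 * gg u + (R - ρ u)) := by
    simp only [card_filter]
    rw [sum_comm]
    refine sum_le_sum fun u _ => ?_
    rw [← card_filter]
    have h1 : ((Icc 1 R).filter fun t => ¬ (gg u + 1 ≤ t ∧ t + gg u ≤ ρ u)) ⊆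
        Icc 1 (gg u) ∪ Ioc (ρ u - gg u) R := by
      intro t ht
      rw [mem_filter, mem_Icc] at ht
      rw [mem_union, mem_Icc, mem_Ioc]
      omega
    refine (card_le_card h1).trans ((card_union_le _ _).trans ?_)
    rw [Nat.card_Icc, Nat.card_Ioc]
    omega
  have hs1 : ∑ t ∈ Icc 1 R, (k - x.N t) ≤ R * (a + 1) + ∑ u ∈ W', (2 * gg u + (R - ρ u)) := by
    refine (sum_le_sum hN2).trans ?_
    rw [sum_add_distrib, sum_const, Nat.card_Icc, smul_eq_mul, Nat.add_sub_cancel]
    exact Nat.add_le_add_left hex _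
  have hs2 : ∑ t ∈ Ioc R k, (k - x.N t) ≤ (k - R) * k := by
    refine (sum_le_sum fun t _ => Nat.sub_le k (x.N t)).trans ?_
    rw [sum_const, Nat.card_Ioc, smul_eq_mul]
  have hsplit : ∑ t ∈ Icc 1 k, (k - x.N t) =
      ∑ t ∈ Icc 1 R, (k - x.N t) + ∑ t ∈ Ioc R k, (k - x.N t) := by
    have h1 : Icc 1 k = Icc 1 R ∪ Ioc R k := by
      ext t
      rw [mem_union, mem_Icc, mem_Icc, mem_Ioc]
      omega
    rw [h1, sum_union]
    rw [Finset.disjoint_left]
    intro t h2 h3
    rw [mem_Icc] at h2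
    rw [mem_Ioc] at h3
    omega
  -- the sum of the `gg`
  have hc' : ∑ u ∈ W', (R - ρ u) ≤ c := (sum_le_sum_of_subset hW').trans hc
  have hS : ∑ u ∈ W', gg u + ∑ u ∈ W', (ρ u + 1) ≤ k ^ 2 := by
    rw [← sum_add_distrib, sum_congr rfl hgg]
    exact hsum
  have hS2 : W'.card * (R + 1) = ∑ u ∈ W', (ρ u + 1) + ∑ u ∈ W', (R - ρ u) := by
    rw [← sum_add_distrib, ← smul_eq_mul, ← sum_const]
    refine sum_congr rfl fun u hu => ?_
    have := hρ u (hW' hu)
    omega
  have hS3 : ∑ u ∈ W', (2 * gg u + (R - ρ u)) =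
      2 * ∑ u ∈ W', gg u + ∑ u ∈ W', (R - ρ u) := by
    rw [sum_add_distrib, mul_sum]
  have hW'k : k ≤ W'.card + (a + 1) := by omega
  rw [hsplit]
  rw [hS3] at hs1
  generalize ∑ u ∈ W', gg u = X at *
  generalize ∑ u ∈ W', (ρ u + 1) = Y at *
  generalize ∑ u ∈ W', (R - ρ u) = Z at *
  generalize ∑ t ∈ Icc 1 R, (k - x.N t) = P at *
  generalize ∑ t ∈ Ioc R k, (k - x.N t) = Q at *
  obtain ⟨d, rfl⟩ := Nat.exists_eq_add_of_le hR
  rw [Nat.add_sub_cancel_left] at hs2 ⊢
  have h5 : (R + d) * (R + 1) ≤ (W'.card + (a + 1)) * (R + 1) := Nat.mul_le_mul_right _ hW'k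
  have h6 : (a + 1) * R ≤ (a + 1) * (R + d) := Nat.mul_le_mul_left _ (by omega)
  nlinarith
end Pool.Agent.Helper67.HS
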