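import Pool.Agent.Helper67.HS.Numbers

/-! # Project HS, module HS-C3b: many disjoint large balls -/

set_option autoImplicit false

namespace Pool.Agent.Helper67.HS

open Finset Pool.Agent.Helper51.BN Pool.Agent.Helper51.ST

variable {V : Type*} [DecidableEq V] {G : SimpleGraph V} {k A L m : ℕ} {y : Fin m → RT}
  {P : Fin m → Finset V} {q : Fin m → V} {R : ℕ} {U C : Fin m → Finset V}

theorem disj (H : HD G k A L m y P q R U C) (hR : R + 1 ≤ k) (hR9 : 97 * k ≤ 100 * R)
    (hAk : 10 ^ 4 * A ≤ k) {σ : Fin m → Fin m} (hσ : ∀ i, σ (σ i) = i)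
    (hmax : ∀ i j, i ≠ j → σ i = i → σ j = j → ¬ Conf G P U R i j) {Λ : ℕ} (hΛ : k ≤ R + Λ)
    (h1 : (univ.filter fun i => i < σ i).card ≤ 2 * Λ) (h2 : k ≤ ∑ i, (U i).card + Λ)
    (h3 : ∑ i, exc P U R i ≤ 2 * k * Λ) :
    ∃ (W : Finset V) (ρ : V → ℕ), (∀ u ∈ W, ∀ v ∈ W, u ≠ v → ρ u + ρ v < G.dist u v) ∧
      (∀ u ∈ W, ρ u ≤ R) ∧ k ≤ W.card + 4000 * A * Λ ∧
      ∑ u ∈ W, (R - ρ u) ≤ 600 * A * k * Λ := by
  classical
  have hA := H.A10
  have hΛ1 : 1 ≤ Λ := by omega
  have hRk : R ≤ k := by omega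
  set S : Finset (Fin m) := univ.filter (fun i => σ i = i ∧ 100 * exc P U R i ≤ R) with hS
  have hUc : ∀ i, (U i).card ≤ 17 * A := fun i => H.card_le hRk hR9 i
  have hmar : ∀ i ∈ S, 2 * mar P U R i ≤ R := by
    intro i hi
    have h1 := (mem_filter.1 hi).2.2
    have h2 := hUc i
    unfold mar
    omega
  have hdis : ∀ i ∈ S, ∀ j ∈ S, i ≠ j → ∀ u ∈ U i, ∀ v ∈ U j,
      2 * R < G.dist u v + 2 * mar P U R i + 2 * mar P U R j := by
    intro i hi j hj hij u hu v hv
    by_contra hcon
    push Not at hcon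
    obtain ⟨hi1, hi2⟩ := (mem_filter.1 hi).2
    obtain ⟨hj1, hj2⟩ := (mem_filter.1 hj).2
    exact hmax i j hij hi1 hj1 ⟨hij, hi2, hj2, u, hu, v, hv, hcon⟩
  have huniq : ∀ i ∈ S, ∀ j ∈ S, ∀ u, u ∈ U i → u ∈ U j → i = j := by
    intro i hi j hj u hu hv
    by_contra hij
    have h := hdis i hi j hj hij u hu u hv
    have h1 := hmar i hi
    have h2 := hmar j hj
    rw [SimpleGraph.dist_self] at h
    omega
  let ρ : V → ℕ := fun u => if h : ∃ i, i ∈ S ∧ u ∈ U i then R - 2 * mar P U R h.choose else 0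
  have hρ : ∀ i ∈ S, ∀ u ∈ U i, ρ u = R - 2 * mar P U R i := by
    intro i hi u hu
    have h : ∃ i, i ∈ S ∧ u ∈ U i := ⟨i, hi, hu⟩
    have he : h.choose = i := huniq _ h.choose_spec.1 _ hi u h.choose_spec.2 hu
    simp only [ρ, dif_pos h, he]
  have hpair : Set.PairwiseDisjoint (S : Set (Fin m)) U := by
    intro i hi j hj hij
    exact disjoint_left.2 fun u hu hv => hij (huniq i hi j hj u hu hv)
  have hcard : (S.biUnion U).card = ∑ i ∈ S, (U i).card := card_biUnion hpair
  -- the number of lost pieces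
  have hlost1 : (univ.filter fun i => σ i ≠ i).card ≤ 4 * Λ := by
    have hsub : (univ.filter fun i => σ i ≠ i) ⊆
        (univ.filter fun i => i < σ i) ∪ (univ.filter fun i => i < σ i).image σ := by
      intro i hi
      have hne := (mem_filter.1 hi).2
      rcases lt_or_gt_of_ne hne with h | h
      · refine mem_union_right _ (mem_image.2 ⟨σ i, mem_filter.2 ⟨mem_univ _, ?_⟩, hσ i⟩)
        rw [hσ i]
        exact h
      · exact mem_union_left _ (mem_filter.2 ⟨mem_univ _, h⟩)
    have hc := (card_le_card hsub).trans (card_union_le _ _)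
    have hi := card_image_le (s := univ.filter fun i => i < σ i) (f := σ)
    omega
  have hlost2 : (univ.filter fun i => R < 100 * exc P U R i).card * 97 ≤ 20000 * Λ := by
    set B := univ.filter fun i => R < 100 * exc P U R i with hB
    have hb : B.card * R ≤ 100 * ∑ i, exc P U R i := by
      calc B.card * R = ∑ _i ∈ B, R := by rw [sum_const, smul_eq_mul]
        _ ≤ ∑ i ∈ B, 100 * exc P U R i :=
          sum_le_sum fun i hi => (mem_filter.1 hi).2.le
        _ ≤ ∑ i, 100 * exc P U R i :=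
          sum_le_sum_of_subset (subset_univ _)
        _ = 100 * ∑ i, exc P U R i := by rw [mul_sum]
    have hRpos : 0 < R := by omega
    have hfin : R * (B.card * 97) ≤ R * (20000 * Λ) := by
      have e1 : R * (B.card * 97) = 97 * (B.card * R) := by ring
      have e2 : 97 * (B.card * R) ≤ 97 * (100 * (2 * k * Λ)) :=
        Nat.mul_le_mul_left _ (hb.trans (Nat.mul_le_mul_left _ h3))
      have e3 : 97 * (100 * (2 * k * Λ)) = 200 * Λ * (97 * k) := by ring
      have e4 : 200 * Λ * (97 * k) ≤ 200 * Λ * (100 * R) := Nat.mul_le_mul_left _ hR9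
      have e5 : 200 * Λ * (100 * R) = R * (20000 * Λ) := by ring
      omega
    exact Nat.le_of_mul_le_mul_left hfin hRpos
  have hlost : Sᶜ.card ≤ 211 * Λ := by
    have hsub : Sᶜ ⊆ (univ.filter fun i => σ i ≠ i) ∪
        (univ.filter fun i => R < 100 * exc P U R i) := by
      intro i hi
      rw [mem_compl, hS, mem_filter] at hi
      rw [mem_union, mem_filter, mem_filter]
      by_contra hcon
      push Not at hcon
      exact hi ⟨mem_univ _, by_contra fun h => (hcon.1 (mem_univ _)) |> fun hh => h hh,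
        hcon.2 (mem_univ _)⟩
    have hc := (card_le_card hsub).trans (card_union_le _ _)
    omega
  have hsplit : ∑ i, (U i).card = ∑ i ∈ S, (U i).card + ∑ i ∈ Sᶜ, (U i).card :=
    (sum_add_sum_compl S _).symm
  have hSc : ∑ i ∈ Sᶜ, (U i).card ≤ 211 * Λ * (17 * A) := by
    calc ∑ i ∈ Sᶜ, (U i).card ≤ ∑ _i ∈ Sᶜ, 17 * A := sum_le_sum fun i _ => hUc i
      _ = Sᶜ.card * (17 * A) := by rw [sum_const, smul_eq_mul]
      _ ≤ 211 * Λ * (17 * A) := Nat.mul_le_mul_right _ hlost
  have hsum := H.sum_le hRk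
  have hm := H.m_le
  have hU104 : 100 * ∑ i, (U i).card ≤ 104 * k := by
    by_contra hcon
    push Not at hcon
    have e1 : 104 * k * (R + 1) ≤ 100 * (∑ i, (U i).card) * (R + 1) :=
      Nat.mul_le_mul_right _ hcon.le
    have e2 : 100 * (∑ i, (U i).card) * (R + 1) ≤ 100 * (k ^ 2 + m) := by
      have : (∑ i, (U i).card) * (R + 1) ≤ k ^ 2 + m := by omega
      calc 100 * (∑ i, (U i).card) * (R + 1) = 100 * ((∑ i, (U i).card) * (R + 1)) := by ring
        _ ≤ _ := Nat.mul_le_mul_left _ this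
    have e3 : k * (97 * k) ≤ k * (100 * R) := Nat.mul_le_mul_left _ hR9
    have hk : 10 ^ 4 * 10 ≤ k := by omega
    nlinarith
  refine ⟨S.biUnion U, ρ, ?_, ?_, ?_, ?_⟩
  · intro u hu v hv huv
    obtain ⟨i, hi, hui⟩ := mem_biUnion.1 hu
    obtain ⟨j, hj, hvj⟩ := mem_biUnion.1 hv
    rw [hρ i hi u hui, hρ j hj v hvj]
    by_cases hij : i = j
    · subst hij
      have := H.sep i u hui v hvj huv
      omega
    · have h := hdis i hi j hj hij u hui v hvj
      have h1 := hmar i hi
      have h2 := hmar j hj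
      omega
  · intro u hu
    obtain ⟨i, hi, hui⟩ := mem_biUnion.1 hu
    rw [hρ i hi u hui]
    omega
  · rw [hcard]
    have e : 211 * Λ * (17 * A) = 3587 * (A * Λ) := by ring
    have e' : 4000 * A * Λ = 4000 * (A * Λ) := by ring
    have hAΛ : Λ ≤ A * Λ := Nat.le_mul_of_pos_left _ (by omega)
    rw [e] at hSc
    rw [e']
    omega
  · rw [sum_biUnion hpair]
    have hi1 : ∀ i ∈ S, ∑ u ∈ U i, (R - ρ u) ≤
        68 * A * (U i).card + 238 * A * exc P U R i := by
      intro i hi
      have hs : ∑ u ∈ U i, (R - ρ u) = (U i).card * (2 * mar P U R i) := by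
        rw [← smul_eq_mul, ← sum_const]
        refine sum_congr rfl fun u hu => ?_
        rw [hρ i hi u hu]
        have := hmar i hi
        omega
      rw [hs]
      unfold mar
      have hc := hUc i
      calc (U i).card * (2 * (2 * (U i).card + 7 * exc P U R i))
          = (U i).card * (4 * (U i).card) + (U i).card * (14 * exc P U R i) := by ring
        _ ≤ 17 * A * (4 * (U i).card) + 17 * A * (14 * exc P U R i) :=
          Nat.add_le_add (Nat.mul_le_mul_right _ hc) (Nat.mul_le_mul_right _ hc)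
        _ = _ := by ring
    calc ∑ i ∈ S, ∑ u ∈ U i, (R - ρ u)
        ≤ ∑ i ∈ S, (68 * A * (U i).card + 238 * A * exc P U R i) := sum_le_sum hi1
      _ ≤ ∑ i, (68 * A * (U i).card + 238 * A * exc P U R i) :=
        sum_le_sum_of_subset (subset_univ _)
      _ = 68 * A * ∑ i, (U i).card + 238 * A * ∑ i, exc P U R i := by
        rw [sum_add_distrib, mul_sum, mul_sum]
      _ ≤ 600 * A * k * Λ := by
        have e1 : 238 * A * ∑ i, exc P U R i ≤ 238 * A * (2 * k * Λ) :=
          Nat.mul_le_mul_left _ h3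
        have e2 : 238 * A * (2 * k * Λ) = 476 * (A * k * Λ) := by ring
        have e3 : 68 * A * ∑ i, (U i).card ≤ 71 * (A * k * Λ) := by
          have e4 : 100 * (68 * A * ∑ i, (U i).card) ≤ 100 * (71 * (A * k * Λ)) := by
            calc 100 * (68 * A * ∑ i, (U i).card) = 68 * A * (100 * ∑ i, (U i).card) := by ring
              _ ≤ 68 * A * (104 * k) := Nat.mul_le_mul_left _ hU104
              _ = 7072 * (A * k * 1) := by ring
              _ ≤ 7100 * (A * k * Λ) :=
                Nat.mul_le_mul (by norm_num) (Nat.mul_le_mul_left _ hΛ1)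
              _ = _ := by ring
          omega
        have e5 : 600 * A * k * Λ = 600 * (A * k * Λ) := by ring
        rw [e5]
        omega

end Pool.Agent.Helper67.HS
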