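import Pool.Agent.Helper67.HS.CoverStar

/-! # Project HS, module HS-B4: two stars in conflict save a ball -/

set_option autoImplicit false

namespace Pool.Agent.Helper67.HS

open Finset Pool.Agent.Helper64.FB

variable {V : Type*} [DecidableEq V] {G : SimpleGraph V}

theorem conflict (hT : G.IsTree) {P₁ U₁ P₂ U₂ : Finset V} {R R' s₁ s₂ : ℕ} {m₁ m₂ : V}
    (H₁ : Star G P₁ U₁ R s₁ m₁) (H₂ : Star G P₂ U₂ R s₂ m₂) (h1 : R' ≤ R)
    (hR₁ : R + U₁.card + 4 * s₁ ≤ 2 * R') (hR₂ : R + U₂.card + 4 * s₂ ≤ 2 * R')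
    (hU₁ : 2 ≤ U₁.card) (hU₂ : 2 ≤ U₂.card) {u v : V} (hu : u ∈ U₁) (hv : v ∈ U₂)
    (hd : G.dist u v + 2 * (2 * U₁.card + 7 * s₁) + 2 * (2 * U₂.card + 7 * s₂) ≤ 2 * R) :
    ∃ C C₀ : Finset V, C.card ≤ U₁.card + U₂.card - 4 ∧ C₀.card ≤ 3 ∧
      ∀ x ∈ P₁ ∪ P₂, (∃ c ∈ C, G.dist c x ≤ R') ∨ ∃ c ∈ C₀, G.dist c x ≤ R := by
  obtain ⟨C₁, c₁, hC₁, hc₁⟩ := H₁.cover_but hT h1 hR₁ hU₁ hu
  obtain ⟨C₂, c₂, hC₂, hc₂⟩ := H₂.cover_but hT h1 hR₂ hU₂ hv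
  have ht : min (G.dist u v) (R - (2 * U₁.card + 7 * s₁)) ≤ G.dist u v := min_le_left _ _
  obtain ⟨c, hcu, hcv⟩ := exists_between hT.1 u v ht
  have hcu' : G.dist c u + (2 * U₁.card + 7 * s₁) ≤ R := by
    rw [SimpleGraph.dist_comm, hcu]
    omega
  have hcv' : G.dist c v + (2 * U₂.card + 7 * s₂) ≤ R := by
    omega
  refine ⟨C₁ ∪ C₂, {c₁, c₂, c}, ?_, Finset.card_le_three, ?_⟩
  · have := Finset.card_union_le C₁ C₂
    omega
  · intro x hx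
    rcases Finset.mem_union.mp hx with hx | hx
    · rcases hc₁ x hx with ⟨d, hd1, hd2⟩ | h | h
      · exact Or.inl ⟨d, Finset.mem_union_left _ hd1, hd2⟩
      · exact Or.inr ⟨c₁, by simp, h⟩
      · have := hT.1.dist_triangle (u := c) (v := u) (w := x)
        exact Or.inr ⟨c, by simp, by omega⟩
    · rcases hc₂ x hx with ⟨d, hd1, hd2⟩ | h | h
      · exact Or.inl ⟨d, Finset.mem_union_right _ hd1, hd2⟩
      · exact Or.inr ⟨c₂, by simp, h⟩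
      · have := hT.1.dist_triangle (u := c) (v := v) (w := x)
        exact Or.inr ⟨c, by simp, by omega⟩

end Pool.Agent.Helper67.HS
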