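import Pool.Agent.Helper67.HS.Defs

/-! # Project HS, module HS-C3a: maximal matchings, and cheap covers of groups -/

set_option autoImplicit false

namespace Pool.Agent.Helper67.HS

open Finset Pool.Agent.Helper51.BN Pool.Agent.Helper51.ST

theorem exists_matching {m : ℕ} (r : Fin m → Fin m → Prop) (hs : ∀ i j, r i j → r j i) :
    ∃ σ : Fin m → Fin m, (∀ i, σ (σ i) = i) ∧ (∀ i, σ i ≠ i → r i (σ i)) ∧
      ∀ i j, i ≠ j → σ i = i → σ j = j → ¬ r i j := by
  classical
  let T := {σ : Fin m → Fin m // (∀ i, σ (σ i) = i) ∧ ∀ i, σ i ≠ i → r i (σ i)}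
  have : Nonempty T := ⟨⟨id, fun _ => rfl, fun i h => absurd rfl h⟩⟩
  have : Finite T := inferInstance
  obtain ⟨⟨σ, h1, h2⟩, hmax⟩ :=
    Finite.exists_max (fun σ : T => (univ.filter fun i => σ.1 i ≠ i).card)
  refine ⟨σ, h1, h2, ?_⟩
  intro i j hij hi hj hr
  let τ : Fin m → Fin m := fun x => if x = i then j else if x = j then i else σ x
  have ti : τ i = j := by simp [τ]
  have tj : τ j = i := by simp [τ, hij.symm]
  have tx : ∀ x, x ≠ i → x ≠ j → τ x = σ x := fun x hx hx' => by simp [τ, hx, hx']
  have hne : ∀ x, x ≠ i → σ x ≠ i := by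
    intro x hx h
    have h3 := h1 x
    rw [h, hi] at h3
    exact hx h3.symm
  have hne' : ∀ x, x ≠ j → σ x ≠ j := by
    intro x hx h
    have h3 := h1 x
    rw [h, hj] at h3
    exact hx h3.symm
  have hτ1 : ∀ x, τ (τ x) = x := by
    intro x
    by_cases hx : x = i
    · rw [hx, ti, tj]
    · by_cases hx' : x = j
      · rw [hx', tj, ti]
      · rw [tx x hx hx', tx (σ x) (hne x hx) (hne' x hx'), h1]
  have hτ2 : ∀ x, τ x ≠ x → r x (τ x) := by
    intro x hx0
    by_cases hx : x = i
    · rw [hx, ti]; exact hr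
    · by_cases hx' : x = j
      · rw [hx', tj]; exact hs _ _ hr
      · rw [tx x hx hx'] at hx0 ⊢
        exact h2 x hx0
  have h3 := hmax ⟨τ, hτ1, hτ2⟩
  have h4 : (univ.filter fun x => σ x ≠ x) ⊂ (univ.filter fun x => τ x ≠ x) := by
    rw [Finset.ssubset_iff_of_subset]
    · refine ⟨i, ?_, ?_⟩
      · simp only [mem_filter, mem_univ, true_and]
        rw [ti]; exact hij.symm
      · simp only [mem_filter, mem_univ, true_and, not_not]
        exact hi
    · intro x hx
      simp only [mem_filter, mem_univ, true_and] at hx ⊢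
      have hx1 : x ≠ i := fun h => hx (h ▸ hi)
      have hx2 : x ≠ j := fun h => hx (h ▸ hj)
      rw [tx x hx1 hx2]
      exact hx
  have h5 := card_lt_card h4
  simp only at h3
  omega

/-- A sum over the groups. -/
theorem sum_grp {m : ℕ} {σ : Fin m → Fin m} (hσ : ∀ i, σ (σ i) = i) (c : Fin m → ℝ) :
    ∑ i, (if σ i = i then c i else if i < σ i then c i + c (σ i) else 0) = ∑ i, c i := by
  have h1 : ∑ i, (if i < σ i then c (σ i) else 0) = ∑ i, (if σ i < i then c i else 0) := by
    refine Fintype.sum_bijective σ ?_ _ _ ?_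
    · exact Function.Involutive.bijective hσ
    · intro i
      rw [hσ i]
  have h2 : ∀ i, (if σ i = i then c i else if i < σ i then c i + c (σ i) else 0) =
      (if σ i = i then c i else if i < σ i then c i else 0) + (if i < σ i then c (σ i) else 0) := by
    intro i
    by_cases h : σ i = i
    · simp [h]
    · by_cases h' : i < σ i
      · simp [h, h']
      · simp [h, h']
  rw [sum_congr rfl fun i _ => h2 i, sum_add_distrib, h1, ← sum_add_distrib]
  refine sum_congr rfl fun i _ => ?_
  rcases lt_trichotomy (σ i) i with h | h | h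
  · simp [h, h.ne, not_lt.2 h.le]
  · simp [h]
  · simp [h, h.ne', not_lt.2 h.le]

private theorem cost_union_le {V : Type*} [DecidableEq V] {g : ℕ → ℝ} (hg : ∀ i, 0 ≤ g i)
    (C D : Finset (V × ℕ)) : cost g (C ∪ D) ≤ cost g C + cost g D := by
  unfold cost
  rw [← sum_union_inter]
  exact le_add_of_nonneg_right (sum_nonneg fun p _ => hg _)

theorem cheap_grp {V : Type*} [DecidableEq V] {G : SimpleGraph V} {g : ℕ → ℝ}
    (hg : ∀ i, 0 ≤ g i) {k L m : ℕ} {P : Fin m → Finset V} {σ : Fin m → Fin m}
    (hσ : ∀ i, σ (σ i) = i) (h : Cheap G g k L P) : Cheap G g k L (grp σ P) := by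
  obtain ⟨C, h1, h2, h3⟩ := h
  refine ⟨fun i => if σ i = i then C i else if i < σ i then C i ∪ C (σ i) else ∅, ?_, ?_, ?_⟩
  · intro i p hp
    simp only at hp
    split_ifs at hp with ha hb
    · exact h1 i p hp
    · rcases mem_union.1 hp with hp | hp
      · exact h1 _ p hp
      · exact h1 _ p hp
    · simp at hp
  · intro i v hv
    unfold grp at hv
    split_ifs at hv with ha hb
    · obtain ⟨p, hp, hp'⟩ := h2 i v hv
      exact ⟨p, by simp only [ha, if_true]; exact hp, hp'⟩
    · rcases mem_union.1 hv with hv | hv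
      · obtain ⟨p, hp, hp'⟩ := h2 i v hv
        exact ⟨p, by simp only [ha, hb, if_true, if_false]; exact mem_union_left _ hp, hp'⟩
      · obtain ⟨p, hp, hp'⟩ := h2 (σ i) v hv
        exact ⟨p, by simp only [ha, hb, if_true, if_false]; exact mem_union_right _ hp, hp'⟩
    · simp at hv
  · refine le_trans ?_ h3
    rw [← sum_grp hσ fun i => cost g (C i)]
    refine sum_le_sum fun i _ => ?_
    by_cases ha : σ i = i
    · simp only [ha, if_true]
      exact le_rfl
    · by_cases hb : i < σ i
      · simp only [ha, hb, if_true, if_false]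
        exact cost_union_le hg _ _
      · simp [ha, hb, cost]

end Pool.Agent.Helper67.HS
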