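import Pool.Agent.Helper67.HS.Sigma
import Pool.Agent.Helper67.HS.Conflict
import Pool.Agent.Helper67.HS.Matching

/-! # Project HS, module HS-C3: few pieces are in conflict -/

set_option autoImplicit false

namespace Pool.Agent.Helper67.HS

open Finset Pool.Agent.Helper51.BN Pool.Agent.Helper51.ST

variable {V : Type*} [DecidableEq V] {G : SimpleGraph V} {k A L m : ℕ} {y : Fin m → RT}
  {P : Fin m → Finset V} {q : Fin m → V} {R : ℕ} {U C : Fin m → Finset V} {g : ℕ → ℝ} {b : ℕ}
  {K : ℝ}

/-- The cost of a set of balls of the same radius. -/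
private theorem cost_prod (g : ℕ → ℝ) (D : Finset V) (r : ℕ) :
    cost g (D ×ˢ ({r} : Finset ℕ)) = D.card * g r := by
  unfold cost
  rw [Finset.sum_product]
  simp

private theorem cost_union_le {g : ℕ → ℝ} (hg : ∀ i, 0 ≤ g i) (D E : Finset (V × ℕ)) :
    cost g (D ∪ E) ≤ cost g D + cost g E := by
  unfold cost
  have h := Finset.sum_union_inter (s₁ := D) (s₂ := E) (f := fun p : V × ℕ => g p.2)
  have h0 : 0 ≤ ∑ p ∈ D ∩ E, g p.2 := Finset.sum_nonneg fun p _ => hg _
  linarith

/-- The numbers. -/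
private theorem nums (H : HD G k A L m y P q R U C) (hF : FP g k L b K)
    (hR : R + 2 * 10 ^ 8 * A * L ≤ b) (hR9 : 97 * k ≤ 100 * R) :
    (10 : ℝ) ≤ A ∧ (2 : ℝ) ≤ L ∧ (R : ℝ) + 2 * 10 ^ 8 * A * L ≤ b ∧ (97 : ℝ) * k ≤ 100 * R ∧
      (b : ℝ) + L + 1 ≤ k ∧ (99 : ℝ) * k ≤ 100 * b := by
  have h1 := H.A10
  have h2 := H.data.L2
  have h3 := hF.bk
  have h4 := hF.b9
  refine ⟨by exact_mod_cast h1, by exact_mod_cast h2, by exact_mod_cast hR, by exact_mod_cast hR9,
    by exact_mod_cast h3, by exact_mod_cast h4⟩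

private theorem AL_big (H : HD G k A L m y P q R U C) (hF : FP g k L b K)
    (hR : R + 2 * 10 ^ 8 * A * L ≤ b) (hR9 : 97 * k ≤ 100 * R) :
    10 ^ 8 * A ≤ R ∧ 10 ^ 9 ≤ R := by
  have h1 := H.A10
  have h2 := H.data.L2
  have h3 := hF.bk
  have h5 : 10 ^ 8 * A * 4 ≤ 2 * 10 ^ 8 * A * L := by nlinarith
  omega

private theorem star_of (H : HD G k A L m y P q R U C) (hF : FP g k L b K)
    (hR : R + 2 * 10 ^ 8 * A * L ≤ b) (hR9 : 97 * k ≤ 100 * R) {i : Fin m}
    (hi : 100 * exc P U R i ≤ R) :
    (∃ c, Star G (P i) (U i) R (exc P U R i) c) ∧ 2 ≤ (U i).card ∧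
      R + (U i).card + 4 * exc P U R i ≤ 2 * (3 * R / 5) := by
  have hbk := hF.bk
  have hRk : R + 1 ≤ k := by
    have : R ≤ b := by omega
    omega
  have h2 : 2 ≤ (U i).card := H.two_le hRk i (by omega)
  have hc := H.card_le (by omega) hR9 i
  have he := H.exc_eq (by omega) i
  have hA := AL_big H hF hR hR9
  refine ⟨exists_star H.tree (H.conv i) (H.sub i) (H.sep i) h2 (by omega), h2, by omega⟩

/-- The cover of the groups. -/
theorem group_cover (H : HD G k A L m y P q R U C) (hF : FP g k L b K)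
    (hR : R + 2 * 10 ^ 8 * A * L ≤ b) (hR9 : 97 * k ≤ 100 * R) {σ : Fin m → Fin m}
    (hσ : ∀ i, σ (σ i) = i) (hC : ∀ i, σ i ≠ i → Conf G P U R i (σ i)) :
    ∃ D : Fin m → Finset (V × ℕ), (∀ i, ∀ p ∈ D i, p.2 < k - L) ∧
      (∀ i, ∀ v ∈ grp σ P i, ∃ p ∈ D i, G.dist p.1 v ≤ p.2) ∧
      ∑ i, cost g (D i) ≤ K / 2 * ((∑ i, (U i).card : ℕ) + 4 * 10 ^ 4 * L +
        (∑ i, exc P U R i : ℕ) / (10 * R) -
          9 / 10 * (univ.filter fun i => i < σ i).card) := by
  obtain ⟨n1, n2, n3, n4, n5, n6⟩ := nums H hF hR hR9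
  have hA := AL_big H hF hR hR9
  have hbk := hF.bk
  have hK := hF.Kpos
  have hRb : R ≤ b := by omega
  have hRkL : R < k - L := by omega
  have hR0 : (10 : ℝ) ^ 9 ≤ R := by exact_mod_cast hA.2
  have hb0 : (0 : ℝ) < b := by
    have : (R : ℝ) ≤ b := by exact_mod_cast hRb
    linarith
  have hAL : (20 : ℝ) ≤ A * L := by nlinarith
  -- the prices
  set R' := 3 * R / 5 with hR'
  have hR'R : R' ≤ R := by omega
  have hR'b : (5 : ℝ) * R' ≤ 3 * R := by
    have : 5 * R' ≤ 3 * R := by omega
    exact_mod_cast this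
  have g1 : g R' ≤ K / 2 * (1 + 25000 * L / b) := by
    have h := hF.flat R' (by omega)
    have hbR : (2 : ℝ) / 5 * b ≤ b - R' := by
      have : (R : ℝ) ≤ b := by exact_mod_cast hRb
      linarith
    have hpos : (0 : ℝ) < b - R' := by linarith
    have h' : 2 * g R' ≤ K * (1 + 10 ^ 4 * L / (b - R')) := by
      have e1 : K * ((b : ℝ) - R' + 10 ^ 4 * L) = K * (1 + 10 ^ 4 * L / (b - R')) * (b - R') := by
        field_simp
      rw [e1] at h
      exact le_of_mul_le_mul_right h hpos
    have h2 : (10 : ℝ) ^ 4 * L / (b - R') ≤ 25000 * L / b := by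
      rw [div_le_div_iff₀ hpos hb0]
      nlinarith
    nlinarith
  have g2 : g R ≤ K / 2 * (1 + 1 / (20000 * A)) := by
    have h := hF.flat R (by
      have : 0 < 2 * 10 ^ 8 * A * L := by
        have := H.A10
        have := H.data.L2
        positivity
      omega)
    have hpos : (0 : ℝ) < b - R := by nlinarith
    have h' : 2 * g R ≤ K * (1 + 10 ^ 4 * L / (b - R)) := by
      have e1 : K * ((b : ℝ) - R + 10 ^ 4 * L) = K * (1 + 10 ^ 4 * L / (b - R)) * (b - R) := by
        field_simp
      rw [e1] at h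
      exact le_of_mul_le_mul_right h hpos
    have h2 : (10 : ℝ) ^ 4 * L / (b - R) ≤ 1 / (20000 * A) := by
      rw [div_le_div_iff₀ hpos (by positivity)]
      nlinarith
    nlinarith
  have hη : (0 : ℝ) ≤ 25000 * L / b := by positivity
  have gR0 := hF.nonneg R
  have gR'0 := hF.nonneg R'
  -- the bound for one piece
  set c : Fin m → ℝ := fun i => K / 2 * ((1 + 25000 * L / b) * (U i).card +
    exc P U R i / (10 * R)) with hc
  have hRpos : (0 : ℝ) < R := by linarith
  have c0 : ∀ i, 0 ≤ c i := fun i => by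
    simp only [hc]
    positivity
  have key : ∀ i, ∃ D : Finset (V × ℕ), (∀ p ∈ D, p.2 < k - L) ∧
      (∀ v ∈ grp σ P i, ∃ p ∈ D, G.dist p.1 v ≤ p.2) ∧
      cost g D ≤ (if σ i = i then c i else if i < σ i then c i + c (σ i) else 0) -
        if i < σ i then K / 2 * (9 / 10) else 0 := by
    intro i
    by_cases h1 : σ i = i
    · have h1' : ¬ i < σ i := by rw [h1]; exact lt_irrefl i
      rw [if_pos h1, if_neg h1', sub_zero]
      have hg : grp σ P i = P i := by unfold grp; rw [if_pos h1]
      rw [hg]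
      by_cases hgood : 100 * exc P U R i ≤ R
      · obtain ⟨⟨c₀, hst⟩, -, h3⟩ := star_of H hF hR hR9 hgood
        obtain ⟨D, hD1, hD2⟩ := hst.cover_all H.tree hR'R h3
        refine ⟨D ×ˢ {R'}, ?_, ?_, ?_⟩
        · intro p hp
          rw [Finset.mem_product, Finset.mem_singleton] at hp
          omega
        · intro v hv
          obtain ⟨x, hx, hd⟩ := hD2 v hv
          exact ⟨(x, R'), by simp [hx], hd⟩
        · rw [cost_prod]
          have hD1' : (D.card : ℝ) ≤ (U i).card := by exact_mod_cast hD1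
          have e0 : (0 : ℝ) ≤ exc P U R i / (10 * R) := by positivity
          calc (D.card : ℝ) * g R' ≤ (U i).card * (K / 2 * (1 + 25000 * L / b)) := by
                apply mul_le_mul hD1' g1 gR'0 (by positivity)
            _ ≤ c i := by simp only [hc]; nlinarith
      · refine ⟨C i ×ˢ {R}, ?_, ?_, ?_⟩
        · intro p hp
          rw [Finset.mem_product, Finset.mem_singleton] at hp
          omega
        · intro v hv
          obtain ⟨x, hx, hd⟩ := H.cov i v hv
          exact ⟨(x, R), by simp [hx], hd⟩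
        · rw [cost_prod]
          have hD1' : ((C i).card : ℝ) ≤ (U i).card := by exact_mod_cast H.card i
          have hbad : (R : ℝ) / 100 ≤ exc P U R i := by
            have : R < 100 * exc P U R i := by omega
            have : (R : ℝ) < 100 * exc P U R i := by exact_mod_cast this
            linarith
          have e0 : (1 : ℝ) / 1000 ≤ exc P U R i / (10 * R) := by
            rw [div_le_div_iff₀ (by norm_num) (by positivity)]
            linarith
          have hcA : ((U i).card : ℝ) ≤ 17 * A := by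
            have := H.card_le (by omega) hR9 i
            exact_mod_cast this
          have h17 : ((U i).card : ℝ) * (1 / (20000 * A)) ≤ 17 / 20000 := by
            calc ((U i).card : ℝ) * (1 / (20000 * A)) ≤ 17 * A * (1 / (20000 * A)) := by
                  apply mul_le_mul_of_nonneg_right hcA (by positivity)
              _ = 17 / 20000 := by
                  have : (A : ℝ) ≠ 0 := by positivity
                  field_simp
          calc ((C i).card : ℝ) * g R ≤ (U i).card * (K / 2 * (1 + 1 / (20000 * A))) := by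
                apply mul_le_mul hD1' g2 gR0 (by positivity)
            _ = K / 2 * ((U i).card + (U i).card * (1 / (20000 * A))) := by ring
            _ ≤ K / 2 * ((1 + 25000 * L / b) * (U i).card + exc P U R i / (10 * R)) := by
                apply mul_le_mul_of_nonneg_left _ (by positivity)
                have : 0 ≤ 25000 * L / b * ((U i).card : ℝ) := by positivity
                linarith
            _ = c i := by simp only [hc]
    · by_cases h2 : i < σ i
      · rw [if_neg h1, if_pos h2, if_pos h2]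
        have hg : grp σ P i = P i ∪ P (σ i) := by unfold grp; rw [if_neg h1, if_pos h2]
        rw [hg]
        obtain ⟨hne, hg1, hg2, u, hu, v, hv, hd⟩ := hC i h1
        obtain ⟨⟨c₁, hst1⟩, hU1, h31⟩ := star_of H hF hR hR9 hg1
        obtain ⟨⟨c₂, hst2⟩, hU2, h32⟩ := star_of H hF hR hR9 hg2
        obtain ⟨D, D₀, hD, hD0, hcov⟩ := conflict H.tree hst1 hst2 hR'R h31 h32 hU1 hU2 hu hv hd
        refine ⟨D ×ˢ {R'} ∪ D₀ ×ˢ {R}, ?_, ?_, ?_⟩
        · intro p hp
          rw [Finset.mem_union, Finset.mem_product, Finset.mem_product, Finset.mem_singleton,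
            Finset.mem_singleton] at hp
          omega
        · intro x hx
          rcases hcov x hx with ⟨z, hz, hd⟩ | ⟨z, hz, hd⟩
          · exact ⟨(z, R'), by simp [hz], hd⟩
          · exact ⟨(z, R), by simp [hz], hd⟩
        · have h4 : (D.card : ℝ) ≤ (U i).card + (U (σ i)).card - 4 := by
            have : D.card + 4 ≤ (U i).card + (U (σ i)).card := by omega
            have : (D.card : ℝ) + 4 ≤ (U i).card + (U (σ i)).card := by exact_mod_cast this
            linarith
          have h5 : (D₀.card : ℝ) ≤ 3 := by exact_mod_cast hD0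
          have h6 : (0 : ℝ) ≤ (U i).card + (U (σ i)).card - 4 := le_trans (by positivity) h4
          have e1 : (0 : ℝ) ≤ exc P U R i / (10 * R) := by positivity
          have e2 : (0 : ℝ) ≤ exc P U R (σ i) / (10 * R) := by positivity
          have e3 : (1 : ℝ) / (20000 * A) ≤ 1 / 200000 := by
            apply one_div_le_one_div_of_le (by norm_num)
            linarith
          calc cost g (D ×ˢ {R'} ∪ D₀ ×ˢ {R}) ≤ cost g (D ×ˢ {R'}) + cost g (D₀ ×ˢ {R}) :=
                cost_union_le hF.nonneg _ _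
            _ = D.card * g R' + D₀.card * g R := by rw [cost_prod, cost_prod]
            _ ≤ ((U i).card + (U (σ i)).card - 4) * (K / 2 * (1 + 25000 * L / b)) +
                3 * (K / 2 * (1 + 1 / (20000 * A))) := by
                apply add_le_add
                · exact mul_le_mul h4 g1 gR'0 h6
                · exact mul_le_mul h5 g2 gR0 (by norm_num)
            _ = K / 2 * (((U i).card + (U (σ i)).card - 4) * (1 + 25000 * L / b) +
                3 * (1 + 1 / (20000 * A))) := by ring
            _ ≤ K / 2 * ((1 + 25000 * L / b) * (U i).card + exc P U R i / (10 * R) +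
                ((1 + 25000 * L / b) * (U (σ i)).card + exc P U R (σ i) / (10 * R)) - 9 / 10) := by
                apply mul_le_mul_of_nonneg_left _ (by positivity)
                nlinarith
            _ = c i + c (σ i) - K / 2 * (9 / 10) := by simp only [hc]; ring
      · rw [if_neg h1, if_neg h2, if_neg h2, sub_zero]
        have hg : grp σ P i = ∅ := by unfold grp; rw [if_neg h1, if_neg h2]
        refine ⟨∅, by simp, by simp [hg], by simp [cost]⟩
  choose D hD1 hD2 hD3 using key
  refine ⟨D, hD1, hD2, ?_⟩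
  have hsum : ∑ i, cost g (D i) ≤ ∑ i, c i - K / 2 * (9 / 10) *
      (univ.filter fun i => i < σ i).card := by
    calc ∑ i, cost g (D i) ≤ ∑ i, ((if σ i = i then c i else if i < σ i then c i + c (σ i) else 0) -
          if i < σ i then K / 2 * (9 / 10) else 0) := Finset.sum_le_sum fun i _ => hD3 i
      _ = ∑ i, c i - K / 2 * (9 / 10) * (univ.filter fun i => i < σ i).card := by
          rw [Finset.sum_sub_distrib, sum_grp hσ, ← Finset.sum_filter, Finset.sum_const,
            nsmul_eq_mul]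
          ring
  have hcs : ∑ i, c i = K / 2 * ((1 + 25000 * L / b) * (∑ i, (U i).card : ℕ) +
      (∑ i, exc P U R i : ℕ) / (10 * R)) := by
    simp only [hc]
    rw [← Finset.mul_sum, Finset.sum_add_distrib, ← Finset.mul_sum, ← Finset.sum_div]
    push_cast
    rfl
  have hn : ((∑ i, (U i).card : ℕ) : ℝ) ≤ 8 / 5 * b := by
    have h1 := H.sum_le (by omega : R ≤ k)
    have h2 := H.m_le
    have h1' : ((∑ i, (U i).card : ℕ) : ℝ) * (R + 1) + (∑ i, exc P U R i : ℕ) ≤ k ^ 2 + m := by
      exact_mod_cast h1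
    have h2' : (80 : ℝ) * m ≤ k := by exact_mod_cast h2
    have h3 : (0 : ℝ) ≤ (∑ i, exc P U R i : ℕ) := by positivity
    have hk1 : (1 : ℝ) ≤ k := by linarith
    by_contra hcon
    push Not at hcon
    nlinarith
  have hη2 : 25000 * L / b * ((∑ i, (U i).card : ℕ) : ℝ) ≤ 4 * 10 ^ 4 * L := by
    calc 25000 * L / b * ((∑ i, (U i).card : ℕ) : ℝ) ≤ 25000 * L / b * (8 / 5 * b) := by
          apply mul_le_mul_of_nonneg_left hn hη
      _ = 4 * 10 ^ 4 * L := by
          have : (b : ℝ) ≠ 0 := hb0.ne'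
          field_simp
          norm_num
  calc ∑ i, cost g (D i) ≤ ∑ i, c i - K / 2 * (9 / 10) *
      (univ.filter fun i => i < σ i).card := hsum
    _ = K / 2 * ((1 + 25000 * L / b) * (∑ i, (U i).card : ℕ) +
        (∑ i, exc P U R i : ℕ) / (10 * R) - 9 / 10 * (univ.filter fun i => i < σ i).card) := by
        rw [hcs]; ring
    _ ≤ _ := by
        apply mul_le_mul_of_nonneg_left _ (by positivity)
        linarith

theorem match_small (H : HD G k A L m y P q R U C) (hF : FP g k L b K)
    (hR : R + 2 * 10 ^ 8 * A * L ≤ b) (hR9 : 97 * k ≤ 100 * R) {σ : Fin m → Fin m}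
    (hσ : ∀ i, σ (σ i) = i) (hC : ∀ i, σ i ≠ i → Conf G P U R i (σ i))
    (hn : ¬ Cheap G g k L (grp σ P)) :
    (univ.filter fun i => i < σ i).card ≤ 2 * ((k - R) + 10 ^ 5 * L) ∧
      k ≤ ∑ i, (U i).card + ((k - R) + 10 ^ 5 * L) ∧
      ∑ i, exc P U R i ≤ 2 * k * ((k - R) + 10 ^ 5 * L) := by
  obtain ⟨n1, n2, n3, n4, n5, n6⟩ := nums H hF hR hR9
  have hA := AL_big H hF hR hR9
  have hbk := hF.bk
  have hK := hF.Kpos
  have hRb : R ≤ b := by omega
  have hR0 : (10 : ℝ) ^ 9 ≤ R := by exact_mod_cast hA.2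
  obtain ⟨D, hD1, hD2, hD3⟩ := group_cover H hF hR hR9 hσ hC
  have hlt : ∑ r ∈ range (k - L), g r < ∑ i, cost g (D i) := by
    by_contra hcon
    push Not at hcon
    exact hn ⟨D, hD1, hD2, hcon⟩
  have hE := sigma_le H hF hR hR9 (fun h => hn (cheap_grp hF.nonneg hσ h))
  have htot := hF.tot
  have hsum := H.sum_le (by omega : R ≤ k)
  have hm := H.m_le
  set n := ∑ i, (U i).card with hn'
  set E := ∑ i, exc P U R i with hE'
  set M := (univ.filter fun i => i < σ i).card with hM'
  have hbk' : b - R ≤ k - R := by omega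
  have hE3 : E ≤ 2 * k * ((k - R) + 10 ^ 5 * L) := by
    calc E ≤ 2 * k * (b - R) + 10 ^ 5 * k * L := hE
      _ ≤ 2 * k * (k - R) + 10 ^ 5 * k * L := by gcongr
      _ ≤ 2 * k * ((k - R) + 10 ^ 5 * L) := by nlinarith
  -- real numbers
  have hkR : ((k - R : ℕ) : ℝ) = k - R := by
    rw [Nat.cast_sub (by omega)]
  have hbR : ((b - R : ℕ) : ℝ) = b - R := by
    rw [Nat.cast_sub (by omega)]
  have hEr : (E : ℝ) ≤ 2 * k * (b - R) + 10 ^ 5 * k * L := by
    rw [← hbR]
    exact_mod_cast hE
  have hk0 : (0 : ℝ) < k := by linarith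
  have hRpos : (0 : ℝ) < R := by linarith
  have hE2 : (E : ℝ) / (10 * R) ≤ 21 / 100 * (k - R) + 11000 * L := by
    rw [div_le_iff₀ (by positivity)]
    have hbR' : (0 : ℝ) ≤ b - R := by
      have : (R : ℝ) ≤ b := by exact_mod_cast hRb
      linarith
    have hkb : (b : ℝ) - R ≤ k - R := by linarith
    have h1 : 2 * (k : ℝ) * (b - R) ≤ 2 * k * (k - R) := by nlinarith
    have h2 : (21 / 100 * ((k : ℝ) - R) + 11000 * L) * (97 / 10 * k) ≤
        (21 / 100 * ((k : ℝ) - R) + 11000 * L) * (10 * R) := by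
      apply mul_le_mul_of_nonneg_left (by linarith)
      have : (0 : ℝ) ≤ k - R := by linarith
      positivity
    nlinarith [mul_nonneg hk0.le (by linarith : (0 : ℝ) ≤ (k : ℝ) - R)]
  have hL4 : (4 : ℝ) * L < k := by
    have h1 : 0 ≤ 2 * (10 : ℝ) ^ 8 * A * L := by positivity
    nlinarith
  have hmain : (k : ℝ) - 4 * L < n + 4 * 10 ^ 4 * L + E / (10 * R) - 9 / 10 * M := by
    set X : ℝ := n + 4 * 10 ^ 4 * L + E / (10 * R) - 9 / 10 * M with hX
    have h1 : K * ((k : ℝ) ^ 2 - 4 * k * L) < (2 * b + 1) * (K / 2 * X) := by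
      calc K * ((k : ℝ) ^ 2 - 4 * k * L) ≤ (2 * b + 1) * ∑ r ∈ range (k - L), g r := htot
        _ < (2 * b + 1) * (K / 2 * X) := by
            apply mul_lt_mul_of_pos_left (lt_of_lt_of_le hlt hD3) (by positivity)
    have h2 : (k : ℝ) ^ 2 - 4 * k * L < (b + 1 / 2) * X := by
      have : K * ((k : ℝ) ^ 2 - 4 * k * L) < K * ((b + 1 / 2) * X) := by
        calc K * ((k : ℝ) ^ 2 - 4 * k * L) < (2 * b + 1) * (K / 2 * X) := h1
          _ = K * ((b + 1 / 2) * X) := by ring
      exact lt_of_mul_lt_mul_left this hK.le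
    have hX0 : 0 < X := by
      by_contra hcon
      push Not at hcon
      have h3 : ((b : ℝ) + 1 / 2) * X ≤ 0 := by
        apply mul_nonpos_of_nonneg_of_nonpos (by positivity) hcon
      nlinarith
    have h3 : ((b : ℝ) + 1 / 2) * X ≤ k * X := by
      apply mul_le_mul_of_nonneg_right _ hX0.le
      linarith
    have h4 : (k : ℝ) * (k - 4 * L) < k * X := by nlinarith
    exact lt_of_mul_lt_mul_left h4 hk0.le
  have hnr : (n : ℝ) - k ≤ 104 / 100 * (k - R) := by
    have h1' : (n : ℝ) * (R + 1) + E ≤ k ^ 2 + m := by exact_mod_cast hsum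
    have h2' : (80 : ℝ) * m ≤ k := by exact_mod_cast hm
    have h3 : (0 : ℝ) ≤ E := by positivity
    have h5 : (0 : ℝ) ≤ k - R := by linarith
    by_contra hcon
    push Not at hcon
    have h6 : (k + 104 / 100 * ((k : ℝ) - R)) * (R + 1) < n * (R + 1) := by
      apply mul_lt_mul_of_pos_right _ (by positivity)
      linarith
    nlinarith [mul_nonneg h5 (by linarith : (0 : ℝ) ≤ 104 / 100 * (R : ℝ) - k)]
  have hL0 : (0 : ℝ) ≤ L := by positivity
  have hM0 : (0 : ℝ) ≤ M := by positivity
  have h5 : (0 : ℝ) ≤ k - R := by linarith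
  refine ⟨?_, ?_, hE3⟩
  · have : (M : ℝ) ≤ 2 * (((k - R : ℕ) : ℝ) + 10 ^ 5 * L) := by
      rw [hkR]
      linarith
    exact_mod_cast this
  · have : (k : ℝ) ≤ n + (((k - R : ℕ) : ℝ) + 10 ^ 5 * L) := by
      rw [hkR]
      linarith
    exact_mod_cast this

end Pool.Agent.Helper67.HS
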