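import Pool.Agent.Helper67.HS.Soft
import Pool.Agent.Helper67.HS.BLarge
import Pool.Agent.Helper67.HS.MatchSmall
import Pool.Agent.Helper67.HS.Disj
import Pool.Agent.Helper67.HS.Count
import Pool.Agent.Helper67.HS.Param2

/-! # Project HS, module HS-C5: hard stability -/

set_option autoImplicit false

namespace Pool.Agent.Helper67.HS

open Finset Pool.Agent.Helper51.BN Pool.Agent.Helper51.ST N441b2449

universe u

/-- The price belongs to a scale. -/
private theorem exists_price {g : ℕ → ℝ} (hg : ∀ i, 0 ≤ g i) (hm : Monotone g) {k L : ℕ}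
    (hL : 2 ≤ L) (hk : 17 * L ≤ k) (hpos : 0 < g (k - L - 1)) :
    ∃ (b : ℕ) (ρ : ℝ), Price g k L b ρ := by
  obtain ⟨n, hn⟩ : ∃ n, n = k - L - 1 := ⟨_, rfl⟩
  have hkn : k = n + L + 1 := by omega
  rw [← hn] at hpos
  have hn1 : 1 ≤ n := by omega
  have hkr : (0 : ℝ) < k := by
    have : 0 < k := by omega
    exact_mod_cast this
  have hLr : (2 : ℝ) ≤ L := by exact_mod_cast hL
  have hLk : (17 : ℝ) * L ≤ k := by exact_mod_cast hk
  have hη : 0 < (L : ℝ) / k := by positivity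
  have hη1 : (L : ℝ) / k ≤ 1 := by
    rw [div_le_one hkr]
    linarith
  obtain ⟨b, ρ, hb1, hbn, hρ, hcf, hb2, htot⟩ := exists_scale hg hm hn1 hpos hη hη1
  have hnr : (n : ℝ) = k - L - 1 := by
    rw [hkn]
    push_cast
    ring
  refine ⟨b, ρ, hg, hm, hρ, hb1, by omega, ?_, hcf, ?_⟩
  · have h1 : (k : ℝ) * L ≤ 12 * b ^ 2 := by
      have h2 : (k : ℝ) / 2 ≤ n := by
        rw [hnr]
        linarith
      have h3 : ((k : ℝ) / 2) ^ 2 ≤ (n : ℝ) ^ 2 := pow_le_pow_left₀ (by positivity) h2 2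
      have h4 : (L : ℝ) / k * ((k : ℝ) / 2) ^ 2 ≤ L / k * n ^ 2 :=
        mul_le_mul_of_nonneg_left h3 hη.le
      have h5 : (L : ℝ) / k * ((k : ℝ) / 2) ^ 2 = k * L / 4 := by
        field_simp
        ring
      linarith
    exact_mod_cast h1
  · have h1 : g 0 + 2 * ∑ j ∈ Icc 1 n, g j ≤ 2 * ∑ r ∈ range (k - L), g r := by
      have h2 : k - L = n + 1 := by omega
      rw [h2, Finset.sum_range_succ']
      have h3 : ∑ j ∈ Icc 1 n, g j = ∑ i ∈ range n, g (i + 1) := by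
        rw [Finset.range_eq_Ico, Finset.sum_Ico_add' (fun i => g i) 0 n 1]
        apply Finset.sum_congr _ fun _ _ => rfl
        ext i
        simp only [Finset.mem_Icc, Finset.mem_Ico]
        omega
      rw [h3]
      have := hg 0
      linarith
    have hS : 0 ≤ ∑ r ∈ range (k - L), g r := Finset.sum_nonneg fun i _ => hg i
    have h2 : ρ * (n * (2 * n + 1)) ≤ (1 + (L : ℝ) / k) * (2 * ∑ r ∈ range (k - L), g r) := by
      rw [htot]
      exact mul_le_mul_of_nonneg_left h1 (by positivity)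
    have h3 : ρ * (n : ℝ) ^ 2 ≤ (1 + (L : ℝ) / k) * ∑ r ∈ range (k - L), g r := by
      have h4 : 0 ≤ ρ * (n : ℝ) := by positivity
      nlinarith
    have h4 : (1 + (L : ℝ) / k) * (ρ * ((k : ℝ) ^ 2 - 4 * k * L)) ≤ ρ * (n : ℝ) ^ 2 := by
      have h5 : (1 + (L : ℝ) / k) * (ρ * ((k : ℝ) ^ 2 - 4 * k * L)) =
          ρ * ((k : ℝ) ^ 2 - 3 * k * L - 4 * L ^ 2) := by
        field_simp
        ring
      rw [h5]
      refine mul_le_mul_of_nonneg_left ?_ hρ.le
      rw [hnr]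
      nlinarith
    have h5 : 0 < 1 + (L : ℝ) / k := by positivity
    exact le_of_mul_le_mul_left (h4.trans h3) h5

private theorem few_num {c : ℝ} (hc : c = 1 / 10 ^ 21) : ∃ k₀ : ℕ, ∀ k : ℕ, k₀ ≤ k →
    1 ≤ ⌊c * k / Real.log k⌋₊ ∧
    10 ^ 20 * ((⌊c * k / Real.log k⌋₊ + 1) + ⌊c * k / Real.log k⌋₊ + 1) * (Nat.log 2 k + 1) ≤ k := by
  have h1 : ∀ᶠ x : ℝ in Filter.atTop, ‖Real.log x‖ ≤ (1 / 10 ^ 22 : ℝ) * ‖x‖ :=
    Real.isLittleO_log_id_atTop.bound (by norm_num)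
  have h2 : ∀ᶠ x : ℝ in Filter.atTop, Real.exp 1 ≤ x := Filter.eventually_ge_atTop _
  obtain ⟨k₀, hk₀⟩ := Filter.eventually_atTop.1
    (tendsto_natCast_atTop_atTop.eventually (h1.and h2))
  refine ⟨k₀, fun k hk => ?_⟩
  obtain ⟨h3, h4⟩ := hk₀ k hk
  have hk0 : (0 : ℝ) < k := lt_of_lt_of_le (Real.exp_pos 1) h4
  have hlog : 1 ≤ Real.log k := by
    rw [Real.le_log_iff_exp_le hk0]
    exact h4
  rw [Real.norm_of_nonneg (by linarith), Real.norm_of_nonneg hk0.le] at h3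
  have hl0 : 0 < Real.log k := by linarith
  constructor
  · apply Nat.le_floor
    rw [Nat.cast_one, le_div_iff₀ hl0, hc]
    linarith
  · have hL : (⌊c * k / Real.log k⌋₊ : ℝ) ≤ c * k / Real.log k :=
      Nat.floor_le (by rw [hc]; positivity)
    generalize ⌊c * (k : ℝ) / Real.log k⌋₊ = L at hL ⊢
    have hL' : (L : ℝ) * Real.log k ≤ c * k := by
      rwa [le_div_iff₀ hl0] at hL
    have hlg : ((Nat.log 2 k : ℕ) : ℝ) * Real.log 2 ≤ Real.log k := by
      have h5 : (2 : ℝ) ^ (Nat.log 2 k) ≤ k := by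
        have hk1 : k ≠ 0 := by
          rintro rfl
          simp at hk0
        exact_mod_cast Nat.pow_log_le_self 2 hk1
      have h6 := Real.log_le_log (by positivity) h5
      rwa [Real.log_pow] at h6
    have hlg2 : ((Nat.log 2 k : ℕ) : ℝ) ≤ 3 / 2 * Real.log k := by
      have h7 := Real.log_two_gt_d9
      have h8 : (0 : ℝ) ≤ (Nat.log 2 k : ℕ) := Nat.cast_nonneg _
      nlinarith
    have hfin : (10 : ℝ) ^ 20 * ((L + 1) + L + 1) * ((Nat.log 2 k : ℕ) + 1) ≤ k := by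
      have h9 : ((Nat.log 2 k : ℕ) : ℝ) + 1 ≤ 5 / 2 * Real.log k := by linarith
      have h10 : ((L : ℝ) + 1 + L + 1) * ((Nat.log 2 k : ℕ) + 1) ≤
          ((L : ℝ) + 1 + L + 1) * (5 / 2 * Real.log k) :=
        mul_le_mul_of_nonneg_left h9 (by positivity)
      have h11 : ((L : ℝ) + 1 + L + 1) * (5 / 2 * Real.log k) =
          5 * (L * Real.log k) + 5 * Real.log k := by ring
      rw [hc] at hL'
      rw [mul_assoc]
      nlinarith
    exact_mod_cast hfin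

/-- The final estimate. -/
private theorem final_num {k A L x₂ Λ D : ℕ} (hk : 0 < k) (hA : 10 ≤ A) (hL : 2 ≤ L)
    (hx : x₂ = 4 * 10 ^ 11 * A ^ 2 * L) (hΛ : Λ = x₂ + 10 ^ 5 * L)
    (hD : D ≤ 3 * k * x₂ + 3 * (4000 * A * Λ + 1) * k + 3 * (600 * A * k * Λ)) :
    D ≤ 10 ^ 16 * A ^ 3 * L * k := by
  have h1 : Λ ≤ 5 * 10 ^ 11 * A ^ 2 * L := by
    rw [hΛ, hx]
    nlinarith [Nat.mul_le_mul (Nat.mul_le_mul hA hA) (le_refl L)]
  have h2 : x₂ ≤ Λ := by omega
  have h3 : 1 ≤ Λ := by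
    rw [hΛ]
    omega
  have h4 : D ≤ 14000 * A * Λ * k := by
    have e1 : 3 * k * x₂ ≤ 3 * k * Λ := Nat.mul_le_mul_left _ h2
    have e2 : 3 * k * Λ ≤ A * Λ * k := by nlinarith [Nat.mul_le_mul hA (le_refl (Λ * k))]
    have e3 : 3 * k ≤ A * Λ * k := by nlinarith [Nat.mul_le_mul hA (Nat.mul_le_mul h3 (le_refl k))]
    nlinarith
  have h5 : 14000 * A * Λ * k ≤ 14000 * A * (5 * 10 ^ 11 * A ^ 2 * L) * k :=
    Nat.mul_le_mul_right _ (Nat.mul_le_mul_left _ h1)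
  have h6 : 14000 * A * (5 * 10 ^ 11 * A ^ 2 * L) * k = 7 * 10 ^ 15 * (A ^ 3 * L * k) := by ring
  have h7 : 10 ^ 16 * A ^ 3 * L * k = 10 ^ 16 * (A ^ 3 * L * k) := by ring
  omega

private theorem conf_symm {V : Type*} [DecidableEq V] {G : SimpleGraph V} {m : ℕ}
    {P U : Fin m → Finset V} {R : ℕ} {i j : Fin m} (h : Conf G P U R i j) : Conf G P U R j i := by
  obtain ⟨h1, h2, h3, u, hu, v, hv, h4⟩ := h
  refine ⟨h1.symm, h3, h2, v, hv, u, hu, ?_⟩
  rw [SimpleGraph.dist_comm]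
  omega

/-- Hard stability: a tree on at most `k ^ 2` vertices whose burning number exceeds `k` is a
corona up to polylogarithmic errors. -/
theorem hard_stab : ∃ k₀ : ℕ, ∀ {V : Type u} [Fintype V] [DecidableEq V] {G : SimpleGraph V},
    G.IsTree → ∀ {k : ℕ} {x : RT} {r : V}, Tr G x univ r → k₀ ≤ k → Fintype.card V ≤ k ^ 2 →
      k < burningNumber G →
      ((∑ t ∈ Icc 1 k, (k - x.N t) : ℕ) : ℝ) ≤ k * Real.log k ^ 15 := by
  obtain ⟨c, hc⟩ : ∃ c : ℝ, c = 1 / 10 ^ 21 := ⟨_, rfl⟩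
  have hc0 : 0 < c := by rw [hc]; norm_num
  have hc1 : c ≤ 1 := by rw [hc]; norm_num
  obtain ⟨Λ₀, k₁, hsoft⟩ := soft.{u} hc0 hc1
  obtain ⟨k₂, hfew⟩ := few_num hc
  obtain ⟨k₀, hk₀⟩ := exists_param2 Λ₀ (max k₁ 1)
  refine ⟨max k₀ k₂, fun {V} _ _ {G} hT {k x r} H hk hcard hburn => ?_⟩
  have hG : G.Connected := hT.connected
  obtain ⟨A, L, s, X, Y, δ', hA10, hA2, hk1, hΛ, hlog, hAL, hL2, hL4, hL17, hbig, hLX, hY, hδ8,
    hYδ, hs, h0, hX, hfinal⟩ := hk₀ k ((le_max_left _ _).trans hk)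
  have hkpos : 0 < k := by omega
  have hkr : (0 : ℝ) < k := by exact_mod_cast hkpos
  have he : x.e ≤ k ^ 2 := by
    have h3 := H.card
    rw [card_univ] at h3
    omega
  -- many long paths
  have hN2 : ⌊c * k / Real.log k⌋₊ < x.N ⌊c * k / Real.log k⌋₊ := by
    by_contra hcon
    obtain ⟨hp, hC⟩ := hfew k ((le_max_right _ _).trans hk)
    obtain ⟨K, hK1, hK2, hK3⟩ := skeleton hG H hp
    obtain ⟨cc, hcc⟩ := Pool.Agent.Helper64.FB.graph_main hG K hK1
      (hK2.trans (Nat.add_le_add_right (not_lt.1 hcon) 1)) (fun w => hK3 w (mem_univ w)) hcard hC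
    have h5 := Pool.Agent.Helper64.Burn.burningNumber_le_of_centers hG cc hcc
    omega
  -- pieces
  have hspos : 0 < 8 * A * k := by positivity
  obtain ⟨m, y, P, q, x₀, S₀, htr, hbigp, hle, H₀, hx₀, hcov, hsum, hNA, hNB⟩ :=
    exists_pieces H hspos
  have hcnt : 8 * A * m ≤ k := by
    have h1 : m * (8 * A * k) ≤ ∑ i, (y i).e := by
      have h2 := Finset.card_nsmul_le_sum (univ : Finset (Fin m)) (fun i => (y i).e) (8 * A * k)
        (fun i _ => hbigp i)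
      simpa using h2
    have h3 : (8 * A * m) * k ≤ k * k := by
      calc (8 * A * m) * k = m * (8 * A * k) := by ring
        _ ≤ ∑ i, (y i).e := h1
        _ ≤ k ^ 2 := by omega
        _ = k * k := by ring
    exact Nat.le_of_mul_le_mul_right h3 hkpos
  have hmk : m ≤ k := by
    have h1 : 1 * m ≤ 8 * A * m := Nat.mul_le_mul_right m (by omega)
    omega
  have hD : Data G k A L m y P q := by
    refine ⟨hG, htr, fun i => ?_, by omega, hL2, hL4, hcnt⟩
    have h1 : 8 * k * 1 ≤ 8 * k * A := Nat.mul_le_mul_left _ (by omega)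
    have h2 := hbigp i
    have h3 : 8 * A * k = 8 * k * A := by ring
    omega
  have hup : ∀ i, (y i).e ≤ 16 * A * k := by
    intro i
    have h1 := hle i
    have h2 : 2 * (8 * A * k) = 16 * A * k := by ring
    omega
  have hkL : 0 < k - L := by omega
  -- the packings
  obtain ⟨x₂, hx₂⟩ : ∃ x₂ : ℕ, x₂ = 4 * 10 ^ 11 * A ^ 2 * L := ⟨_, rfl⟩
  obtain ⟨R, hRdef⟩ : ∃ R : ℕ, R = k - x₂ := ⟨_, rfl⟩
  have hALpos : 1 ≤ A ^ 2 * L := Nat.mul_pos (pow_pos (by omega) 2) (by omega)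
  have hx₂k : 100 * x₂ ≤ k := by
    have h1 : 100 * x₂ ≤ 10 ^ 14 * A ^ 2 * L := by
      rw [hx₂]
      nlinarith
    omega
  have hx₂1 : 1 ≤ x₂ := by
    rw [hx₂]
    nlinarith
  have hdual : ∀ i, ∃ U C : Finset V, U ⊆ P i ∧ C.card ≤ U.card ∧
      (∀ u ∈ U, ∀ v ∈ U, u ≠ v → 2 * R < G.dist u v) ∧
      ∀ w ∈ P i, ∃ c ∈ C, G.dist c w ≤ R := fun i => duality hT R (P i)
  choose U C hU1 hU2 hU3 hU4 using hdual
  have HH : HD G k A L m y P q R U C := ⟨hD, hT, hA10, hup, hU1, hU3, hU4, hU2⟩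
  obtain ⟨σ, hσ1, hσ2, hσ3⟩ := exists_matching (Conf G P U R) (fun i j h => conf_symm h)
  -- covers by large balls
  have hgr : ∀ (x' : RT) (S' : Finset V) (r' : V), Tr G x' S' r' → x'.e < 16 * A * k →
      ∃ Z : Finset V, Z.card ≤ 18 * A ∧ ∀ v ∈ S', ∃ z ∈ Z, G.dist z v ≤ k - L - 1 := by
    intro x' S' r' H' he'
    obtain ⟨Z, hZ, hZ2⟩ := exists_greedy hG H'.built (k - L - 1)
    refine ⟨Z, hZ.trans ?_, hZ2⟩
    have h1 : k - L - 1 + 1 = k - L := by omega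
    rw [h1]
    have h2 : x'.e / (k - L) < 17 * A := by
      rw [Nat.div_lt_iff_lt_mul hkL]
      have h3 : 16 * k ≤ 17 * (k - L) := by omega
      calc x'.e < 16 * A * k := he'
        _ = A * (16 * k) := by ring
        _ ≤ A * (17 * (k - L)) := Nat.mul_le_mul_left _ h3
        _ = 17 * A * (k - L) := by ring
    omega
  have htop1 : ∀ i, ∃ Z : Finset V, Z.card ≤ 18 * A ∧
      ∀ v ∈ P i, ∃ z ∈ Z, G.dist z v ≤ k - L - 1 := by
    intro i
    refine hgr (y i) (P i) (q i) (htr i) ?_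
    have h1 := hle i
    have h2 : 2 * (8 * A * k) = 16 * A * k := by ring
    omega
  have htop : ∀ i, ∃ Z : Finset V, Z.card ≤ 36 * A ∧
      ∀ v ∈ grp σ P i, ∃ z ∈ Z, G.dist z v ≤ k - L - 1 := by
    intro i
    obtain ⟨Z₁, hZ₁, hZ₁'⟩ := htop1 i
    obtain ⟨Z₂, hZ₂, hZ₂'⟩ := htop1 (σ i)
    refine ⟨Z₁ ∪ Z₂, (card_union_le _ _).trans (by omega), fun v hv => ?_⟩
    have hv' : v ∈ P i ∨ v ∈ P (σ i) := by
      unfold grp at hv
      split_ifs at hv with h1 h2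
      · exact Or.inl hv
      · exact mem_union.1 hv
      · simp at hv
    rcases hv' with h | h
    · obtain ⟨z, hz, hzv⟩ := hZ₁' v h
      exact ⟨z, mem_union_left _ hz, hzv⟩
    · obtain ⟨z, hz, hzv⟩ := hZ₂' v h
      exact ⟨z, mem_union_right _ hz, hzv⟩
  have htop₀ : ∃ Z : Finset V, Z.card ≤ 36 * A ∧
      ∀ v ∈ S₀, ∃ z ∈ Z, G.dist z v ≤ k - L - 1 := by
    obtain ⟨Z, hZ, hZ'⟩ := hgr x₀ S₀ r H₀ (by
      have h2 : 2 * (8 * A * k) = 16 * A * k := by ring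
      omega)
    exact ⟨Z, by omega, hZ'⟩
  -- a price without cheap covers
  obtain ⟨g, hg, hm, hnc⟩ : ∃ g : ℕ → ℝ, (∀ i, 0 ≤ g i) ∧ Monotone g ∧
      ¬ Cheap G g k L (grp σ P) := by
    by_contra hcon
    push Not at hcon
    have hfin : burningNumber G ≤ (k - L) + X + 36 * A := by
      refine round_pieces hG hkL (grp σ P) S₀ (fun v => ?_) htop htop₀
        (fun g hg hm => hcon g hg hm) hY hδ8 hYδ ?_ ?_ hX
      · rcases hcov v (Finset.mem_univ v) with h | ⟨i, h⟩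
        · exact Or.inl h
        · refine Or.inr ?_
          by_cases h1 : σ i = i
          · refine ⟨i, ?_⟩
            rw [grp, if_pos h1]
            exact h
          · rcases lt_or_gt_of_ne h1 with h2 | h2
            · refine ⟨σ i, ?_⟩
              rw [grp, hσ1, if_neg (Ne.symm h1), if_pos h2]
              exact mem_union_right _ h
            · refine ⟨i, ?_⟩
              rw [grp, if_neg h1, if_pos h2]
              exact mem_union_left _ h
      · have h1 : (m : ℝ) ≤ k := by exact_mod_cast hmk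
        exact h1.trans hs
      · have h1 : ((k - L : ℕ) : ℝ) ≤ k := by exact_mod_cast Nat.sub_le k L
        linarith
    omega
  have hpos : 0 < g (k - L - 1) := by
    rcases (hg (k - L - 1)).eq_or_lt with hz | hpos
    · exfalso
      refine hnc ?_
      choose Z _ hZ using htop
      refine ⟨fun i => Z i ×ˢ {k - L - 1}, fun i p hp => ?_, fun i v hv => ?_, ?_⟩
      · rw [Finset.mem_product, Finset.mem_singleton] at hp
        omega
      · obtain ⟨z, hz, hzv⟩ := hZ i v hv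
        exact ⟨(z, k - L - 1), by simp [hz], hzv⟩
      · have h1 : ∀ i, cost g (Z i ×ˢ {k - L - 1}) = 0 := by
          intro i
          refine Finset.sum_eq_zero fun p hp => ?_
          rw [Finset.mem_product, Finset.mem_singleton] at hp
          rw [hp.2, ← hz]
        rw [Finset.sum_congr rfl fun i _ => h1 i, Finset.sum_const_zero]
        exact Finset.sum_nonneg fun i _ => hg i
    · exact hpos
  have hncP : ¬ Cheap G g k L P := fun h => hnc (cheap_grp hg hσ1 h)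
  obtain ⟨b, ρ, hpr⟩ := exists_price hg hm hL2 hL17 hpos
  have hlogk : 0 ≤ Real.log k := Real.log_nonneg (by exact_mod_cast hkpos)
  have hL6 : 10 ^ 6 * L ≤ k := by
    have h1 : 10 ^ 6 * L ≤ 10 ^ 14 * A ^ 2 * L := by
      have h2 : 1 ≤ A ^ 2 := Nat.pos_of_ne_zero (pow_ne_zero 2 (by omega))
      nlinarith [Nat.mul_le_mul h2 (le_refl L)]
    omega
  have hF : FP g k L b (ρ * (2 * b + 1)) := by
    refine hsoft hD hpr hΛ hlog hAL ((le_max_left _ _).trans hk1)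
      ((le_max_left _ _).trans hA2) hL6 hx₀.le hNA (Nat.lt_floor_add_one _).le
      (Nat.floor_le (by positivity)) hN2 hncP
  have hbl := b_large hD hT hA10 hup hF hbig hncP
  have hbk := hF.bk
  have hR1 : R + 2 * 10 ^ 8 * A * L ≤ b := by
    have h1 : 3 * 10 ^ 11 * A ^ 2 * L + 2 * 10 ^ 8 * A * L ≤ x₂ := by
      rw [hx₂]
      have h2 : A * L ≤ A ^ 2 * L := Nat.mul_le_mul_right _ (Nat.le_self_pow (by norm_num) A)
      nlinarith
    omega
  have hR9 : 97 * k ≤ 100 * R := by omega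
  obtain ⟨hm1, hm2, hm3⟩ := match_small HH hF hR1 hR9 hσ1 hσ2 hnc
  have hkR : k - R = x₂ := by omega
  rw [hkR] at hm1 hm2 hm3
  have hA4 : 10 ^ 4 * A ≤ k := by
    have h1 : 10 ^ 4 * A ≤ 10 ^ 14 * A ^ 2 * L := by
      have h2 : A ≤ A ^ 2 * L := by
        calc A ≤ A ^ 2 := Nat.le_self_pow (by norm_num) A
          _ ≤ A ^ 2 * L := Nat.le_mul_of_pos_right _ (by omega)
      nlinarith
    omega
  obtain ⟨W, w, hW1, hW2, hW3, hW4⟩ := disj HH (by omega) hR9 hA4 hσ1 hσ3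
    (Λ := x₂ + 10 ^ 5 * L) (by omega) hm1 hm2 hm3
  have hcount := count hT H (k := k) (R := R) (by omega) hcard hW1 hW2 hW3 hW4
  rw [hkR] at hcount
  have hfin := final_num hkpos hA10 hL2 hx₂ rfl hcount
  have h1 : ((∑ t ∈ Icc 1 k, (k - x.N t) : ℕ) : ℝ) ≤ (10 : ℝ) ^ 16 * A ^ 3 * L * k := by
    exact_mod_cast hfin
  calc ((∑ t ∈ Icc 1 k, (k - x.N t) : ℕ) : ℝ) ≤ (10 : ℝ) ^ 16 * A ^ 3 * L * k := h1
    _ ≤ Real.log k ^ 15 * k := mul_le_mul_of_nonneg_right hfinal hkr.le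
    _ = k * Real.log k ^ 15 := by ring

end Pool.Agent.Helper67.HS
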