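import Pool.Agent.Helper67.HS.Gate

/-! # Project HS, module HS-B3: covers of stars -/

set_option autoImplicit false

namespace Pool.Agent.Helper67.HS

open Finset Pool.Agent.Helper64.FB

variable {V : Type*} [DecidableEq V] {G : SimpleGraph V}

lemma CoverStar.exists_pt (hT : G.IsTree) {P U : Finset V} {R s : ℕ} {m : V}
    (H : Star G P U R s m) {t : ℕ} (ht : t ≤ R) {u : V} (hu : u ∈ U) :
    ∃ c, G.dist u c = t ∧ G.dist u c + G.dist c m = G.dist u m :=
  exists_between hT.connected u m (ht.trans (H.lo u hu))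

/-- One ball for each arm. -/
theorem Star.cover_all (hT : G.IsTree) {P U : Finset V} {R s : ℕ} {m : V}
    (H : Star G P U R s m) {R' : ℕ} (h1 : R' ≤ R) (h2 : R + U.card + 4 * s ≤ 2 * R') :
    ∃ C : Finset V, C.card ≤ U.card ∧ ∀ x ∈ P, ∃ c ∈ C, G.dist c x ≤ R' := by
  have hex : ∀ u : V, ∃ c, u ∈ U →
      (G.dist u c = R' - s ∧ G.dist u c + G.dist c m = G.dist u m) := by
    intro u
    by_cases hu : u ∈ U
    · obtain ⟨c, hc⟩ := CoverStar.exists_pt hT H (t := R' - s) (by omega) hu
      exact ⟨c, fun _ => hc⟩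
    · exact ⟨u, fun h => absurd h hu⟩
  choose c hc using hex
  refine ⟨U.image c, Finset.card_image_le, fun x hx => ?_⟩
  obtain ⟨u, hu, z, hz, h3, h4⟩ := H.near x hx
  obtain ⟨h5, h6⟩ := hc u hu
  refine ⟨c u, Finset.mem_image_of_mem c hu, ?_⟩
  have h7 := between_dist hT h6 h3
  have h8 := H.hi u hu
  have h9 := hT.connected.dist_triangle (u := c u) (v := z) (w := x)
  omega

/-- One ball. -/
theorem Star.cover_one (hT : G.IsTree) {P U : Finset V} {R s : ℕ} {m : V}
    (H : Star G P U R s m) : ∀ x ∈ P, G.dist m x ≤ R + U.card + 3 * s := by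
  intro x hx
  obtain ⟨u, hu, z, hz, h3, h4⟩ := H.near x hx
  have h8 := H.hi u hu
  have h9 := hT.connected.dist_triangle (u := m) (v := z) (w := x)
  have h10 : G.dist m z = G.dist z m := SimpleGraph.dist_comm
  omega

/-- Drop the ball of one arm: only a neighbourhood of its tip remains. -/
theorem Star.cover_but (hT : G.IsTree) {P U : Finset V} {R s : ℕ} {m : V}
    (H : Star G P U R s m) {R' : ℕ} (h1 : R' ≤ R) (h2 : R + U.card + 4 * s ≤ 2 * R')
    (hU : 2 ≤ U.card) {u : V} (hu : u ∈ U) :
    ∃ (C : Finset V) (c₀ : V), C.card ≤ U.card - 2 ∧ ∀ x ∈ P, (∃ c ∈ C, G.dist c x ≤ R') ∨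
      G.dist c₀ x ≤ R ∨ G.dist u x ≤ 2 * U.card + 7 * s := by
  have hex : ∀ u : V, ∃ c, u ∈ U →
      (G.dist u c = R' - s ∧ G.dist u c + G.dist c m = G.dist u m) := by
    intro u
    by_cases hu : u ∈ U
    · obtain ⟨c, hc⟩ := CoverStar.exists_pt hT H (t := R' - s) (by omega) hu
      exact ⟨c, fun _ => hc⟩
    · exact ⟨u, fun h => absurd h hu⟩
  choose c hc using hex
  obtain ⟨w₀, hw₀, hne⟩ := Finset.exists_mem_ne (by omega : 1 < U.card) u
  obtain ⟨c₀, h3, h4⟩ := CoverStar.exists_pt hT H (t := R - s) (by omega) hw₀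
  refine ⟨((U.erase u).erase w₀).image c, c₀, ?_, fun x hx => ?_⟩
  · refine Finset.card_image_le.trans ?_
    rw [Finset.card_erase_of_mem (Finset.mem_erase.2 ⟨hne, hw₀⟩), Finset.card_erase_of_mem hu]
    omega
  obtain ⟨w, hw, z, hz, h5, h6⟩ := H.near x hx
  have h7 := H.hi w hw
  by_cases hwu : w = u
  · -- near the arm of `u`
    subst hwu
    right
    have h8 := H.hi w₀ hw₀
    have h9 : G.dist c₀ m + (R - s) = G.dist w₀ m := by omega
    have h10 := hT.connected.dist_triangle (u := c₀) (v := m) (w := x)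
    have h11 := hT.connected.dist_triangle (u := m) (v := z) (w := x)
    have h12 := hT.connected.dist_triangle (u := w) (v := z) (w := x)
    have h13 : G.dist m z = G.dist z m := SimpleGraph.dist_comm
    by_cases h14 : G.dist z m ≤ R - U.card - 4 * s
    · left
      omega
    · right
      omega
  · by_cases hww : w = w₀
    · subst hww
      right
      left
      have h8 := between_dist hT h4 h5
      have h9 := hT.connected.dist_triangle (u := c₀) (v := z) (w := x)
      omega
    · left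
      obtain ⟨h8, h9⟩ := hc w hw
      refine ⟨c w, Finset.mem_image_of_mem c
        (Finset.mem_erase.2 ⟨hww, Finset.mem_erase.2 ⟨hwu, hw⟩⟩), ?_⟩
      have h10 := between_dist hT h9 h5
      have h11 := hT.connected.dist_triangle (u := c w) (v := z) (w := x)
      omega

end Pool.Agent.Helper67.HS
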