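import Pool.Agent.Helper67.HS.Gate

/-! # Project HS, module HS-B2: a piece which is almost filled by its packing is a star -/

set_option autoImplicit false

namespace Pool.Agent.Helper67.HS

open Finset Pool.Agent.Helper64.FB

variable {V : Type*} [DecidableEq V] {G : SimpleGraph V}

/-- The points of the geodesic from `a` to `b` at distance between `i` and `j` from `a`. -/
private noncomputable def sg (G : SimpleGraph V) (P : Finset V) (a b : V) (i j : ℕ) : Finset V :=
  P.filter fun z => G.dist a z + G.dist z b = G.dist a b ∧ i ≤ G.dist a z ∧ G.dist a z ≤ j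

omit [DecidableEq V] in
private theorem mem_sg {P : Finset V} {a b z : V} {i j : ℕ} : z ∈ sg G P a b i j ↔
    z ∈ P ∧ G.dist a z + G.dist z b = G.dist a b ∧ i ≤ G.dist a z ∧ G.dist a z ≤ j := by
  simp [sg]

omit [DecidableEq V] in
private theorem sg_lower (hT : G.Connected) {P : Finset V} (hP : Conv G P) {a b : V} (ha : a ∈ P)
    (hb : b ∈ P) (i : ℕ) {j : ℕ} (hj : j ≤ G.dist a b) : j + 1 - i ≤ (sg G P a b i j).card := by
  have hex : ∀ t : ℕ, ∃ z, t ≤ j → G.dist a z = t ∧ G.dist a z + G.dist z b = G.dist a b := by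
    intro t
    by_cases ht : t ≤ j
    · obtain ⟨z, hz⟩ := exists_between hT a b (ht.trans hj)
      exact ⟨z, fun _ => hz⟩
    · exact ⟨a, fun h => absurd h ht⟩
  choose f hf using hex
  have hf1 : ∀ t, t ≤ j → G.dist a (f t) = t := fun t ht => (hf t ht).1
  have hf2 : ∀ t, t ≤ j → G.dist a (f t) + G.dist (f t) b = G.dist a b := fun t ht => (hf t ht).2
  rw [← Nat.card_Icc]
  refine Finset.card_le_card_of_injOn f ?_ ?_
  · intro t ht
    have ht' := Finset.mem_Icc.1 (Finset.mem_coe.1 ht)
    refine Finset.mem_coe.2 (mem_sg.2 ⟨hP a ha b hb _ (hf2 t ht'.2), hf2 t ht'.2, ?_, ?_⟩)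
    · rw [hf1 t ht'.2]; exact ht'.1
    · rw [hf1 t ht'.2]; exact ht'.2
  · intro t ht t' ht' h
    have h1 := Finset.mem_Icc.1 (Finset.mem_coe.1 ht)
    have h2 := Finset.mem_Icc.1 (Finset.mem_coe.1 ht')
    have h3 : G.dist a (f t) = G.dist a (f t') := by rw [h]
    rw [hf1 t h1.2, hf1 t' h2.2] at h3
    exact h3

omit [DecidableEq V] in
private theorem sg_upper (hT : G.IsTree) {P : Finset V} {a b : V} {i j : ℕ} :
    (sg G P a b i j).card ≤ j + 1 - i := by
  rw [← Nat.card_Icc]
  refine Finset.card_le_card_of_injOn (fun z => G.dist a z) ?_ ?_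
  · intro z hz
    have h := mem_sg.1 (Finset.mem_coe.1 hz)
    exact Finset.mem_coe.2 (Finset.mem_Icc.2 ⟨h.2.2.1, h.2.2.2⟩)
  · intro z hz z' hz' h
    have h1 := mem_sg.1 (Finset.mem_coe.1 hz)
    have h2 := mem_sg.1 (Finset.mem_coe.1 hz')
    exact between_unique hT h1.2.1 h2.2.1 h

/-- The vertices outside the balls. -/
private theorem exists_rest (hT : G.IsTree) {P U : Finset V} (hP : Conv G P) (hU : U ⊆ P)
    {R s : ℕ} (hsep : ∀ u ∈ U, ∀ v ∈ U, u ≠ v → 2 * R < G.dist u v) {m : V} (hm : m ∈ P)
    (hlo : ∀ u ∈ U, R ≤ G.dist u m) (hc : P.card ≤ U.card * (R + 1) + s) :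
    (P \ U.biUnion fun u => sg G P u m 0 R).card ≤ s := by
  have hdis : (U : Set V).PairwiseDisjoint fun u => sg G P u m 0 R := by
    intro u hu v hv huv
    refine Finset.disjoint_left.2 fun z hz hz' => ?_
    have h1 := (mem_sg.1 hz).2.2.2
    have h2 := (mem_sg.1 hz').2.2.2
    have h3 := hsep u hu v hv huv
    have h4 : G.dist u v ≤ G.dist u z + G.dist z v := hT.connected.dist_triangle
    have h5 : G.dist z v = G.dist v z := SimpleGraph.dist_comm
    omega
  have hsub : (U.biUnion fun u => sg G P u m 0 R) ⊆ P := by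
    intro z hz
    obtain ⟨u, -, hu⟩ := Finset.mem_biUnion.1 hz
    exact (mem_sg.1 hu).1
  have h1 : U.card * (R + 1) ≤ (U.biUnion fun u => sg G P u m 0 R).card := by
    rw [Finset.card_biUnion hdis, ← smul_eq_mul, ← Finset.sum_const]
    refine Finset.sum_le_sum fun u hu => ?_
    have := sg_lower hT.connected hP (hU hu) hm 0 (hlo u hu)
    omega
  rw [Finset.card_sdiff_of_subset hsub]
  omega

theorem exists_star (hT : G.IsTree) {P U : Finset V} (hP : Conv G P) (hU : U ⊆ P) {R s : ℕ}
    (hsep : ∀ u ∈ U, ∀ v ∈ U, u ≠ v → 2 * R < G.dist u v) (h2 : 2 ≤ U.card)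
    (hc : P.card ≤ U.card * (R + 1) + s) : ∃ m, Star G P U R s m := by
  obtain ⟨u₀, hu₀, u₁, hu₁, h01⟩ := Finset.one_lt_card.1 (show 1 < U.card by omega)
  have hd01 := hsep u₀ hu₀ u₁ hu₁ h01
  obtain ⟨m, hm1, hm2⟩ := exists_between hT.connected u₀ u₁ (t := R) (by omega)
  have hm : m ∈ P := hP u₀ (hU hu₀) u₁ (hU hu₁) m hm2
  have hlo : ∀ u ∈ U, R ≤ G.dist u m := by
    intro u hu
    rcases eq_or_ne u u₀ with h | h
    · rw [h]; omega
    · have h3 := hsep u hu u₀ hu₀ h
      have h4 : G.dist u u₀ ≤ G.dist u m + G.dist m u₀ := hT.connected.dist_triangle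
      have h5 : G.dist m u₀ = G.dist u₀ m := SimpleGraph.dist_comm
      omega
  have hE := exists_rest hT hP hU hsep hm hlo hc
  set E : Finset V := P \ U.biUnion fun u => sg G P u m 0 R with hEdef
  have hnotE : ∀ z ∈ P, z ∉ E → ∃ u ∈ U, z ∈ sg G P u m 0 R := by
    intro z hz hzE
    by_contra hcon
    refine hzE (Finset.mem_sdiff.2 ⟨hz, fun h => hcon ?_⟩)
    obtain ⟨u, hu, hu'⟩ := Finset.mem_biUnion.1 h
    exact ⟨u, hu, hu'⟩
  refine ⟨m, hm, hlo, ?_, ?_⟩
  · -- the length of the arms
    intro u hu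
    -- the far part of the arm
    have hZ := sg_lower hT.connected hP (hU hu) hm (R + 1) (le_refl (G.dist u m))
    set Z := sg G P u m (R + 1) (G.dist u m) with hZdef
    have hkey : ∀ w ∈ U.erase u, (Z ∩ sg G P w m 0 R).card ≤
        1 + (E.filter fun z => G.dist w z ≤ R).card := by
      intro w hw
      have hwu : w ≠ u := Finset.ne_of_mem_erase hw
      have hwU : w ∈ U := Finset.mem_of_mem_erase hw
      obtain ⟨z₀, hz₀, hgate⟩ := exists_gate hT u m w
      rcases Finset.eq_empty_or_nonempty (Z ∩ sg G P w m 0 R) with he | ⟨z₁, hz₁⟩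
      · rw [he, Finset.card_empty]; exact Nat.zero_le _
      obtain ⟨hz1Z, hz1w⟩ := Finset.mem_inter.1 hz₁
      rw [hZdef, mem_sg] at hz1Z
      rw [mem_sg] at hz1w
      have hg1 := hgate z₁ hz1Z.2.1
      have hdw : G.dist w z₀ ≤ R := by omega
      have hz₀P : z₀ ∈ P := hP u (hU hu) m hm z₀ hz₀
      have hgu := hgate u (by rw [SimpleGraph.dist_self]; omega)
      have hgm := hgate m (by rw [SimpleGraph.dist_self]; omega)
      have hsepw := hsep w hwU u hu hwu
      have hcu : G.dist z₀ u = G.dist u z₀ := SimpleGraph.dist_comm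
      -- upper bound
      have hA : (Z ∩ sg G P w m 0 R) ⊆ sg G P z₀ m 0 (R - G.dist w z₀) := by
        intro z hz
        obtain ⟨hzZ, hzw⟩ := Finset.mem_inter.1 hz
        rw [hZdef, mem_sg] at hzZ
        rw [mem_sg] at hzw
        have hg := hgate z hzZ.2.1
        rw [mem_sg]
        refine ⟨hzZ.1, ?_, Nat.zero_le _, ?_⟩ <;> omega
      have hA' := (Finset.card_le_card hA).trans (sg_upper hT)
      -- lower bound
      have hB := sg_lower hT.connected hP hz₀P (hU hu) 1 (j := R - G.dist w z₀) (by omega)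
      have hB' : sg G P z₀ u 1 (R - G.dist w z₀) ⊆ E.filter fun z => G.dist w z ≤ R := by
        intro z hz
        rw [mem_sg] at hz
        obtain ⟨hzP, hz1, hz2, hz3⟩ := hz
        have c1 : G.dist z u = G.dist u z := SimpleGraph.dist_comm
        have c2 : G.dist z₀ z = G.dist z z₀ := SimpleGraph.dist_comm
        have t1 : G.dist u m ≤ G.dist u z + G.dist z m := hT.connected.dist_triangle
        have t2 : G.dist z m ≤ G.dist z z₀ + G.dist z₀ m := hT.connected.dist_triangle
        have hzum : G.dist u z + G.dist z m = G.dist u m := by omega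
        have hg := hgate z hzum
        have hwz : G.dist w z ≤ R := by omega
        refine Finset.mem_filter.2 ⟨?_, hwz⟩
        by_contra hzE
        obtain ⟨v, hv, hvz⟩ := hnotE z hzP hzE
        rw [mem_sg] at hvz
        rcases eq_or_ne v w with h | h
        · subst h
          omega
        · have h3 := hsep v hv w hwU h
          have h4 : G.dist v w ≤ G.dist v z + G.dist z w := hT.connected.dist_triangle
          have h5 : G.dist z w = G.dist w z := SimpleGraph.dist_comm
          omega
      have hB'' := hB.trans (Finset.card_le_card hB')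
      omega
    have hcov : Z ⊆ E ∪ (U.erase u).biUnion fun w => Z ∩ sg G P w m 0 R := by
      intro z hz
      rw [Finset.mem_union]
      by_cases hzE : z ∈ E
      · exact Or.inl hzE
      · right
        have hz' := hz
        rw [hZdef, mem_sg] at hz'
        obtain ⟨w, hw, hwz⟩ := hnotE z hz'.1 hzE
        refine Finset.mem_biUnion.2 ⟨w, Finset.mem_erase.2 ⟨?_, hw⟩, Finset.mem_inter.2 ⟨hz, hwz⟩⟩
        rintro rfl
        rw [mem_sg] at hwz
        omega
    have hdis : ((U.erase u : Finset V) : Set V).PairwiseDisjoint fun w =>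
        E.filter fun z => G.dist w z ≤ R := by
      intro v hv w hw hvw
      refine Finset.disjoint_left.2 fun z hz hz' => ?_
      have h1 := (Finset.mem_filter.1 hz).2
      have h2 := (Finset.mem_filter.1 hz').2
      have h3 := hsep v (Finset.mem_of_mem_erase hv) w (Finset.mem_of_mem_erase hw) hvw
      have h4 : G.dist v w ≤ G.dist v z + G.dist z w := hT.connected.dist_triangle
      have h5 : G.dist z w = G.dist w z := SimpleGraph.dist_comm
      omega
    have hsum : ∑ w ∈ U.erase u, (E.filter fun z => G.dist w z ≤ R).card ≤ E.card := by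
      rw [← Finset.card_biUnion hdis]
      refine Finset.card_le_card fun z hz => ?_
      obtain ⟨w, -, hw⟩ := Finset.mem_biUnion.1 hz
      exact (Finset.mem_filter.1 hw).1
    have hfin : Z.card ≤ E.card + ((U.erase u).card + E.card) := by
      calc Z.card ≤ (E ∪ (U.erase u).biUnion fun w => Z ∩ sg G P w m 0 R).card :=
            Finset.card_le_card hcov
        _ ≤ E.card + ((U.erase u).biUnion fun w => Z ∩ sg G P w m 0 R).card :=
            Finset.card_union_le _ _
        _ ≤ E.card + ∑ w ∈ U.erase u, (Z ∩ sg G P w m 0 R).card :=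
            Nat.add_le_add_left Finset.card_biUnion_le _
        _ ≤ E.card + ∑ w ∈ U.erase u, (1 + (E.filter fun z => G.dist w z ≤ R).card) :=
            Nat.add_le_add_left (Finset.sum_le_sum hkey) _
        _ ≤ E.card + ((U.erase u).card + E.card) := by
            rw [Finset.sum_add_distrib, Finset.sum_const, smul_eq_mul, mul_one]
            omega
    rw [Finset.card_erase_of_mem hu] at hfin
    omega
  · -- all points are near to the arms
    intro x hx
    have hex : ∃ d : ℕ, ∃ z ∈ P, G.dist x z + G.dist z m = G.dist x m ∧ G.dist x z = d ∧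
        ∃ u ∈ U, G.dist u z + G.dist z m = G.dist u m :=
      ⟨G.dist x m, m, hm, by rw [SimpleGraph.dist_self]; omega, rfl, u₀, hu₀,
        by rw [SimpleGraph.dist_self]; omega⟩
    classical
    obtain ⟨z, hzP, hz1, hz2, u, hu, hz3⟩ := Nat.find_spec hex
    refine ⟨u, hu, z, hzP, hz3, ?_⟩
    have hmin : ∀ y ∈ P, G.dist x y + G.dist y m = G.dist x m → G.dist x y < G.dist x z →
        y ∈ E := by
      intro y hy hy1 hy2
      by_contra hyE
      obtain ⟨v, hv, hvy⟩ := hnotE y hy hyE
      rw [mem_sg] at hvy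
      exact Nat.find_min hex (m := G.dist x y) (by rw [← hz2]; exact hy2)
        ⟨y, hy, hy1, rfl, v, hv, hvy.2.1⟩
    have hcz : G.dist z x = G.dist x z := SimpleGraph.dist_comm
    rcases Nat.eq_zero_or_pos (G.dist x z) with h0 | h0
    · omega
    have h3 := sg_lower hT.connected hP hx hm 0 (j := G.dist x z - 1) (by omega)
    have h4 : sg G P x m 0 (G.dist x z - 1) ⊆ E := by
      intro y hy
      rw [mem_sg] at hy
      exact hmin y hy.1 hy.2.1 (by omega)
    have h5 := h3.trans (Finset.card_le_card h4)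
    omega

end Pool.Agent.Helper67.HS
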