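import Pool.Agent.Helper67.HS.Numbers
import Pool.Agent.Helper67.HS.StarLem
import Pool.Agent.Helper67.HS.CoverStar

/-! # Project HS, module HS-C1a: the basic cover of the pieces -/

set_option autoImplicit false

namespace Pool.Agent.Helper67.HS

open Finset Pool.Agent.Helper51.BN Pool.Agent.Helper51.ST

variable {V : Type*} [DecidableEq V] {G : SimpleGraph V} {k A L m : ℕ} {y : Fin m → RT}
  {P : Fin m → Finset V} {q : Fin m → V} {R : ℕ} {U C : Fin m → Finset V} {g : ℕ → ℝ} {b : ℕ}
  {K : ℝ}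

/-- Balls of one radius. -/
private theorem cost_image_le (hg : ∀ i, 0 ≤ g i) (T : Finset V) (ρ n : ℕ) (hT : T.card ≤ n) :
    cost g (T.image fun c => (c, ρ)) ≤ n * g ρ := by
  have h1 : cost g (T.image fun c => (c, ρ)) = T.card * g ρ := by
    unfold cost
    rw [sum_image]
    · simp
    · intro x _ z _ h
      exact (Prod.mk.inj h).1
  rw [h1]
  exact mul_le_mul_of_nonneg_right (by exact_mod_cast hT) (hg _)

theorem base_cover (H : HD G k A L m y P q R U C) (hF : FP g k L b K)
    (hR : R + 2 * 10 ^ 8 * A * L ≤ b) (hR9 : 97 * k ≤ 100 * R) :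
    ∃ D : Fin m → Finset (V × ℕ), (∀ i, ∀ p ∈ D i, p.2 < k - L) ∧
      (∀ i, ∀ v ∈ P i, ∃ p ∈ D i, G.dist p.1 v ≤ p.2) ∧
      ∑ i, cost g (D i) ≤ K / 2 * ((∑ i, (U i).card : ℕ) + 4 * 10 ^ 4 * L +
        (∑ i, exc P U R i : ℕ) / (10 * R)) := by
  classical
  have hA := H.A10
  have hL := H.data.L2
  have hbk := hF.bk
  have hAL : 2 * A ≤ A * L := by
    rw [mul_comm 2 A]
    exact Nat.mul_le_mul_left A hL
  have hAL' : 2 * 10 ^ 8 * A * L = 2 * 10 ^ 8 * (A * L) := by ring
  rw [hAL'] at hR
  have hALL : 10 * L ≤ A * L := Nat.mul_le_mul_right L hA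
  have hRk : R ≤ k := by omega
  have hRk1 : R + 1 ≤ k := by omega
  have hRb : R < b := by omega
  have hKpos := hF.Kpos
  have hRpos : (0 : ℝ) < R := by
    have : 0 < R := by omega
    exact_mod_cast this
  have hbpos : (0 : ℝ) < b := by
    have : 0 < b := by omega
    exact_mod_cast this
  have hApos : (0 : ℝ) < A := by
    have : 0 < A := by omega
    exact_mod_cast this
  have hLpos : (0 : ℝ) < L := by
    have : 0 < L := by omega
    exact_mod_cast this
  -- prices
  have hg1 : g (3 * R / 5) ≤ K / 2 * (1 + 25000 * L / b) := by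
    have h1 := hF.flat (3 * R / 5) (by omega)
    have h2 : ((3 * R / 5 : ℕ) : ℝ) ≤ 3 / 5 * b := by
      have : 5 * (3 * R / 5) ≤ 3 * b := by omega
      have h3 : ((5 * (3 * R / 5) : ℕ) : ℝ) ≤ ((3 * b : ℕ) : ℝ) := by exact_mod_cast this
      push_cast at h3 ⊢
      linarith
    set d : ℝ := (b : ℝ) - ((3 * R / 5 : ℕ) : ℝ) with hd
    have hd1 : 2 / 5 * (b : ℝ) ≤ d := by linarith
    have hd0 : 0 < d := by linarith [mul_pos (by norm_num : (0 : ℝ) < 2 / 5) hbpos]
    have h3 : (10 : ℝ) ^ 4 * L ≤ d * (25000 * L / b) := by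
      rw [mul_div_assoc', le_div_iff₀ hbpos]
      have : (2 / 5 * (b : ℝ)) * (25000 * L) ≤ d * (25000 * L) :=
        mul_le_mul_of_nonneg_right hd1 (by positivity)
      linarith
    have h4 : 2 * g (3 * R / 5) * d ≤ K * (1 + 25000 * L / b) * d := by
      have : K * (d + 10 ^ 4 * L) ≤ K * (d + d * (25000 * L / b)) :=
        mul_le_mul_of_nonneg_left (by linarith) hKpos.le
      linarith
    have h5 := le_of_mul_le_mul_right h4 hd0
    linarith
  have hg2 : g R ≤ K / 2 * (1 + 1 / (20000 * A)) := by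
    have h1 := hF.flat R hRb
    have h2 : (2 * 10 ^ 8 * ((A : ℝ) * L)) ≤ (b : ℝ) - R := by
      have h3 : ((R + 2 * 10 ^ 8 * (A * L) : ℕ) : ℝ) ≤ (b : ℝ) := by exact_mod_cast hR
      push_cast at h3
      linarith
    set d : ℝ := (b : ℝ) - R with hd
    have hd0 : 0 < d := lt_of_lt_of_le (by positivity) h2
    have h3 : (10 : ℝ) ^ 4 * L ≤ d * (1 / (20000 * A)) := by
      rw [mul_one_div, le_div_iff₀ (by positivity)]
      nlinarith
    have h4 : 2 * g R * d ≤ K * (1 + 1 / (20000 * A)) * d := by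
      have : K * (d + 10 ^ 4 * L) ≤ K * (d + d * (1 / (20000 * A))) :=
        mul_le_mul_of_nonneg_left (by linarith) hKpos.le
      linarith
    have h5 := le_of_mul_le_mul_right h4 hd0
    linarith
  -- each piece
  have key : ∀ i, ∃ D : Finset (V × ℕ), (∀ p ∈ D, p.2 < k - L) ∧
      (∀ v ∈ P i, ∃ p ∈ D, G.dist p.1 v ≤ p.2) ∧
      cost g D ≤ K / 2 * ((U i).card + 25000 * L * (U i).card / b +
        (exc P U R i : ℝ) / (10 * R)) := by
    intro i
    have hcard := H.card_le hRk hR9 i
    have hcardR : ((U i).card : ℝ) ≤ 17 * A := by exact_mod_cast hcard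
    by_cases hgood : 100 * exc P U R i ≤ R
    · obtain ⟨c0, hstar⟩ := exists_star (R := R) (s := exc P U R i) H.tree (H.conv i) (H.sub i)
        (H.sep i) (H.two_le hRk1 i (by omega)) (H.exc_eq hRk i).ge
      obtain ⟨T, hT1, hT2⟩ := hstar.cover_all H.tree (R' := 3 * R / 5) (by omega) (by omega)
      refine ⟨T.image fun c => (c, 3 * R / 5), ?_, ?_, ?_⟩
      · intro p hp
        obtain ⟨c, _, rfl⟩ := mem_image.1 hp
        simp only
        omega
      · intro v hv
        obtain ⟨c, hc, hc'⟩ := hT2 v hv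
        exact ⟨(c, 3 * R / 5), mem_image_of_mem _ hc, hc'⟩
      · refine (cost_image_le hF.nonneg T _ _ hT1).trans ?_
        have h1 : ((U i).card : ℝ) * g (3 * R / 5) ≤
            (U i).card * (K / 2 * (1 + 25000 * L / b)) :=
          mul_le_mul_of_nonneg_left hg1 (Nat.cast_nonneg _)
        have h2 : ((U i).card : ℝ) * (K / 2 * (1 + 25000 * L / b)) =
            K / 2 * ((U i).card + 25000 * L * (U i).card / b) := by ring
        have h3 : 0 ≤ K / 2 * ((exc P U R i : ℝ) / (10 * R)) := by positivity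
        rw [h2] at h1
        linarith
    · push Not at hgood
      refine ⟨(C i).image fun c => (c, R), ?_, ?_, ?_⟩
      · intro p hp
        obtain ⟨c, _, rfl⟩ := mem_image.1 hp
        simp only
        omega
      · intro v hv
        obtain ⟨c, hc, hc'⟩ := H.cov i v hv
        exact ⟨(c, R), mem_image_of_mem _ hc, hc'⟩
      · refine (cost_image_le hF.nonneg (C i) _ _ (H.card i)).trans ?_
        have h1 : ((U i).card : ℝ) * g R ≤ (U i).card * (K / 2 * (1 + 1 / (20000 * A))) :=
          mul_le_mul_of_nonneg_left hg2 (Nat.cast_nonneg _)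
        have h2 : ((U i).card : ℝ) * (K / 2 * (1 + 1 / (20000 * A))) =
            K / 2 * ((U i).card + (U i).card / (20000 * A)) := by ring
        have h3 : ((U i).card : ℝ) / (20000 * A) ≤ 17 / 20000 := by
          rw [div_le_div_iff₀ (by positivity) (by norm_num)]
          linarith
        have h4 : (17 : ℝ) / 20000 ≤ (exc P U R i : ℝ) / (10 * R) := by
          rw [div_le_div_iff₀ (by norm_num) (by positivity)]
          have h5 : (R : ℝ) ≤ 100 * (exc P U R i : ℝ) := by exact_mod_cast hgood.le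
          linarith
        have h6 : 0 ≤ 25000 * (L : ℝ) * (U i).card / b := by positivity
        rw [h2] at h1
        refine h1.trans (mul_le_mul_of_nonneg_left (by linarith) (by linarith))
  choose D hD1 hD2 hD3 using key
  refine ⟨D, hD1, hD2, ?_⟩
  refine (sum_le_sum fun i _ => hD3 i).trans ?_
  rw [← mul_sum, sum_add_distrib, sum_add_distrib, ← sum_div, ← sum_div, ← mul_sum]
  refine mul_le_mul_of_nonneg_left ?_ (by linarith)
  have hn : 25000 * (L : ℝ) * (∑ i, ((U i).card : ℝ)) / b ≤ 4 * 10 ^ 4 * L := by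
    rw [div_le_iff₀ hbpos]
    have h1 := H.sum_le hRk
    have h2 := H.m_le
    have h3 : (∑ i, (U i).card) * (R + 1) ≤ k ^ 2 + m := le_trans (Nat.le_add_right _ _) h1
    have hb9 := hF.b9
    have h4 : (∑ i, (U i).card) * 97 ≤ 150 * b := by
      have h5 : (∑ i, (U i).card) * (97 * k) ≤ 101 * k * k := by
        have h6 : (∑ i, (U i).card) * (97 * k) ≤ (∑ i, (U i).card) * (100 * (R + 1)) :=
          Nat.mul_le_mul_left _ (by omega)
        have h7 : (∑ i, (U i).card) * (100 * (R + 1)) = 100 * ((∑ i, (U i).card) * (R + 1)) := by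
          ring
        have h8 : k ≤ k * k := Nat.le_mul_self k
        nlinarith
      have hk0 : 0 < k := by omega
      have h9 : (∑ i, (U i).card) * 97 * k ≤ 101 * k * k := by
        rw [mul_assoc]; exact h5
      have h10 := Nat.le_of_mul_le_mul_right h9 hk0
      omega
    have h11 : (∑ i, ((U i).card : ℝ)) * 97 ≤ 150 * b := by exact_mod_cast h4
    nlinarith
  push_cast
  linarith

end Pool.Agent.Helper67.HS
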