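import Pool.Agent.Helper67.HS.ConvTr

/-! # Project HS, module HS-C4a: heights of vertices in a rooted tree -/

set_option autoImplicit false

namespace Pool.Agent.Helper67.HS

open Finset Pool.Agent.Helper51.ST Pool.Agent.Helper64.FB

variable {V : Type*} [DecidableEq V] {G : SimpleGraph V}

/-- The height of the subtree of `S` at `v`, for the root `r`. -/
noncomputable def ht (G : SimpleGraph V) (S : Finset V) (r v : V) : ℕ :=
  (S.filter fun w => G.dist r v + G.dist v w = G.dist r w).sup fun w => G.dist v w

/-- Distances from a new root. -/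
private theorem dist_ext (hT : G.IsTree) {x : RT} {S : Finset V} {c r : V} (H : Tr G x S c)
    (ha : G.Adj r c) (hr : r ∉ S) {v : V} (hv : v ∈ S) : G.dist r v = G.dist c v + 1 := by
  rcases hT.dist_eq_dist_add_one_of_adj v ha with h | h
  · rw [SimpleGraph.dist_comm (u := r), SimpleGraph.dist_comm (u := c)]
    exact h
  · exfalso
    apply hr
    refine conv_tr hT H c H.mem v hv r ?_
    have h1 : G.dist c r = 1 := SimpleGraph.dist_eq_one_iff_adj.2 ha.symm
    rw [SimpleGraph.dist_comm (u := r), SimpleGraph.dist_comm (u := c) (v := v)]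
    omega

private theorem ht_ext (hT : G.IsTree) {x : RT} {S : Finset V} {c r : V} (H : Tr G x S c)
    (ha : G.Adj r c) (hr : r ∉ S) {v : V} (hv : v ∈ S) :
    ht G (insert r S) r v = ht G S c v := by
  have hvr : v ≠ r := fun h => hr (h ▸ hv)
  have h1 : (insert r S).filter (fun w => G.dist r v + G.dist v w = G.dist r w) =
      S.filter (fun w => G.dist c v + G.dist v w = G.dist c w) := by
    ext w
    simp only [mem_filter, mem_insert]
    constructor
    · rintro ⟨h2 | h2, h3⟩
      · exfalso
        rw [h2, SimpleGraph.dist_self] at h3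
        have h4 : G.dist v r = 0 := by omega
        exact hvr ((hT.connected.dist_eq_zero_iff).1 h4)
      · refine ⟨h2, ?_⟩
        rw [dist_ext hT H ha hr hv, dist_ext hT H ha hr h2] at h3
        omega
    · rintro ⟨h2, h3⟩
      refine ⟨Or.inr h2, ?_⟩
      rw [dist_ext hT H ha hr hv, dist_ext hT H ha hr h2]
      omega
  unfold ht
  rw [h1]

private theorem ht_union (hT : G.IsTree) {x y : RT} {S T : Finset V} {r : V} (_ : Tr G x S r)
    (H' : Tr G y T r) (hST : S ∩ T = {r}) {v : V} (hv : v ∈ S) (hvr : v ≠ r) :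
    ht G (S ∪ T) r v = ht G S r v := by
  have h1 : (S ∪ T).filter (fun w => G.dist r v + G.dist v w = G.dist r w) =
      S.filter (fun w => G.dist r v + G.dist v w = G.dist r w) := by
    ext w
    simp only [mem_filter, mem_union]
    constructor
    · rintro ⟨h2 | h2, h3⟩
      · exact ⟨h2, h3⟩
      · exfalso
        have h4 : v ∈ T := conv_tr hT H' r H'.mem w h2 v h3
        have h5 : v ∈ S ∩ T := mem_inter.2 ⟨hv, h4⟩
        rw [hST] at h5
        exact hvr (mem_singleton.1 h5)
    · rintro ⟨h2, h3⟩
      exact ⟨Or.inl h2, h3⟩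
  unfold ht
  rw [h1]

private theorem dist_le_h (hT : G.IsTree) {x : RT} {S : Finset V} {r : V} (H : Tr G x S r) :
    ∀ v ∈ S, G.dist r v ≤ x.h := by
  induction H with
  | pt r =>
    intro v hv
    rw [mem_singleton.1 hv, SimpleGraph.dist_self]
    exact Nat.zero_le _
  | ext r H ha hr ih =>
    intro v hv
    rcases mem_insert.1 hv with h | h
    · rw [h, SimpleGraph.dist_self]
      exact Nat.zero_le _
    · rw [dist_ext hT H ha hr h]
      exact Nat.succ_le_succ (ih v h)
  | join H H' hST ih ih' =>
    intro v hv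
    rcases mem_union.1 hv with h | h
    · exact (ih v h).trans (le_max_left _ _)
    · exact (ih' v h).trans (le_max_right _ _)

private theorem exists_h (hT : G.IsTree) {x : RT} {S : Finset V} {r : V} (H : Tr G x S r) :
    ∃ v ∈ S, G.dist r v = x.h := by
  induction H with
  | pt r => exact ⟨r, mem_singleton_self r, SimpleGraph.dist_self⟩
  | ext r H ha hr ih =>
    obtain ⟨v, hv, h⟩ := ih
    refine ⟨v, mem_insert_of_mem hv, ?_⟩
    rw [dist_ext hT H ha hr hv, h]
    rfl
  | @join x y S T r H H' hST ih ih' =>
    obtain ⟨v, hv, h⟩ := ih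
    obtain ⟨v', hv', h'⟩ := ih'
    rcases le_total x.h y.h with h1 | h1
    · refine ⟨v', mem_union_right _ hv', ?_⟩
      rw [h']
      exact (max_eq_right h1).symm
    · refine ⟨v, mem_union_left _ hv, ?_⟩
      rw [h]
      exact (max_eq_left h1).symm

private theorem ht_root (hT : G.IsTree) {x : RT} {S : Finset V} {r : V} (H : Tr G x S r) :
    ht G S r r = x.h := by
  unfold ht
  apply le_antisymm
  · refine Finset.sup_le ?_
    intro w hw
    exact dist_le_h hT H w (mem_filter.1 hw).1
  · obtain ⟨v, hv, h⟩ := exists_h hT H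
    rw [← h]
    refine Finset.le_sup (f := fun w => G.dist r w) (mem_filter.2 ⟨hv, ?_⟩)
    rw [SimpleGraph.dist_self, Nat.zero_add]

private theorem ht_lt (hT : G.IsTree) {x : RT} {S : Finset V} {r : V} (H : Tr G x S r) {v : V}
    (hvr : v ≠ r) : ht G S r v + 1 ≤ max x.h 1 := by
  have h0 : 0 < G.dist r v := by
    rcases Nat.eq_zero_or_pos (G.dist r v) with h | h
    · exact absurd ((hT.connected.dist_eq_zero_iff).1 h).symm hvr
    · exact h
  have h1 : ht G S r v ≤ x.h - 1 := by
    unfold ht
    refine Finset.sup_le ?_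
    intro w hw
    obtain ⟨h2, h3⟩ := mem_filter.1 hw
    have h4 := dist_le_h hT H w h2
    omega
  omega

private theorem h_pos (hT : G.IsTree) {x : RT} {S : Finset V} {r : V} (H : Tr G x S r) {v : V}
    (hv : v ∈ S) (hvr : v ≠ r) : 1 ≤ x.h := by
  have h1 := dist_le_h hT H v hv
  rcases Nat.eq_zero_or_pos (G.dist r v) with h | h
  · exact absurd ((hT.connected.dist_eq_zero_iff).1 h).symm hvr
  · omega

theorem N_card (hT : G.IsTree) {x : RT} {S : Finset V} {r : V} (H : Tr G x S r) {t : ℕ}
    (h1 : 1 ≤ t) : x.N t = (S.filter fun v => v ≠ r ∧ ht G S r v + 1 = t).card := by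
  induction H with
  | pt r =>
    symm
    rw [RT.N, Finset.card_eq_zero, Finset.filter_eq_empty_iff]
    intro v hv h
    exact h.1 (mem_singleton.1 hv)
  | @ext x S c r H ha hr ih =>
    have hc : c ∈ S := H.mem
    have hroot : ht G S c c = x.h := ht_root hT H
    simp only [RT.N]
    split_ifs with h2
    · symm
      rw [Finset.card_eq_one]
      refine ⟨c, ?_⟩
      ext v
      simp only [mem_filter, mem_insert, mem_singleton]
      constructor
      · rintro ⟨h3 | h3, h4, h5⟩
        · exact absurd h3 h4
        · by_contra h6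
          rw [ht_ext hT H ha hr h3] at h5
          have h7 := ht_lt hT H h6
          have h8 := h_pos hT H h3 h6
          rw [max_eq_left h8] at h7
          omega
      · intro h3
        subst h3
        refine ⟨Or.inr hc, fun h => hr (h ▸ hc), ?_⟩
        rw [ht_ext hT H ha hr hc, hroot]
        exact h2
    · rw [ih]
      congr 1
      ext v
      simp only [mem_filter, mem_insert]
      constructor
      · rintro ⟨h3, h4, h5⟩
        refine ⟨Or.inr h3, fun h => hr (h ▸ h3), ?_⟩
        rw [ht_ext hT H ha hr h3]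
        exact h5
      · rintro ⟨h3 | h3, h4, h5⟩
        · exact absurd h3 h4
        · rw [ht_ext hT H ha hr h3] at h5
          refine ⟨h3, ?_, h5⟩
          intro h6
          rw [h6, hroot] at h5
          exact h2 h5
  | @join x y S T r H H' hST ih ih' =>
    simp only [RT.N]
    rw [ih, ih', ← Finset.card_union_of_disjoint]
    · congr 1
      ext v
      simp only [mem_filter, mem_union]
      constructor
      · rintro (⟨h3, h4, h5⟩ | ⟨h3, h4, h5⟩)
        · refine ⟨Or.inl h3, h4, ?_⟩
          rw [ht_union hT H H' hST h3 h4]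
          exact h5
        · refine ⟨Or.inr h3, h4, ?_⟩
          rw [union_comm, ht_union hT H' H (by rw [inter_comm]; exact hST) h3 h4]
          exact h5
      · rintro ⟨h3 | h3, h4, h5⟩
        · rw [ht_union hT H H' hST h3 h4] at h5
          exact Or.inl ⟨h3, h4, h5⟩
        · rw [union_comm, ht_union hT H' H (by rw [inter_comm]; exact hST) h3 h4] at h5
          exact Or.inr ⟨h3, h4, h5⟩
    · rw [Finset.disjoint_left]
      intro v h3 h4
      obtain ⟨h5, h6, -⟩ := mem_filter.1 h3
      obtain ⟨h7, -, -⟩ := mem_filter.1 h4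
      have h8 : v ∈ S ∩ T := mem_inter.2 ⟨h5, h7⟩
      rw [hST] at h8
      exact h6 (mem_singleton.1 h8)

end Pool.Agent.Helper67.HS
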