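import Pool.Agent.Helper67.HS.Main
import Pool.Agent.Helper67.HS.Height
import Pool.Agent.Helper84.NC.Final

/-! # The burning number conjecture for large graphs: hard stability and near coronas together -/

set_option autoImplicit false

namespace Pool.Agent.Helper67.HS

open Finset Pool.Agent.Helper51.BN Pool.Agent.Helper51.ST N441b2449
open Pool.Agent.Helper84

universe u

namespace BridgeAux

variable {V : Type*} [DecidableEq V] {G : SimpleGraph V}

/-- A new leaf can be attached at any vertex. -/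
theorem add_leaf {x : RT} {S : Finset V} {r : V} (H : Tr G x S r) {v : V} :
    ∀ u ∈ S, G.Adj u v → v ∉ S → ∃ x', Tr G x' (insert v S) r := by
  induction H with
  | pt r =>
    intro u hu huv hv
    rw [mem_singleton] at hu
    subst hu
    have h1 := Tr.ext u (Tr.pt (G := G) v) huv (by
      rw [mem_singleton]
      exact huv.ne)
    rw [show insert u ({v} : Finset V) = insert v {u} from Finset.pair_comm u v] at h1
    exact ⟨_, h1⟩
  | @ext x S c r H hadj hr ih =>
    intro u hu huv hv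
    rw [mem_insert, not_or] at hv
    obtain ⟨hvr, hvS⟩ := hv
    rcases mem_insert.1 hu with rfl | hu
    · have h1 := Tr.join (Tr.ext u H hadj hr) (Tr.ext u (Tr.pt (G := G) v) huv (by
        rw [mem_singleton]
        exact huv.ne)) (by
        ext z
        simp only [mem_inter, mem_insert, mem_singleton]
        constructor
        · rintro ⟨h2 | h2, h3 | h3⟩
          · exact h2
          · exact h2
          · exact h3
          · subst h3
            exact absurd h2 hvS
        · intro h2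
          exact ⟨Or.inl h2, Or.inl h2⟩)
      have h2 : insert u S ∪ insert u {v} = insert v (insert u S) := by
        ext z
        simp only [mem_union, mem_insert, mem_singleton]
        tauto
      rw [h2] at h1
      exact ⟨_, h1⟩
    · obtain ⟨x', h1⟩ := ih u hu huv hvS
      rw [Finset.insert_comm]
      exact ⟨_, Tr.ext r h1 hadj (by
        rw [mem_insert, not_or]
        exact ⟨fun h => hvr h.symm, hr⟩)⟩
  | @join x y S T r H1 H2 hST ih1 ih2 =>
    intro u hu huv hv
    rw [mem_union, not_or] at hv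
    obtain ⟨hvS, hvT⟩ := hv
    rcases mem_union.1 hu with hu | hu
    · obtain ⟨x', h1⟩ := ih1 u hu huv hvS
      have h2 := Tr.join h1 H2 (by rw [insert_inter_of_notMem hvT, hST])
      rw [insert_union] at h2
      exact ⟨_, h2⟩
    · obtain ⟨x', h1⟩ := ih2 u hu huv hvT
      have h2 := Tr.join H1 h1 (by rw [inter_insert_of_notMem hvS, hST])
      rw [union_insert] at h2
      exact ⟨_, h2⟩

/-- A connected graph has a spanning tree shape with a given root. -/
theorem exists_tr_root [Fintype V] (hG : G.Connected) (r : V) : ∃ x : RT, Tr G x univ r := by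
  have key : ∀ e, e < Fintype.card V →
      ∃ (x : RT) (S : Finset V), Tr G x S r ∧ S.card = e + 1 := by
    intro e
    induction e with
    | zero =>
      intro _
      exact ⟨RT.pt, {r}, Tr.pt r, by simp⟩
    | succ e ih =>
      intro he
      obtain ⟨x, S, H, hS⟩ := ih (by omega)
      have h1 : ∃ v, v ∉ S := by
        by_contra hcon
        push Not at hcon
        have h2 : S = univ := Finset.eq_univ_iff_forall.2 hcon
        rw [h2, card_univ] at hS
        omega
      obtain ⟨v, hv⟩ := h1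
      obtain ⟨p⟩ := hG.preconnected r v
      obtain ⟨d, -, hd1, hd2⟩ := p.exists_boundary_dart (S : Set V) (by exact_mod_cast H.mem)
        (by exact_mod_cast hv)
      have hd1' : d.fst ∈ S := by exact_mod_cast hd1
      have hd2' : d.snd ∉ S := by exact_mod_cast hd2
      obtain ⟨x', H'⟩ := add_leaf H d.fst hd1' d.adj hd2'
      exact ⟨x', insert d.snd S, H', by rw [card_insert_of_notMem hd2', hS]⟩
  have hpos : 0 < Fintype.card V := Fintype.card_pos_iff.2 ⟨r⟩
  obtain ⟨x, S, H, hS⟩ := key (Fintype.card V - 1) (by omega)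
  have h1 : S = univ := by
    rw [← Finset.card_eq_iff_eq_univ, hS]
    omega
  rw [h1] at H
  exact ⟨x, H⟩

omit [DecidableEq V] in
/-- The two notions of height agree. -/
theorem ht_eq [Fintype V] {X : NC.TM V} (hX : ∀ x y, X.d x y = G.dist x y) (r v : V) :
    NC.ht X r v = ht G univ r v := by
  unfold NC.ht ht
  have h1 : NC.sub X r v =
      (univ.filter fun w => G.dist r v + G.dist v w = G.dist r w) := by
    ext w
    rw [NC.mem_sub, mem_filter]
    unfold NC.Bel
    rw [hX, hX, hX]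
    simp
  rw [h1]
  have h2 : X.d v = fun w => G.dist v w := by
    funext w
    exact hX v w
  rw [h2]

theorem N_le [Fintype V] (hT : G.IsTree) {X : NC.TM V} (hX : ∀ x y, X.d x y = G.dist x y)
    {x : RT} {r : V} (H : Tr G x univ r) (h : ℕ) : x.N (h + 1) ≤ NC.Nh X r h := by
  classical
  rw [N_card hT H (by omega)]
  unfold NC.Nh
  apply Finset.card_le_card
  intro v hv
  obtain ⟨-, -, h3⟩ := mem_filter.1 hv
  simp only [Finset.mem_filter, Finset.mem_univ, true_and]
  rw [ht_eq hX]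
  omega

theorem sum_le [Fintype V] (hT : G.IsTree) {X : NC.TM V} (hX : ∀ x y, X.d x y = G.dist x y)
    {x : RT} {r : V} (H : Tr G x univ r) (k : ℕ) :
    ∑ h ∈ range k, (k - NC.Nh X r h) ≤ ∑ t ∈ Icc 1 k, (k - x.N t) := by
  have h1 : ∑ t ∈ Icc 1 k, (k - x.N t) = ∑ h ∈ range k, (k - x.N (h + 1)) := by
    rw [Finset.range_eq_Ico, Finset.sum_Ico_add' (fun t => k - x.N t) 0 k 1]
    apply Finset.sum_congr _ fun _ _ => rfl
    ext i
    simp only [Finset.mem_Icc, Finset.mem_Ico]
    omega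
  rw [h1]
  refine Finset.sum_le_sum fun h _ => ?_
  have h2 := N_le hT hX H h
  omega

/-- The final estimate. -/
theorem num : ∃ k₀ : ℕ, ∀ k : ℕ, k₀ ≤ k →
    (1 : ℝ) ≤ k ∧ 2 ^ 200 * (⌈Real.log k ^ 15⌉₊ + 2) ^ 20 ≤ k := by
  have h1 : ∀ᶠ x : ℝ in Filter.atTop, ‖Real.log x ^ (300 : ℝ)‖ ≤ (1 / 2 ^ 240 : ℝ) * ‖x ^ (1 : ℝ)‖ :=
    (isLittleO_log_rpow_rpow_atTop 300 (by norm_num : (0 : ℝ) < 1)).bound (by norm_num)
  have h2 : ∀ᶠ x : ℝ in Filter.atTop, Real.exp 1 ≤ x := Filter.eventually_ge_atTop _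
  obtain ⟨k₀, hk₀⟩ := Filter.eventually_atTop.1
    (tendsto_natCast_atTop_atTop.eventually (h1.and h2))
  refine ⟨k₀, fun k hk => ?_⟩
  obtain ⟨h3, h4⟩ := hk₀ k hk
  have hk0 : (0 : ℝ) < k := lt_of_lt_of_le (Real.exp_pos 1) h4
  have he : (1 : ℝ) ≤ Real.exp 1 := by
    have := Real.add_one_le_exp (1 : ℝ)
    linarith
  have hlog : 1 ≤ Real.log k := by
    rw [Real.le_log_iff_exp_le hk0]
    exact h4
  refine ⟨he.trans h4, ?_⟩
  rw [Real.rpow_one, Real.norm_of_nonneg hk0.le, Real.norm_of_nonneg (by positivity)] at h3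
  have h5 : Real.log k ^ (300 : ℝ) = Real.log k ^ 300 := by
    exact_mod_cast Real.rpow_natCast (Real.log k) 300
  rw [h5] at h3
  have h6 : (⌈Real.log k ^ 15⌉₊ : ℝ) ≤ Real.log k ^ 15 + 1 :=
    (Nat.ceil_lt_add_one (by positivity)).le
  have h7 : (1 : ℝ) ≤ Real.log k ^ 15 := one_le_pow₀ hlog
  have h8 : ((⌈Real.log k ^ 15⌉₊ : ℝ) + 2) ^ 20 ≤ (4 * Real.log k ^ 15) ^ 20 :=
    pow_le_pow_left₀ (by positivity) (by linarith) 20
  have h9 : (4 * Real.log k ^ 15) ^ 20 = 2 ^ 40 * Real.log k ^ 300 := by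
    rw [mul_pow, ← pow_mul]
    norm_num
  have h10 : (2 : ℝ) ^ 200 * ((⌈Real.log k ^ 15⌉₊ : ℝ) + 2) ^ 20 ≤ k := by
    calc (2 : ℝ) ^ 200 * ((⌈Real.log k ^ 15⌉₊ : ℝ) + 2) ^ 20
        ≤ 2 ^ 200 * (2 ^ 40 * Real.log k ^ 300) := by
          rw [← h9]
          exact mul_le_mul_of_nonneg_left h8 (by positivity)
      _ = 2 ^ 240 * Real.log k ^ 300 := by ring
      _ ≤ 2 ^ 240 * (1 / 2 ^ 240 * k) := mul_le_mul_of_nonneg_left h3 (by positivity)
      _ = k := by
          rw [← mul_assoc, mul_one_div_cancel (by positivity), one_mul]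
  exact_mod_cast h10

/-- Burning a connected spanning subgraph takes at least as long. -/
theorem burn_mono {V : Type*} [Fintype V] {G T : SimpleGraph V} (hT : T.Connected) (h : T ≤ G) :
    burningNumber G ≤ burningNumber T := by
  classical
  obtain ⟨r⟩ := hT.nonempty
  have hne : {k | ∃ x : Fin k → V, IsBurningSequence T x}.Nonempty := by
    refine ⟨univ.sup (fun v => T.dist r v) + 1, fun _ => r, fun v => ?_⟩
    refine ⟨0, hT r v, ?_⟩
    have h1 : T.dist r v ≤ univ.sup (fun v => T.dist r v) :=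
      Finset.le_sup (f := fun v => T.dist r v) (mem_univ v)
    simp only [Fin.val_zero, add_zero]
    omega
  obtain ⟨x, hx⟩ := Nat.sInf_mem hne
  refine Nat.sInf_le ⟨x, fun v => ?_⟩
  obtain ⟨i, h1, h2⟩ := hx v
  refine ⟨i, h1.mono h, ?_⟩
  obtain ⟨w, hw⟩ := hT.exists_walk_length_eq_dist (x i) v
  have h3 := SimpleGraph.dist_le (w.mapLe h)
  rw [SimpleGraph.Walk.length_map] at h3
  have h4 : T.dist (x i) v + (i : ℕ) < burningNumber T := h2
  omega

end BridgeAux

open BridgeAux

/-- For large `k`, the burning number of a connected graph with at most `k ^ 2` vertices is at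
most `k`. -/
theorem burn_large : ∃ k₀ : ℕ, ∀ {V : Type u} [Fintype V] {G : SimpleGraph V}, G.Connected →
    ∀ {k : ℕ}, k₀ ≤ k → Fintype.card V ≤ k ^ 2 → burningNumber G ≤ k := by
  classical
  obtain ⟨k₁, hst⟩ := hard_stab.{u}
  obtain ⟨k₂, hnum⟩ := num
  refine ⟨max k₁ k₂, fun {V} _ {G} hG {k} hk hc => ?_⟩
  obtain ⟨h1k, hkΛ⟩ := hnum k ((le_max_right _ _).trans hk)
  by_contra hcon
  have hlt : k < burningNumber G := not_le.1 hcon
  obtain ⟨T, hTG, hT⟩ := hG.exists_isTree_le
  obtain ⟨X, hX⟩ := NC.exists_tm hT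
  have : Nonempty V := hG.nonempty
  obtain ⟨r, cen⟩ := NC.exists_cen X
  obtain ⟨x, H⟩ := exists_tr_root hT.connected r
  have h1 : k < burningNumber T := hlt.trans_le (burn_mono hT.connected hTG)
  have h2 := hst hT H ((le_max_left _ _).trans hk) hc h1
  have h3 : ∑ t ∈ Icc 1 k, (k - x.N t) ≤ ⌈Real.log k ^ 15⌉₊ * k := by
    have h4 : ((∑ t ∈ Icc 1 k, (k - x.N t) : ℕ) : ℝ) ≤ (⌈Real.log k ^ 15⌉₊ * k : ℕ) := by
      refine h2.trans ?_
      push_cast
      rw [mul_comm]
      exact mul_le_mul_of_nonneg_right (Nat.le_ceil _) (Nat.cast_nonneg _)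
    exact_mod_cast h4
  exact hcon (NC.burn_le hT hTG hX hc ((sum_le hT hX H k).trans h3) cen hkΛ)

/-- The burning number conjecture holds for all sufficiently large connected graphs. -/
theorem burning_conjecture_large : ∃ n₀ : ℕ, ∀ {V : Type u} [Fintype V] (G : SimpleGraph V),
    G.Connected → n₀ ≤ Fintype.card V →
      burningNumber G ≤ ⌈Real.sqrt (Fintype.card V)⌉₊ := by
  obtain ⟨k₀, h⟩ := burn_large.{u}
  refine ⟨k₀ ^ 2, fun {V} _ G hG hn => ?_⟩
  have h1 : (k₀ : ℝ) ≤ Real.sqrt (Fintype.card V) := by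
    apply Real.le_sqrt_of_sq_le
    exact_mod_cast hn
  refine h hG ?_ ?_
  · have h2 : (k₀ : ℝ) ≤ ⌈Real.sqrt (Fintype.card V)⌉₊ := h1.trans (Nat.le_ceil _)
    exact_mod_cast h2
  · have h2 : Real.sqrt (Fintype.card V) ≤ ⌈Real.sqrt (Fintype.card V)⌉₊ := Nat.le_ceil _
    have h3 : (Fintype.card V : ℝ) ≤ (⌈Real.sqrt (Fintype.card V)⌉₊ : ℝ) ^ 2 := by
      have h4 := pow_le_pow_left₀ (Real.sqrt_nonneg _) h2 2
      rwa [Real.sq_sqrt (Nat.cast_nonneg _)] at h4
    exact_mod_cast h3

end Pool.Agent.Helper67.HS
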