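import Pool.Agent.Helper67.HS.Gate

/-! # Project HS, module HS-B1b: the pieces are convex, and have many vertices near a tip -/

set_option autoImplicit false

namespace Pool.Agent.Helper67.HS

open Finset Pool.Agent.Helper51.ST Pool.Agent.Helper64.FB

variable {V : Type*} [DecidableEq V] {G : SimpleGraph V}

omit [DecidableEq V] in
/-- A set of vertices of a tree which is star-shaped from `r` is convex. -/
private theorem conv_of_star (hT : G.IsTree) {S : Finset V} {r : V}
    (H : ∀ v ∈ S, ∀ z, G.dist r z + G.dist z v = G.dist r v → z ∈ S) : Conv G S := by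
  intro x hx y hy z hz
  obtain ⟨z₀, hz₀, hgate⟩ := exists_gate hT x y r
  have h1 := hgate z hz
  have hx0 : G.dist x x + G.dist x y = G.dist x y := by
    rw [SimpleGraph.dist_self, zero_add]
  have hy0 : G.dist x y + G.dist y y = G.dist x y := by
    rw [SimpleGraph.dist_self, add_zero]
  have h2 := hgate x hx0
  have h3 := hgate y hy0
  have h4 := between_dist hT hz₀ hz
  have c1 : G.dist z x = G.dist x z := G.dist_comm
  have c2 : G.dist z₀ x = G.dist x z₀ := G.dist_comm
  rcases le_total (G.dist x z) (G.dist x z₀) with hle | hle
  · refine H x hx z ?_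
    omega
  · refine H y hy z ?_
    omega

private theorem star_tr (hT : G.IsTree) {x : RT} {S : Finset V} {r : V} (H : Tr G x S r) :
    ∀ v ∈ S, ∀ z, G.dist r z + G.dist z v = G.dist r v → z ∈ S := by
  induction H with
  | pt r =>
    intro v hv z hz
    have hv' : v = r := Finset.mem_singleton.mp hv
    subst hv'
    rw [SimpleGraph.dist_self] at hz
    have h0 : G.dist v z = 0 := by omega
    have h1 : v = z := (hT.connected.dist_eq_zero_iff).1 h0
    rw [← h1]
    exact hv
  | @ext x S c r _ hadj hrS ih =>
    intro v hv z hz
    rcases Finset.mem_insert.mp hv with hv' | hv'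
    · subst hv'
      rw [SimpleGraph.dist_self] at hz
      have h0 : G.dist v z = 0 := by omega
      have h1 : v = z := (hT.connected.dist_eq_zero_iff).1 h0
      rw [← h1]
      exact hv
    · have hrc : G.dist r c = 1 := SimpleGraph.dist_eq_one_iff_adj.2 hadj
      have hcr : G.dist c r = 1 := by rw [SimpleGraph.dist_comm]; exact hrc
      have hvr : G.dist v r = G.dist r v := G.dist_comm
      have hvc : G.dist v c = G.dist c v := G.dist_comm
      have hrv : G.dist r v = G.dist c v + 1 := by
        rcases hT.dist_eq_dist_add_one_of_adj v hadj with h | h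
        · omega
        · exfalso
          refine hrS (ih v hv' r ?_)
          omega
      rcases Nat.eq_zero_or_pos (G.dist r z) with h0 | h0
      · have h1 : r = z := (hT.connected.dist_eq_zero_iff).1 h0
        rw [← h1]
        exact Finset.mem_insert_self _ _
      · have hc : G.dist r c + G.dist c v = G.dist r v := by omega
        have h2 := between_dist hT hc hz
        refine Finset.mem_insert_of_mem (ih v hv' z ?_)
        omega
  | join _ _ _ ih₁ ih₂ =>
    intro v hv z hz
    rcases Finset.mem_union.mp hv with hv' | hv'
    · exact Finset.mem_union_left _ (ih₁ v hv' z hz)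
    · exact Finset.mem_union_right _ (ih₂ v hv' z hz)

theorem conv_tr (hT : G.IsTree) {x : RT} {S : Finset V} {r : V} (H : Tr G x S r) :
    Conv G S :=
  conv_of_star hT (star_tr hT H)

/-- The balls of a packing are disjoint and have at least `R + 1` vertices each. -/
theorem pack_card (hT : G.IsTree) {P U : Finset V} (hP : Conv G P) (hU : U ⊆ P) {R : ℕ}
    (hsep : ∀ u ∈ U, ∀ v ∈ U, u ≠ v → 2 * R < G.dist u v) (hbig : R + 1 ≤ P.card) :
    U.card * (R + 1) ≤ P.card := by
  classical
  rcases Nat.lt_or_ge 1 U.card with hc | hc
  · have hball : ∀ u ∈ U, R + 1 ≤ (P.filter fun z => G.dist u z ≤ R).card := by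
      intro u hu
      obtain ⟨v, hv, hvu⟩ := Finset.exists_mem_ne hc u
      have hd := hsep u hu v hv hvu.symm
      have hex : ∀ i : ℕ, i ≤ R → ∃ z, G.dist u z = i ∧
          G.dist u z + G.dist z v = G.dist u v := fun i hi =>
        exists_between hT.connected u v (by omega)
      have : Nonempty V := ⟨u⟩
      choose! f hf1 hf2 using hex
      have hinj : Set.InjOn f (Finset.range (R + 1) : Set ℕ) := by
        intro i hi j hj hij
        have hi' : i ≤ R := Nat.lt_succ_iff.mp (Finset.mem_range.mp hi)
        have hj' : j ≤ R := Nat.lt_succ_iff.mp (Finset.mem_range.mp hj)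
        have h1 := hf1 i hi'
        have h2 := hf1 j hj'
        rw [← h1, ← h2, hij]
      have hsub : (Finset.range (R + 1)).image f ⊆ P.filter fun z => G.dist u z ≤ R := by
        intro z hz
        obtain ⟨i, hi, rfl⟩ := Finset.mem_image.mp hz
        have hi' : i ≤ R := Nat.lt_succ_iff.mp (Finset.mem_range.mp hi)
        refine Finset.mem_filter.mpr ⟨hP u (hU hu) v (hU hv) _ (hf2 i hi'), ?_⟩
        rw [hf1 i hi']
        exact hi'
      have hcard := Finset.card_le_card hsub
      rw [Finset.card_image_of_injOn hinj, Finset.card_range] at hcard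
      exact hcard
    have hdisj : ∀ u ∈ U, ∀ v ∈ U, u ≠ v →
        Disjoint (P.filter fun z => G.dist u z ≤ R) (P.filter fun z => G.dist v z ≤ R) := by
      intro u hu v hv huv
      rw [Finset.disjoint_left]
      intro z hz1 hz2
      have h1 := (Finset.mem_filter.mp hz1).2
      have h2 := (Finset.mem_filter.mp hz2).2
      have h3 := hsep u hu v hv huv
      have h4 : G.dist u v ≤ G.dist u z + G.dist z v := hT.connected.dist_triangle
      have h5 : G.dist z v = G.dist v z := G.dist_comm
      omega
    have hsum : (U.biUnion fun u => P.filter fun z => G.dist u z ≤ R).card =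
        ∑ u ∈ U, (P.filter fun z => G.dist u z ≤ R).card :=
      Finset.card_biUnion hdisj
    have hle : (U.biUnion fun u => P.filter fun z => G.dist u z ≤ R).card ≤ P.card := by
      refine Finset.card_le_card ?_
      intro z hz
      obtain ⟨u, _, hzu⟩ := Finset.mem_biUnion.mp hz
      exact (Finset.mem_filter.mp hzu).1
    have hge : U.card * (R + 1) ≤ ∑ u ∈ U, (P.filter fun z => G.dist u z ≤ R).card := by
      have := Finset.card_nsmul_le_sum U
        (fun u => (P.filter fun z => G.dist u z ≤ R).card) (R + 1) hball
      simpa [smul_eq_mul] using this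
    omega
  · have : U.card * (R + 1) ≤ 1 * (R + 1) := Nat.mul_le_mul_right _ hc
    omega

end Pool.Agent.Helper67.HS
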