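import Pool.Agent.Helper51.ST.Few

/-!
# Project HS (hard stability of burning trees, polylog error): definitions

Guide: `/team-store/helper67_HS_Guide.txt`.
-/

set_option autoImplicit false

namespace Pool.Agent.Helper67.HS

open Finset Pool.Agent.Helper51.BN Pool.Agent.Helper51.ST

/-! ### Part A: prices -/

/-- `ψ(n) = K n - 2 (g 0 + ... + g (n - 1))`. -/
noncomputable def psi (g : ℕ → ℝ) (K : ℝ) (n : ℕ) : ℝ := K * n - 2 * ∑ i ∈ range n, g i

/-- Long paths have length at least `tt b`, about `0.9 b`. -/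
def tt (b : ℕ) : ℕ := 9 * b / 10 + 1

/-- Very long paths have length at least `t2 b`, about `1.5 b`. -/
def t2 (b : ℕ) : ℕ := 3 * b / 2 + 1

/-- The hypotheses of the non-flat case with a small constant `ε`. -/
structure ND (g : ℕ → ℝ) (b : ℕ) (K ε : ℝ) : Prop where
  cf : CF g b K
  Kpos : 0 < K
  εpos : 0 < ε
  ε1 : ε ≤ 1
  nf : NF g b K ε
  big : 1000 ≤ ε * b

/-- The facts about a flat price which are used in part C. -/
structure FP (g : ℕ → ℝ) (k L b : ℕ) (K : ℝ) : Prop where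
  nonneg : ∀ i, 0 ≤ g i
  mono : Monotone g
  Kpos : 0 < K
  flat : ∀ R, R < b → 2 * g R * ((b : ℝ) - R) ≤ K * ((b : ℝ) - R + 10 ^ 4 * L)
  low : K * ((b : ℝ) - 10 ^ 4 * L) ≤ 2 * ∑ r ∈ range b, g r
  tot : K * ((k : ℝ) ^ 2 - 4 * k * L) ≤ (2 * b + 1) * ∑ r ∈ range (k - L), g r
  bk : b + L + 1 ≤ k
  b9 : 99 * k ≤ 100 * b

/-! ### Part B: trees -/

variable {V : Type*} [DecidableEq V]

/-- `P` is a star with centre `m` and about `U.card` arms, of length about `R`, with tips in `U`;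
at most `s` vertices are off the arms. -/
structure Star (G : SimpleGraph V) (P U : Finset V) (R s : ℕ) (m : V) : Prop where
  mem : m ∈ P
  lo : ∀ u ∈ U, R ≤ G.dist u m
  hi : ∀ u ∈ U, G.dist u m ≤ R + U.card + 2 * s
  near : ∀ x ∈ P, ∃ u ∈ U, ∃ z ∈ P, G.dist u z + G.dist z m = G.dist u m ∧ G.dist z x ≤ s

/-- The pieces `P i` of a tree `G` with packings `U i` and covers `C i` by balls of radius `R`. -/
structure HD (G : SimpleGraph V) (k A L m : ℕ) (y : Fin m → RT) (P : Fin m → Finset V)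
    (q : Fin m → V) (R : ℕ) (U C : Fin m → Finset V) : Prop where
  data : Data G k A L m y P q
  tree : G.IsTree
  A10 : 10 ≤ A
  up : ∀ i, (y i).e ≤ 16 * A * k
  sub : ∀ i, U i ⊆ P i
  sep : ∀ i, ∀ u ∈ U i, ∀ v ∈ U i, u ≠ v → 2 * R < G.dist u v
  cov : ∀ i, ∀ v ∈ P i, ∃ c ∈ C i, G.dist c v ≤ R
  card : ∀ i, (C i).card ≤ (U i).card

/-- The number of vertices of a piece in excess of the balls of its packing. -/
def exc {m : ℕ} (P U : Fin m → Finset V) (R : ℕ) (i : Fin m) : ℕ :=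
  (P i).card - (U i).card * (R + 1)

/-- The margin of a piece. -/
def mar {m : ℕ} (P U : Fin m → Finset V) (R : ℕ) (i : Fin m) : ℕ :=
  2 * (U i).card + 7 * exc P U R i

/-- Two good pieces are in conflict. -/
def Conf (G : SimpleGraph V) {m : ℕ} (P U : Fin m → Finset V) (R : ℕ) (i j : Fin m) : Prop :=
  i ≠ j ∧ 100 * exc P U R i ≤ R ∧ 100 * exc P U R j ≤ R ∧
    ∃ u ∈ U i, ∃ v ∈ U j, G.dist u v + 2 * mar P U R i + 2 * mar P U R j ≤ 2 * R

/-- The groups of pieces given by a matching `σ`. -/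
def grp {m : ℕ} (σ : Fin m → Fin m) (P : Fin m → Finset V) (i : Fin m) : Finset V :=
  if σ i = i then P i else if i < σ i then P i ∪ P (σ i) else ∅

end Pool.Agent.Helper67.HS
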