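import Pool.Agent.Helper67.HS.Defs

/-! # Project HS, module HS-B0: gates and medians in trees -/

set_option autoImplicit false

namespace Pool.Agent.Helper67.HS

open Finset Pool.Agent.Helper64.FB

variable {V : Type*} {G : SimpleGraph V}

private theorem between_le (hT : G.IsTree) {a b z z' : V}
    (h : G.dist a z + G.dist z b = G.dist a b) (h' : G.dist a z' + G.dist z' b = G.dist a b)
    (hle : G.dist a z ≤ G.dist a z') : G.dist z z' = G.dist a z' - G.dist a z := by
  obtain ⟨y, hy1, hy2⟩ := exists_between hT.connected a z' hle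
  have h1 : G.dist y b ≤ G.dist y z' + G.dist z' b := hT.connected.dist_triangle
  have h2 : G.dist a b ≤ G.dist a y + G.dist y b := hT.connected.dist_triangle
  have hyS : G.dist a y + G.dist y b = G.dist a b := by omega
  have hzy : z = y := between_unique hT h hyS hy1.symm
  subst hzy
  omega

/-- Two points of a geodesic. -/
theorem between_dist (hT : G.IsTree) {a b z z' : V} (h : G.dist a z + G.dist z b = G.dist a b)
    (h' : G.dist a z' + G.dist z' b = G.dist a b) :
    G.dist z z' = (G.dist a z - G.dist a z') + (G.dist a z' - G.dist a z) := by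
  rcases le_total (G.dist a z) (G.dist a z') with hle | hle
  · rw [between_le hT h h' hle]
    omega
  · rw [G.dist_comm, between_le hT h' h hle]
    omega

/-- The gate `z₀` of `w` on the geodesic from `a` to `b`. -/
theorem exists_gate (hT : G.IsTree) (a b w : V) :
    ∃ z₀, G.dist a z₀ + G.dist z₀ b = G.dist a b ∧
      ∀ z, G.dist a z + G.dist z b = G.dist a b → G.dist w z = G.dist w z₀ + G.dist z₀ z := by
  have hne : {z : V | G.dist a z + G.dist z b = G.dist a b}.Nonempty := by
    refine ⟨a, ?_⟩
    change G.dist a a + G.dist a b = G.dist a b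
    rw [SimpleGraph.dist_self, zero_add]
  obtain ⟨z₀, hz₀, hmin⟩ : ∃ z₀ : V, G.dist a z₀ + G.dist z₀ b = G.dist a b ∧
      ∀ z, G.dist a z + G.dist z b = G.dist a b → G.dist w z₀ ≤ G.dist w z := by
    refine ⟨Function.argminOn (fun z => G.dist w z) _ hne, ?_, fun z hz => ?_⟩
    · exact Function.argminOn_mem (fun z => G.dist w z) _ hne
    · exact Function.argminOn_le (fun z => G.dist w z) _ hz
  refine ⟨z₀, hz₀, fun z hz => ?_⟩
  rcases Nat.eq_zero_or_pos (G.dist z₀ z) with h0 | h0
  · have h1 : z₀ = z := (hT.connected.dist_eq_zero_iff).1 h0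
    subst h1
    rw [SimpleGraph.dist_self, add_zero]
  -- the next point from `z₀` towards `z`
  obtain ⟨y, hy1, hy2⟩ := exists_between hT.connected z₀ z (t := 1) h0
  have hd := between_dist hT hz₀ hz
  have hyS : G.dist a y + G.dist y b = G.dist a b := by
    have k1 : G.dist a b ≤ G.dist a y + G.dist y b := hT.connected.dist_triangle
    rcases le_total (G.dist a z₀) (G.dist a z) with hle | hle
    · have k2 : G.dist a y ≤ G.dist a z₀ + G.dist z₀ y := hT.connected.dist_triangle
      have k3 : G.dist y b ≤ G.dist y z + G.dist z b := hT.connected.dist_triangle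
      omega
    · have k2 : G.dist a y ≤ G.dist a z + G.dist z y := hT.connected.dist_triangle
      have k3 : G.dist y b ≤ G.dist y z₀ + G.dist z₀ b := hT.connected.dist_triangle
      have k4 : G.dist z y = G.dist y z := G.dist_comm
      have k5 : G.dist y z₀ = G.dist z₀ y := G.dist_comm
      omega
  have hadj : G.Adj z₀ y := SimpleGraph.dist_eq_one_iff_adj.1 hy1
  have hwy : G.dist w y = G.dist w z₀ + 1 := by
    have k1 := hmin y hyS
    have k2 : G.dist w y ≤ G.dist w z₀ + G.dist z₀ y := hT.connected.dist_triangle
    have k3 : G.dist w z₀ ≠ G.dist w y := hT.dist_ne_of_adj w hadj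
    omega
  have hzy : G.dist z z₀ = G.dist z y + 1 := by
    have k4 : G.dist z y = G.dist y z := G.dist_comm
    have k5 : G.dist z z₀ = G.dist z₀ z := G.dist_comm
    omega
  have := edge_cross hT hadj hwy hzy
  omega

end Pool.Agent.Helper67.HS
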