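import Pool.Agent.Helper67.HS.Low

/-! # Project HS, module HS-A3: trees of height at least `b` -/

set_option autoImplicit false

namespace Pool.Agent.Helper67.HS

open Finset Pool.Agent.Helper51.BN Pool.Agent.Helper51.ST

variable {V : Type*} [Fintype V] [DecidableEq V] {G : SimpleGraph V}

private theorem bpos {g : ℕ → ℝ} {b : ℕ} {K ε : ℝ} (D : ND g b K ε) : 1000 ≤ b := by
  have h1 := D.big
  have h2 := D.ε1
  have h3 : ε * (b : ℝ) ≤ 1 * b := mul_le_mul_of_nonneg_right h2 (Nat.cast_nonneg b)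
  have h4 : (1000 : ℝ) ≤ b := by linarith
  exact_mod_cast h4

private theorem X_le (hG : G.Connected) {g : ℕ → ℝ} {b : ℕ} {K ε : ℝ} (D : ND g b K ε) {x : RT}
    {S : Finset V} {r : V} (H : Tr G x S r) (hh : b ≤ x.h) : X G g b S r b ≤ K * x.e :=
  high hG D.cf H.built hh

/-- The sums `M` of the tree `T` of a join. -/
private theorem U_le (hG : G.Connected) {g : ℕ → ℝ} {b : ℕ} {K ε : ℝ} (D : ND g b K ε) {x : RT}
    {S : Finset V} {r : V} (H : Tr G x S r)
    (ih : b ≤ x.h → 2 ≤ x.N (tt b) → X G g b S r b ≤ K * x.e -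
      K * (ε * b) / 1200 * ((x.N (tt b) : ℝ) - x.N (t2 b))) :
    M G g b S r b + M G g b S r (b + 1) ≤
        K * x.e - K * (ε * b) / 1200 * ((x.N (tt b) : ℝ) - x.N (t2 b)) ∧
      (x.h < b → 1 ≤ x.N (tt b) → M G g b S r b + M G g b S r (b + 1) ≤
        K * x.e - K * (ε * b) / 1200 * ((x.N (tt b) : ℝ) + 1)) ∧
      (x.N (tt b) = 1 → 2 * x.h ≤ 3 * b → M G g b S r b + M G g b S r (b + 1) ≤
        K * x.e - K * (ε * b) / 1200 * 6) := by
  have hb := bpos D
  have hK := D.Kpos
  have hε := D.εpos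
  have hc : 0 ≤ K * (ε * b) / 1200 := by positivity
  have htt : 1 ≤ tt b := by unfold tt; omega
  have ht2 : 1 ≤ t2 b := by unfold t2; omega
  have htb : tt b ≤ b := by unfold tt; omega
  have htt2 : tt b ≤ t2 b := by unfold tt t2; omega
  have hNN : x.N (t2 b) ≤ x.N (tt b) := RT.N_anti htt htt2 x
  have hN2 : (0 : ℝ) ≤ (x.N (t2 b) : ℝ) := Nat.cast_nonneg _
  have e6 : K * (ε * b) / 200 = K * (ε * b) / 1200 * 6 := by ring
  have e2 : K * (ε * b) / 600 = K * (ε * b) / 1200 * 2 := by ring
  set c := K * (ε * b) / 1200 with hcdef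
  have hleg : x.N (tt b) = 1 → 2 * x.h ≤ 3 * b → M G g b S r b + M G g b S r (b + 1) ≤
      K * x.e - c * 6 := by
    intro h1 h2
    have := leg_gain hG D H h1 h2 (m := b) le_rfl
    rw [e6] at this
    exact this
  rcases Nat.lt_or_ge (x.N (tt b)) 2 with hN | hN
  · rcases Nat.eq_zero_or_pos (x.N (tt b)) with h0 | h1
    · -- no long path
      have hh : x.h < tt b := (RT.N_eq_zero htt x).1 h0
      have h20 : x.N (t2 b) = 0 := by omega
      have l1 := light hG D.cf H.built (by omega : x.h ≤ b) b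
      have l2 := light hG D.cf H.built (by omega : x.h ≤ b) (b + 1)
      have l3 := sum_range_le D.cf (by omega : x.h ≤ b)
      have l4 : M G g b S r b + M G g b S r (b + 1) ≤ K * x.e := by
        unfold M
        linarith
      refine ⟨?_, fun _ h => by omega, fun h => by omega⟩
      rw [h0, h20]
      simpa using l4
    · have h1' : x.N (tt b) = 1 := by omega
      have h1r : (x.N (tt b) : ℝ) = 1 := by exact_mod_cast h1'
      rcases Nat.lt_or_ge (3 * b) (2 * x.h) with hl | hs
      · have hh : b ≤ x.h := by omega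
        have h2p : x.N (t2 b) ≠ 0 := by
          intro h
          have := (RT.N_eq_zero ht2 x).1 h
          unfold t2 at this
          omega
        have h2e : (x.N (t2 b) : ℝ) = 1 := by
          have : x.N (t2 b) = 1 := by omega
          exact_mod_cast this
        refine ⟨?_, fun h => by omega, fun _ h => by omega⟩
        have l1 := M_le_X (G := G) D.cf.nonneg (le_refl b) S r
        have l2 := X_le hG D H hh
        rw [h1r, h2e]
        linarith
      · have l1 := hleg h1' hs
        refine ⟨?_, fun _ _ => ?_, fun _ _ => l1⟩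
        · have : c * ((x.N (tt b) : ℝ) - x.N (t2 b)) ≤ c * 6 :=
            mul_le_mul_of_nonneg_left (by rw [h1r]; linarith) hc
          linarith
        · have : c * ((x.N (tt b) : ℝ) + 1) ≤ c * 6 :=
            mul_le_mul_of_nonneg_left (by rw [h1r]; norm_num) hc
          linarith
  · have hNr : (2 : ℝ) ≤ x.N (tt b) := by exact_mod_cast hN
    rcases Nat.lt_or_ge x.h b with hl | hh
    · have l1 := (low_gain hG D H hl.le).2 hN b le_rfl
      have l3 := sum_range_le D.cf hl.le
      rw [e2] at l1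
      have l4 : M G g b S r b + M G g b S r (b + 1) ≤ K * x.e - c * ((x.N (tt b) : ℝ) + 1) := by
        have : c * ((x.N (tt b) : ℝ) + 1) ≤ c * (2 * x.N (tt b)) :=
          mul_le_mul_of_nonneg_left (by linarith) hc
        have e3 : c * 2 * (x.N (tt b) : ℝ) = c * (2 * x.N (tt b)) := by ring
        rw [e3] at l1
        linarith
      refine ⟨?_, fun _ _ => l4, fun h => by omega⟩
      have : c * ((x.N (tt b) : ℝ) - x.N (t2 b)) ≤ c * ((x.N (tt b) : ℝ) + 1) :=
        mul_le_mul_of_nonneg_left (by linarith) hc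
      linarith
    · refine ⟨?_, fun h => by omega, fun h => by omega⟩
      have l1 := M_le_X (G := G) D.cf.nonneg (le_refl b) S r
      have l2 := ih hh hN
      linarith

/-- A join whose first tree is high. -/
private theorem join_le (hG : G.Connected) {g : ℕ → ℝ} {b : ℕ} {K ε : ℝ} (D : ND g b K ε)
    {x y : RT} {S T : Finset V} {r : V} (HS : Tr G x S r) (HT : Tr G y T r) (hx : b ≤ x.h)
    (hN : 2 ≤ x.N (tt b) + y.N (tt b))
    (ihx : b ≤ x.h → 2 ≤ x.N (tt b) → X G g b S r b ≤ K * x.e -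
      K * (ε * b) / 1200 * ((x.N (tt b) : ℝ) - x.N (t2 b)))
    (ihy : b ≤ y.h → 2 ≤ y.N (tt b) → X G g b T r b ≤ K * y.e -
      K * (ε * b) / 1200 * ((y.N (tt b) : ℝ) - y.N (t2 b))) :
    X G g b (S ∪ T) r b ≤ K * ((x.e : ℝ) + y.e) - K * (ε * b) / 1200 *
      (((x.N (tt b) : ℝ) + y.N (tt b)) - (x.N (t2 b) + y.N (t2 b))) := by
  have hb := bpos D
  have hK := D.Kpos
  have hε := D.εpos
  have hc : 0 ≤ K * (ε * b) / 1200 := by positivity
  have htt : 1 ≤ tt b := by unfold tt; omega
  have ht2 : 1 ≤ t2 b := by unfold t2; omega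
  have htb : tt b ≤ b := by unfold tt; omega
  have htt2 : tt b ≤ t2 b := by unfold tt t2; omega
  have hNNx : x.N (t2 b) ≤ x.N (tt b) := RT.N_anti htt htt2 x
  have hx1 : x.N (tt b) ≠ 0 := by
    intro h
    have := (RT.N_eq_zero htt x).1 h
    omega
  have Ux := U_le hG D HS ihx
  have Uy := U_le hG D HT ihy
  have J := X_join hG D.cf.nonneg (le_refl b) S T r
  have J' := X_join hG D.cf.nonneg (le_refl b) T S r
  rw [Finset.union_comm T S] at J'
  have hX := X_le hG D HS hx
  have hy2 : (0 : ℝ) ≤ y.N (t2 b) := Nat.cast_nonneg _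
  have hx2 : (0 : ℝ) ≤ x.N (t2 b) := Nat.cast_nonneg _
  set c := K * (ε * b) / 1200 with hcdef
  have e1 : K * ((x.e : ℝ) + y.e) = K * x.e + K * y.e := by ring
  have e2 : c * (((x.N (tt b) : ℝ) + y.N (tt b)) - (x.N (t2 b) + y.N (t2 b))) =
      c * ((x.N (tt b) : ℝ) - x.N (t2 b)) + c * ((y.N (tt b) : ℝ) - y.N (t2 b)) := by ring
  rw [e1, e2]
  rcases Nat.lt_or_ge (x.N (tt b)) 2 with hx2' | hx2'
  · have hx1' : x.N (tt b) = 1 := by omega
    have hx1r : (x.N (tt b) : ℝ) = 1 := by exact_mod_cast hx1'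
    rcases Nat.eq_zero_or_pos (x.N (t2 b)) with h0 | h1
    · -- a short single
      have h0r : (x.N (t2 b) : ℝ) = 0 := by exact_mod_cast h0
      have hs : 2 * x.h ≤ 3 * b := by
        have := (RT.N_eq_zero ht2 x).1 h0
        unfold t2 at this
        omega
      rcases Nat.lt_or_ge y.h b with hyb | hyb
      · have l1 := Uy.2.1 hyb (by omega)
        rw [hx1r, h0r]
        have e3 : c * ((1 : ℝ) - 0) + c * ((y.N (tt b) : ℝ) - y.N (t2 b)) =
            c * ((y.N (tt b) : ℝ) + 1) - c * y.N (t2 b) := by ring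
        have := mul_nonneg hc hy2
        linarith
      · have l1 := Ux.2.2 hx1' hs
        rw [hx1r, h0r]
        rcases Nat.lt_or_ge (y.N (tt b)) 2 with hy2' | hy2'
        · have l2 := X_le hG D HT hyb
          have l3 : (y.N (tt b) : ℝ) ≤ 1 := by exact_mod_cast (by omega : y.N (tt b) ≤ 1)
          have l4 : c * ((y.N (tt b) : ℝ) - y.N (t2 b)) ≤ c * 1 :=
            mul_le_mul_of_nonneg_left (by linarith) hc
          linarith
        · have l2 := ihy hyb hy2'
          linarith
    · have h1e : (x.N (t2 b) : ℝ) = 1 := by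
        have : x.N (t2 b) = 1 := by omega
        exact_mod_cast this
      have l1 := Uy.1
      rw [hx1r, h1e]
      linarith
  · have l1 := ihx hx hx2'
    have l2 := Uy.1
    linarith

private theorem high_gain_aux (hG : G.Connected) {g : ℕ → ℝ} {b : ℕ} {K ε : ℝ}
    (D : ND g b K ε) {x : RT} {S : Finset V} {r : V} (H : Tr G x S r) :
    b ≤ x.h → 2 ≤ x.N (tt b) → X G g b S r b ≤ K * x.e -
      K * (ε * b) / 1200 * ((x.N (tt b) : ℝ) - x.N (t2 b)) := by
  have hb := bpos D
  have hK := D.Kpos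
  have hε := D.εpos
  have hc : 0 ≤ K * (ε * b) / 1200 := by positivity
  have htt : 1 ≤ tt b := by unfold tt; omega
  have ht2 : 1 ≤ t2 b := by unfold t2; omega
  have htb : tt b ≤ b := by unfold tt; omega
  induction H with
  | pt r =>
    intro h
    have : (RT.pt).h = 0 := rfl
    omega
  | @ext x S c r H had hr ih =>
    intro hh hN
    have h1 : (RT.ext x).N (tt b) = if x.h + 1 = tt b then 1 else x.N (tt b) := rfl
    have h2 : (RT.ext x).N (t2 b) = if x.h + 1 = t2 b then 1 else x.N (t2 b) := rfl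
    have h4 : (RT.ext x).h = x.h + 1 := rfl
    have h5 : (RT.ext x).e = x.e + 1 := rfl
    rcases Nat.lt_or_ge x.h b with hlt | hge
    · have h6 : (RT.ext x).h = b := by omega
      have l1 := (low_gain hG D (Tr.ext r H had hr) h6.le).1
      rw [h6] at l1
      have l2 := D.cf.sum
      have hN2 : (0 : ℝ) ≤ ((RT.ext x).N (t2 b) : ℝ) := Nat.cast_nonneg _
      have hNr : (2 : ℝ) ≤ ((RT.ext x).N (tt b) : ℝ) := by exact_mod_cast hN
      have l3 : (((RT.ext x).N (tt b) - 1 : ℕ) : ℝ) = ((RT.ext x).N (tt b) : ℝ) - 1 := by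
        rw [Nat.cast_sub (by omega)]
        simp
      rw [l3] at l1
      have e2 : K * (ε * b) / 600 * (((RT.ext x).N (tt b) : ℝ) - 1) =
        K * (ε * b) / 1200 * (2 * ((RT.ext x).N (tt b) : ℝ) - 2) := by ring
      rw [e2] at l1
      have l4 : K * (ε * b) / 1200 * (((RT.ext x).N (tt b) : ℝ) - (RT.ext x).N (t2 b)) ≤
          K * (ε * b) / 1200 * (2 * ((RT.ext x).N (tt b) : ℝ) - 2) :=
        mul_le_mul_of_nonneg_left (by linarith) hc
      have e3 : K * (((RT.ext x).e : ℝ) - b) = K * (RT.ext x).e - K * b := by ring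
      rw [e3] at l1
      linarith
    · have h6 : x.h + 1 ≠ tt b := by omega
      rw [h1, if_neg h6] at hN ⊢
      have l1 := ih hge hN
      have l2 := X_ext_high hG D.cf.nonneg (b := b) H.mem had
      have l3 := D.cf.top
      have l4 : (x.N (t2 b) : ℝ) ≤ ((RT.ext x).N (t2 b) : ℝ) := by
        rw [h2]
        split_ifs with h7
        · have : x.N (t2 b) = 0 := (RT.N_eq_zero ht2 x).2 (by omega)
          rw [this]
          simp
        · exact le_rfl
      have l5 : K * (ε * b) / 1200 * ((x.N (tt b) : ℝ) - (RT.ext x).N (t2 b)) ≤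
          K * (ε * b) / 1200 * ((x.N (tt b) : ℝ) - x.N (t2 b)) :=
        mul_le_mul_of_nonneg_left (by linarith) hc
      rw [h5]
      push_cast
      linarith
  | @join x y S T r HS HT hST ihx ihy =>
    intro hh hN
    have h1 : (RT.join x y).N (tt b) = x.N (tt b) + y.N (tt b) := rfl
    have h2 : (RT.join x y).N (t2 b) = x.N (t2 b) + y.N (t2 b) := rfl
    have h4 : (RT.join x y).h = max x.h y.h := rfl
    have h5 : (RT.join x y).e = x.e + y.e := rfl
    rw [h1] at hN ⊢
    rw [h2, h5]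
    rw [h4] at hh
    push_cast
    rcases Nat.lt_or_ge x.h b with hlt | hge
    · have hy : b ≤ y.h := by omega
      have := join_le hG D HT HS hy (by omega) ihy ihx
      rw [Finset.union_comm T S] at this
      have e1 : K * ((y.e : ℝ) + x.e) = K * ((x.e : ℝ) + y.e) := by ring
      have e2 : K * (ε * b) / 1200 *
          (((y.N (tt b) : ℝ) + x.N (tt b)) - (y.N (t2 b) + x.N (t2 b))) =
          K * (ε * b) / 1200 *
          (((x.N (tt b) : ℝ) + y.N (tt b)) - (x.N (t2 b) + y.N (t2 b))) := by ring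
      rw [e1, e2] at this
      exact this
    · exact join_le hG D HS HT hge hN ihx ihy

theorem high_gain (hG : G.Connected) {g : ℕ → ℝ} {b : ℕ} {K ε : ℝ} (D : ND g b K ε) {x : RT}
    {S : Finset V} {r : V} (H : Tr G x S r) (hh : b ≤ x.h) :
    X G g b S r b ≤ K * x.e ∧
    (2 ≤ x.N (tt b) → X G g b S r b ≤ K * x.e -
      K * (ε * b) / 1200 * ((x.N (tt b) : ℝ) - x.N (t2 b))) :=
  ⟨X_le hG D H hh, high_gain_aux hG D H hh⟩

end Pool.Agent.Helper67.HS
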