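import Pool.Agent.Helper67.HS.LegHair

/-! # Project HS, module HS-A1: gain of a leg, linear in `ε` -/

set_option autoImplicit false

namespace Pool.Agent.Helper67.HS

open Finset Pool.Agent.Helper51.BN Pool.Agent.Helper51.ST

variable {V : Type*} [Fintype V] [DecidableEq V] {G : SimpleGraph V}

private theorem two_paths {s : ℕ} (hs : 1 ≤ s) {x : RT} (hx : 2 ≤ x.N s) : x.h + s ≤ x.e := by
  induction x with
  | pt => simp [RT.N] at hx
  | ext x ih =>
    simp only [RT.N, RT.h, RT.e] at hx ⊢
    split_ifs at hx with h1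
    · omega
    · have := ih hx
      omega
  | join x y ihx ihy =>
    simp only [RT.N, RT.h, RT.e] at hx ⊢
    have h1 := RT.N_eq_zero hs x
    have h2 := RT.N_eq_zero hs y
    have h3 := RT.h_le x
    have h4 := RT.h_le y
    rcases Nat.lt_or_ge (x.N s) 2 with h5 | h5
    · rcases Nat.lt_or_ge (y.N s) 2 with h6 | h6
      · have h7 : s ≤ x.h := by
          by_contra hc
          have := h1.2 (by omega)
          omega
        have h8 : s ≤ y.h := by
          by_contra hc
          have := h2.2 (by omega)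
          omega
        omega
      · have := ihy h6
        omega
    · have := ihx h5
      omega

private theorem single_all (hG : G.Connected) {g : ℕ → ℝ} {b t : ℕ} {K κ : ℝ} (hg : CF g b K)
    (hκ : 0 ≤ κ) (hκ1 : κ ≤ 1) (ht : 1 ≤ t) (htb : t ≤ b)
    (hlow : ∀ j < t, 2 * ∑ i ∈ range j, g i ≤ (1 - κ) * K * j) {x : RT} {S : Finset V} {r : V}
    (H : Tr G x S r) (hN : x.N t ≤ 1) {m : ℕ} (hm : m ≤ b) :
    M G g b S r m + M G g b S r (m + 1) ≤ K * x.h + (1 - κ) * K * x.w t := by
  rcases le_or_gt x.h b with hb | hb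
  · have h2 := single_light hG hg hκ hκ1 ht htb hlow H hN hb m
    have h3 := single_light hG hg hκ hκ1 ht htb hlow H hN hb (m + 1)
    have h4 := sum_range_le hg hb
    linarith
  · have h2 := single_high hG hg hκ hκ1 ht htb hlow H hN hb.le
    have h3 := M_le_X (G := G) hg.nonneg (le_refl b) S r
    have h4 := M_mono (G := G) hg.nonneg b S r hm
    have h5 := M_mono (G := G) hg.nonneg b S r (Nat.succ_le_succ hm)
    linarith

theorem leg_gain (hG : G.Connected) {g : ℕ → ℝ} {b : ℕ} {K ε : ℝ} (D : ND g b K ε) {x : RT}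
    {S : Finset V} {r : V} (H : Tr G x S r) (hN : x.N (tt b) = 1) (hh : 2 * x.h ≤ 3 * b) {m : ℕ}
    (hm : m ≤ b) :
    M G g b S r m + M G g b S r (m + 1) ≤ K * x.e - K * (ε * b) / 200 := by
  have hK := D.Kpos
  have hε := D.εpos
  have hε1 := D.ε1
  have hbig := D.big
  have hb0 : (0 : ℝ) ≤ b := Nat.cast_nonneg b
  have hb1 : (1000 : ℝ) ≤ b := by nlinarith
  have hb : 1000 ≤ b := by exact_mod_cast hb1
  have hKε : 0 < K * ε := mul_pos hK hε
  have htt : tt b = 9 * b / 10 + 1 := rfl
  have ht1 : 1 ≤ tt b := by omega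
  have htb : tt b ≤ b := by omega
  have hth : tt b ≤ x.h := by
    by_contra hc
    have := (RT.N_eq_zero ht1 x).2 (by omega)
    omega
  have he := RT.e_eq ht1 (x := x) hN.le
  obtain ⟨w, hw⟩ : ∃ w, x.e = x.h + w := ⟨x.w (tt b), by omega⟩
  have hww : x.w (tt b) = w := by omega
  have hwr : (x.e : ℝ) = x.h + w := by exact_mod_cast hw
  -- the constant `ε / 10`
  have hlow : ∀ j < tt b, 2 * ∑ i ∈ range j, g i ≤ (1 - ε / 10) * K * j := by
    intro j hj
    have h1 := range_le D.cf hε.le hε1 D.nf (j := j) (by omega)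
    have h2 : (j : ℝ) / 10 ≤ min (j : ℝ) ((b : ℝ) - j) := by
      have h3 : (0 : ℝ) ≤ j := Nat.cast_nonneg j
      have h4 : 10 * (j : ℝ) ≤ 9 * b := by
        have : 10 * j ≤ 9 * b := by omega
        exact_mod_cast this
      refine le_min (by linarith) (by linarith)
    have h5 : K * ε * ((j : ℝ) / 10) ≤ K * ε * min (j : ℝ) ((b : ℝ) - j) :=
      mul_le_mul_of_nonneg_left h2 hKε.le
    nlinarith
  have hall := single_all hG D.cf (by linarith : 0 ≤ ε / 10) (by linarith) ht1 htb hlow H hN.le hm
  rw [hww] at hall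
  have hw0 : (0 : ℝ) ≤ w := Nat.cast_nonneg w
  rcases Nat.lt_or_ge b (16 * w) with hc | hc
  · have h1 : (b : ℝ) ≤ 16 * w := by exact_mod_cast hc.le
    have h2 : K * ε * b ≤ K * ε * (16 * w) := mul_le_mul_of_nonneg_left h1 hKε.le
    rw [hwr]
    nlinarith
  · -- the first bound
    have a1 := leg_hair hG D.cf H hw hc hh hb (m := m) (by omega)
    have a2 := leg_hair hG D.cf H hw hc hh hb (m := m + 1) (by omega)
    have a3 := psi_double D.cf (w := w) (by omega)
    -- the second bound
    have a4 : M G g b S r m + M G g b S r (m + 1) ≤ K * x.e - psi g K w := by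
      rcases Nat.eq_zero_or_pos w with h0 | h0
      · subst h0
        rw [psi_zero, hwr]
        push_cast at hall ⊢
        linarith
      · have hw1 : (0 : ℝ) < w := by exact_mod_cast h0
        have hKw : 0 < K * w := mul_pos hK hw1
        have c1 := psi_nonneg D.cf (n := w) (by omega)
        have c2 := psi_le D.cf w
        have c3 : x.N (w + 1) ≤ 1 := by
          by_contra hcon
          have := two_paths (by omega) (x := x) (s := w + 1) (by omega)
          omega
        have c4 := RT.e_eq (by omega) (x := x) c3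
        have c5 : x.w (w + 1) = w := by omega
        have c6 : ∀ j < w + 1, 2 * ∑ i ∈ range j, g i ≤ (1 - psi g K w / (K * w)) * K * j := by
          intro j hj
          have d1 := psi_star D.cf (i := j) (j := w) (by omega) (by omega)
          have d2 : 2 * ∑ i ∈ range j, g i = K * j - psi g K j := by
            simp only [psi]
            ring
          have d3 : (1 - psi g K w / (K * w)) * K * j = K * j - j * psi g K w / w := by
            field_simp
          rw [d2, d3]
          have d4 : j * psi g K w / w ≤ psi g K j := by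
            rw [div_le_iff₀ hw1]
            linarith
          linarith
        have c7 := single_all hG D.cf (div_nonneg c1 hKw.le) ((div_le_one hKw).2 c2)
          (by omega) (by omega) c6 H c3 hm
        rw [c5] at c7
        have c8 : (1 - psi g K w / (K * w)) * K * w = K * w - psi g K w := by
          field_simp
        rw [c8] at c7
        rw [hwr]
        linarith
    -- the small balls
    have b1 : x.h / 2 + 2 * w + 2 ≤ b := by omega
    have b2 := D.low (n := x.h / 2 + 2 * w + 2) b1
    have b3 : (12 / 100 : ℝ) * b ≤ min ((x.h / 2 + 2 * w + 2 : ℕ) : ℝ)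
        ((b : ℝ) - ((x.h / 2 + 2 * w + 2 : ℕ) : ℝ)) := by
      have e1 : 12 * b ≤ 100 * (x.h / 2 + 2 * w + 2) := by omega
      have e2 : 100 * (x.h / 2 + 2 * w + 2) ≤ 88 * b := by omega
      have e3 : 12 * (b : ℝ) ≤ 100 * ((x.h / 2 + 2 * w + 2 : ℕ) : ℝ) := by exact_mod_cast e1
      have e4 : 100 * ((x.h / 2 + 2 * w + 2 : ℕ) : ℝ) ≤ 88 * b := by exact_mod_cast e2
      refine le_min (by linarith) (by linarith)
    have b4 : K * ε * ((12 / 100 : ℝ) * b) ≤ K * ε * min ((x.h / 2 + 2 * w + 2 : ℕ) : ℝ)
        ((b : ℝ) - ((x.h / 2 + 2 * w + 2 : ℕ) : ℝ)) := mul_le_mul_of_nonneg_left b3 hKε.le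
    have b5 : K * 1000 ≤ K * (ε * b) := mul_le_mul_of_nonneg_left hbig hK.le
    set p := psi g K (x.h / 2 + 2 * w + 2)
    have b6 : (12 / 100 : ℝ) * (K * (ε * b)) ≤ p := by
      refine le_trans (le_of_eq ?_) (b4.trans (le_trans (le_of_eq ?_) b2))
      · ring
      · ring
    have b7 : K * (x.e : ℝ) = K * x.h + K * w := by rw [hwr]; ring
    have b8 : 0 ≤ K * (w : ℝ) := by positivity
    linarith

end Pool.Agent.Helper67.HS
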