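import Pool.Agent.Helper67.HS.Psi

/-! # Project HS, module HS-A1a: the cost of a leg with short hair -/

set_option autoImplicit false

namespace Pool.Agent.Helper67.HS

open Finset Pool.Agent.Helper51.BN Pool.Agent.Helper51.ST

variable {V : Type*} [Fintype V] [DecidableEq V] {G : SimpleGraph V}

private theorem sum_half (f : ℕ → ℝ) (a d : ℕ) :
    ∑ y ∈ Ico (2 * a) (2 * (a + d)), f (y / 2) = 2 * ∑ r ∈ Ico a (a + d), f r := by
  induction d with
  | zero => simp
  | succ d ih =>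
    have h1 : 2 * (a + (d + 1)) = 2 * (a + d) + 1 + 1 := by ring
    rw [h1, Finset.sum_Ico_succ_top (by omega), Finset.sum_Ico_succ_top (by omega), ih,
      ← add_assoc a d 1, Finset.sum_Ico_succ_top (by omega)]
    have h2 : 2 * (a + d) / 2 = a + d := by omega
    have h3 : (2 * (a + d) + 1) / 2 = a + d := by omega
    rw [h2, h3]
    ring

private theorem sum_leg {f : ℕ → ℝ} (hf : ∀ i, 0 ≤ f i) {h n : ℕ} (hn : n ≤ h) :
    ∑ i ∈ range n, f ((h - i) / 2) ≤ 2 * ∑ r ∈ Ico ((h - n + 1) / 2) (h / 2 + 1), f r := by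
  obtain ⟨d, hd⟩ : ∃ d, h / 2 + 1 = (h - n + 1) / 2 + d :=
    Nat.exists_eq_add_of_le (by omega)
  have h1 : ∑ i ∈ range n, f ((h - i) / 2) = ∑ y ∈ Ico (h - n + 1) (h + 1), f (y / 2) := by
    refine Finset.sum_nbij' (fun i => h - i) (fun y => h - y) ?_ ?_ ?_ ?_ ?_
    · intro i hi
      have := Finset.mem_range.mp hi
      exact Finset.mem_Ico.mpr ⟨by omega, by omega⟩
    · intro y hy
      have := Finset.mem_Ico.mp hy
      exact Finset.mem_range.mpr (by omega)
    · intro i hi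
      have := Finset.mem_range.mp hi
      show h - (h - i) = i
      omega
    · intro y hy
      have := Finset.mem_Ico.mp hy
      show h - (h - y) = y
      omega
    · intro i _
      rfl
  rw [h1, hd, ← sum_half]
  refine Finset.sum_le_sum_of_subset_of_nonneg ?_ fun i _ _ => hf _
  exact Finset.Ico_subset_Ico (by omega) (by omega)

/-- One ball of radius about `(h - i) / 2 + 2 w + 1` covers the part of the leg beyond distance
`i` from the root. -/
theorem leg_hair (hG : G.Connected) {g : ℕ → ℝ} {b : ℕ} {K : ℝ} (hg : CF g b K) {x : RT}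
    {S : Finset V} {r : V} (H : Tr G x S r) {w : ℕ} (hw : x.e = x.h + w) (hwb : 16 * w ≤ b)
    (h2 : 2 * x.h ≤ 3 * b) (hb : 1000 ≤ b) {m : ℕ} (hm : m ≤ b + 1) :
    2 * M G g b S r m ≤ K * x.h + 2 * K - 2 * psi g K (x.h / 2 + 2 * w + 2) +
      2 * psi g K (2 * w + 1) := by
  have hK : 0 ≤ K := (hg.nonneg b).trans hg.top
  set q := 2 * w + 1 with hq
  set f : ℕ → ℝ := fun j => g (j + q) with hf
  have hf0 : ∀ i, 0 ≤ f i := fun i => hg.nonneg _
  -- the terms
  have h3 : ∀ i, i < x.h → F G g b S r (-(i : ℤ) - 1) ≤ f ((x.h - i) / 2) := by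
    intro i hi
    refine (hair hG hg.nonneg H (p := w) (by omega) (by omega) i).trans ?_
    exact P_one (g := f) hf0 (by omega) (by omega)
  have h4 : ∀ i, x.h ≤ i → F G g b S r (-(i : ℤ) - 1) ≤ 0 := by
    intro i hi
    refine (hair hG hg.nonneg H (p := w) (by omega) (by omega) i).trans ?_
    have h5 : x.h - i = 0 := by omega
    rw [h5]
    exact (P_zero (g := f) hf0 _).le
  have h5 : M G g b S r m ≤ ∑ i ∈ range (min m x.h), f ((x.h - i) / 2) := by
    have h6 : M G g b S r m ≤ ∑ i ∈ range m, if i < x.h then f ((x.h - i) / 2) else 0 := by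
      refine Finset.sum_le_sum fun i _ => ?_
      split_ifs with hi
      · exact h3 i hi
      · exact h4 i (by omega)
    refine h6.trans (le_of_eq ?_)
    rw [← Finset.sum_filter]
    refine Finset.sum_congr ?_ fun _ _ => rfl
    ext i
    simp only [Finset.mem_filter, Finset.mem_range, lt_min_iff]
  set n := min m x.h with hn
  have hnh : n ≤ x.h := min_le_right _ _
  have h6 := sum_leg hf0 hnh
  set a := (x.h - n + 1) / 2 with ha
  have h7 : ∑ r ∈ Ico a (x.h / 2 + 1), f r =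
      ∑ i ∈ range (x.h / 2 + 2 * w + 2), g i - ∑ i ∈ range (a + q), g i := by
    have h8 : ∑ r ∈ Ico a (x.h / 2 + 1), f r = ∑ i ∈ Ico (a + q) (x.h / 2 + 1 + q), g i := by
      rw [Finset.sum_Ico_add' g a (x.h / 2 + 1) q]
    have h9 : x.h / 2 + 2 * w + 2 = x.h / 2 + 1 + q := by omega
    rw [h8, h9, Finset.sum_Ico_eq_sub g (by omega)]
  have h8 := psi_add_le hg q a
  have h9 : 2 * ((x.h / 2 : ℕ) : ℝ) ≤ x.h := by
    have : 2 * (x.h / 2) ≤ x.h := by omega
    exact_mod_cast this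
  have h10 : K * (2 * ((x.h / 2 : ℕ) : ℝ)) ≤ K * x.h := mul_le_mul_of_nonneg_left h9 hK
  have h11 : q + a = a + q := by omega
  rw [h11] at h8
  simp only [psi] at h8 ⊢
  have h12 : ((x.h / 2 + 2 * w + 2 : ℕ) : ℝ) = ((x.h / 2 : ℕ) : ℝ) + (q : ℝ) + 1 := by
    rw [hq]
    push_cast
    ring
  have h13 : ((a + q : ℕ) : ℝ) = (a : ℝ) + q := by push_cast; ring
  rw [h12]
  rw [h13] at h8
  nlinarith [h5, h6, h7, h8, h10]

end Pool.Agent.Helper67.HS
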