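import Pool.Agent.Helper67.HS.Height

/-! # Project HS, module HS-C4b: a thin ball contains ancestors of all heights -/

set_option autoImplicit false

namespace Pool.Agent.Helper67.HS

open Finset Pool.Agent.Helper51.ST Pool.Agent.Helper64.FB

variable {V : Type*} [Fintype V] [DecidableEq V] {G : SimpleGraph V}

namespace LevelAux

theorem geo (hG : G.Connected) (x y : V) : ∃ f : ℕ → V, ∀ t ≤ G.dist x y,
    G.dist x (f t) = t ∧ G.dist x (f t) + G.dist (f t) y = G.dist x y := by
  have : ∀ t, ∃ z, t ≤ G.dist x y →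
      (G.dist x z = t ∧ G.dist x z + G.dist z y = G.dist x y) := by
    intro t
    by_cases h : t ≤ G.dist x y
    · obtain ⟨z, h1, h2⟩ := exists_between hG x y h
      exact ⟨z, fun _ => ⟨h1, h2⟩⟩
    · exact ⟨x, fun h' => absurd h' h⟩
  choose f hf using this
  exact ⟨f, fun t ht => hf t ht⟩

theorem le_ht {r v w : V} (h : G.dist r v + G.dist v w = G.dist r w) :
    G.dist v w ≤ ht G univ r v := by
  unfold ht
  exact Finset.le_sup (f := fun w => G.dist v w) (Finset.mem_filter.2 ⟨mem_univ _, h⟩)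

theorem exists_ht (r v : V) : ∃ w, G.dist r v + G.dist v w = G.dist r w ∧
    G.dist v w = ht G univ r v := by
  have hne : (univ.filter fun w => G.dist r v + G.dist v w = G.dist r w).Nonempty :=
    ⟨v, by simp⟩
  obtain ⟨w, hw, e⟩ := Finset.exists_mem_eq_sup _ hne (fun w => G.dist v w)
  exact ⟨w, (mem_filter.1 hw).2, e.symm⟩

theorem count {B : Finset V} (A P : ℕ → V) (ρ J : ℕ) (hA : ∀ i ≤ ρ, A i ∈ B)
    (hA' : ∀ i ≤ ρ, ∀ j ≤ ρ, A i = A j → i = j) (hP : ∀ j, 1 ≤ j → j ≤ J → P j ∈ B)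
    (hP' : ∀ i, 1 ≤ i → i ≤ J → ∀ j, 1 ≤ j → j ≤ J → P i = P j → i = j)
    (hd : ∀ i ≤ ρ, ∀ j, 1 ≤ j → j ≤ J → A i ≠ P j) : ρ + 1 + J ≤ B.card := by
  have h1 : ((range (ρ + 1)).image A).card = ρ + 1 := by
    rw [card_image_of_injOn, card_range]
    intro i hi j hj e
    rw [mem_coe, mem_range] at hi hj
    exact hA' i (by omega) j (by omega) e
  have h2 : ((Icc 1 J).image P).card = J := by
    rw [card_image_of_injOn, Nat.card_Icc, Nat.add_sub_cancel]
    intro i hi j hj e
    rw [mem_coe, mem_Icc] at hi hj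
    exact hP' i hi.1 hi.2 j hj.1 hj.2 e
  have h3 : Disjoint ((range (ρ + 1)).image A) ((Icc 1 J).image P) := by
    rw [disjoint_left]
    intro z hz hz'
    rw [mem_image] at hz hz'
    obtain ⟨i, hi, e⟩ := hz
    obtain ⟨j, hj, e'⟩ := hz'
    rw [mem_range] at hi
    rw [mem_Icc] at hj
    exact hd i (by omega) j hj.1 hj.2 (e.trans e'.symm)
  have h4 : (range (ρ + 1)).image A ∪ (Icc 1 J).image P ⊆ B := by
    intro z hz
    rw [mem_union, mem_image, mem_image] at hz
    rcases hz with ⟨i, hi, e⟩ | ⟨j, hj, e⟩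
    · rw [mem_range] at hi
      rw [← e]
      exact hA i (by omega)
    · rw [mem_Icc] at hj
      rw [← e]
      exact hP j hj.1 hj.2
  have h5 := card_le_card h4
  rw [card_union_of_disjoint h3, h1, h2] at h5
  exact h5

end LevelAux

open LevelAux

theorem level_hit (hT : G.IsTree) {r u : V} {ρ a s : ℕ} (hr : ρ < G.dist u r)
    (hg : (univ.filter fun v => G.dist u v ≤ ρ).card ≤ ρ + 1 + a) (h1 : a ≤ s)
    (h2 : s + a + 1 ≤ ρ) : ∃ v, G.dist u v ≤ ρ ∧ v ≠ r ∧ ht G univ r v = s := by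
  classical
  have hG := hT.connected
  obtain ⟨A, hA⟩ := geo hG u r
  have tri : ∀ x y z : V, G.dist x z ≤ G.dist x y + G.dist y z := fun x y z => hG.dist_triangle
  have cm : ∀ x y : V, G.dist x y = G.dist y x := fun x y => SimpleGraph.dist_comm
  -- depth of the points of `[u, r]`
  have dA : ∀ i ≤ ρ, G.dist u (A i) = i ∧ G.dist r (A i) + i = G.dist r u := by
    intro i hi
    obtain ⟨e1, e2⟩ := hA i (by omega)
    have := cm r (A i)
    have := cm r u
    omega
  have A0 : A 0 = u := by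
    have := (dA 0 (Nat.zero_le _)).1
    exact ((hG.dist_eq_zero_iff).1 this).symm
  have AA : ∀ i ≤ ρ, ∀ k ≤ i, G.dist (A i) (A k) = i - k := by
    intro i hi k hk
    obtain ⟨e1, e2⟩ := hA i (by omega)
    obtain ⟨f1, f2⟩ := hA k (by omega)
    obtain ⟨z, g1, g2⟩ := exists_between hG u (A i) (t := k) (by omega)
    have e3 : z = A k := by
      refine between_unique hT (c := u) (v := r) ?_ f2 (by omega)
      have t1 := tri z (A i) r
      have t2 := tri u z r
      omega
    rw [e3] at g2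
    have := cm (A k) (A i)
    omega
  have Ainj : ∀ i ≤ ρ, ∀ j ≤ ρ, A i = A j → i = j := by
    intro i hi j hj e
    have e1 := (dA i hi).1
    have e2 := (dA j hj).1
    rw [e] at e1
    omega
  have Ar : ∀ i ≤ ρ, A i ≠ r := by
    intro i hi e
    have e1 := (dA i hi).1
    rw [e] at e1
    omega
  have AB : ∀ i ≤ ρ, A i ∈ univ.filter fun v => G.dist u v ≤ ρ := by
    intro i hi
    rw [mem_filter]
    exact ⟨mem_univ _, by rw [(dA i hi).1]; exact hi⟩
  -- heights
  have hge : ∀ i ≤ ρ, i ≤ ht G univ r (A i) := by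
    intro i hi
    have e1 := dA i hi
    have e2 : G.dist r (A i) + G.dist (A i) u = G.dist r u := by
      rw [cm (A i) u, e1.1]
      exact e1.2
    have := le_ht e2
    rw [cm (A i) u, e1.1] at this
    exact this
  -- the height of `u`
  have h0 : ht G univ r (A 0) ≤ s := by
    by_contra hc
    obtain ⟨w, w1, w2⟩ := exists_ht (G := G) r (A 0)
    obtain ⟨P, hP⟩ := geo hG (A 0) w
    have key := count (B := univ.filter fun v => G.dist u v ≤ ρ) A P ρ (a + 1) AB Ainj ?_ ?_ ?_
    · omega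
    · intro j hj1 hj2
      obtain ⟨e1, e2⟩ := hP j (by omega)
      rw [mem_filter]
      refine ⟨mem_univ _, ?_⟩
      rw [A0] at e1
      omega
    · intro i hi1 hi2 j hj1 hj2 e
      obtain ⟨e1, e2⟩ := hP i (by omega)
      obtain ⟨f1, f2⟩ := hP j (by omega)
      rw [e] at e1
      omega
    · intro i hi j hj1 hj2 e
      obtain ⟨e1, e2⟩ := hP j (by omega)
      obtain ⟨f1, f2⟩ := dA i hi
      have t1 := tri r (P j) w
      rw [← e] at e1 e2 t1
      rw [A0] at w1 e1 e2
      rw [A0] at w2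
      omega
  -- the last index
  obtain ⟨i, hi, hiρ, hlast⟩ : ∃ i, ht G univ r (A i) ≤ s ∧ i ≤ ρ ∧
      ∀ j, i < j → j ≤ ρ → s < ht G univ r (A j) := by
    obtain ⟨i, hi1, hi2⟩ := Finset.exists_max_image
      ((range (ρ + 1)).filter fun i => ht G univ r (A i) ≤ s) id
      ⟨0, mem_filter.2 ⟨mem_range.2 (by omega), h0⟩⟩
    rw [mem_filter, mem_range] at hi1
    refine ⟨i, hi1.2, by omega, ?_⟩
    intro j hij hj
    by_contra hc
    have := hi2 j (mem_filter.2 ⟨mem_range.2 (by omega), by omega⟩)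
    simp only [id] at this
    omega
  have hiρ' : i + 1 ≤ ρ := by
    rcases Nat.lt_or_ge i ρ with h | h
    · exact h
    · have := hge ρ le_rfl
      have e : i = ρ := by omega
      rw [e] at hi
      omega
  refine ⟨A i, by rw [(dA i hiρ).1]; exact hiρ, Ar i hiρ, ?_⟩
  by_contra hne
  have hlt : ht G univ r (A i) < s := by omega
  have hi1 := hlast (i + 1) (by omega) hiρ'
  have hgei := hge i hiρ
  obtain ⟨w, w1, w2⟩ := exists_ht (G := G) r (A (i + 1))
  obtain ⟨P, hP⟩ := geo hG (A (i + 1)) w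
  have key := count (B := univ.filter fun v => G.dist u v ≤ ρ) A P ρ (a + 1) AB Ainj ?_ ?_ ?_
  · omega
  · intro j hj1 hj2
    obtain ⟨e1, e2⟩ := hP j (by omega)
    rw [mem_filter]
    refine ⟨mem_univ _, ?_⟩
    have t1 := tri u (A (i + 1)) (P j)
    have := (dA (i + 1) hiρ').1
    omega
  · intro k hk1 hk2 j hj1 hj2 e
    obtain ⟨e1, e2⟩ := hP k (by omega)
    obtain ⟨f1, f2⟩ := hP j (by omega)
    rw [e] at e1
    omega
  · intro k hk j hj1 hj2 e
    obtain ⟨e1, e2⟩ := hP j (by omega)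
    obtain ⟨f1, f2⟩ := dA k hk
    obtain ⟨g1, g2⟩ := dA (i + 1) hiρ'
    obtain ⟨k1, k2⟩ := dA i hiρ
    have t1 := tri r (P j) w
    have t2 := tri r (A (i + 1)) (P j)
    rw [← e] at e1 e2 t1 t2
    -- so `k ≤ i`
    have hki : k ≤ i := by omega
    have d1 := AA i hiρ k hki
    have t3 := tri (A i) (A k) w
    have t4 := tri r (A i) w
    have e5 : G.dist r (A i) + G.dist (A i) w = G.dist r w := by omega
    have := le_ht e5
    omega

end Pool.Agent.Helper67.HS
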