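import Pool.Agent.Helper67.HS.Leg

/-! # Project HS, module HS-A2: trees of height at most `b` -/

set_option autoImplicit false

namespace Pool.Agent.Helper67.HS

open Finset Pool.Agent.Helper51.BN Pool.Agent.Helper51.ST

variable {V : Type*} [Fintype V] [DecidableEq V] {G : SimpleGraph V}

private theorem one_le_tt (b : ℕ) : 1 ≤ tt b := by
  unfold tt
  omega

private theorem light_U (hG : G.Connected) {g : ℕ → ℝ} {b : ℕ} {K : ℝ} (hg : CF g b K) {x : RT}
    {S : Finset V} {r : V} (H : Tr G x S r) (hh : x.h ≤ b) (m : ℕ) :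
    M G g b S r m + M G g b S r (m + 1) ≤
      2 * ∑ j ∈ range x.h, g j + K * ((x.e : ℝ) - x.h) := by
  have h1 := light hG hg H.built hh m
  have h2 := light hG hg H.built hh (m + 1)
  unfold M
  linarith

private theorem low_join (hG : G.Connected) {g : ℕ → ℝ} {b : ℕ} {K ε : ℝ} (D : ND g b K ε)
    {x y : RT} {S T : Finset V} {r : V} (HS : Tr G x S r) (HT : Tr G y T r) (hx : x.h ≤ b)
    (hyx : y.h ≤ x.h)
    (hS1 : X G g b S r x.h ≤ g 0 + 2 * ∑ j ∈ Icc 1 x.h, g j + K * ((x.e : ℝ) - x.h) -
      K * (ε * b) / 600 * ((x.N (tt b) - 1 : ℕ) : ℝ))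
    (hS2 : 2 ≤ x.N (tt b) → ∀ m ≤ b, M G g b S r m + M G g b S r (m + 1) ≤
      2 * ∑ j ∈ range x.h, g j + K * ((x.e : ℝ) - x.h) -
        K * (ε * b) / 600 * x.N (tt b))
    (hT2 : 2 ≤ y.N (tt b) → ∀ m ≤ b, M G g b T r m + M G g b T r (m + 1) ≤
      2 * ∑ j ∈ range y.h, g j + K * ((y.e : ℝ) - y.h) -
        K * (ε * b) / 600 * y.N (tt b)) :
    X G g b (S ∪ T) r x.h ≤ g 0 + 2 * ∑ j ∈ Icc 1 x.h, g j +
      K * (((x.e + y.e : ℕ) : ℝ) - x.h) -
      K * (ε * b) / 600 * ((x.N (tt b) + y.N (tt b) - 1 : ℕ) : ℝ) ∧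
    (2 ≤ x.N (tt b) + y.N (tt b) → ∀ m ≤ b, M G g b (S ∪ T) r m + M G g b (S ∪ T) r (m + 1) ≤
      2 * ∑ j ∈ range x.h, g j + K * (((x.e + y.e : ℕ) : ℝ) - x.h) -
        K * (ε * b) / 600 * ((x.N (tt b) + y.N (tt b) : ℕ) : ℝ)) := by
  have hg := D.cf
  have hy : y.h ≤ b := hyx.trans hx
  have hK : 0 < K := D.Kpos
  have hεb : 1000 ≤ ε * b := D.big
  set g3 : ℝ := K * (ε * b) / 600 with hg3
  have hg30 : 0 < g3 := by positivity
  have hg2 : K * (ε * b) / 200 = 3 * g3 := by rw [hg3]; ring
  have hNx := RT.N_eq_zero (one_le_tt b) x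
  have hNy := RT.N_eq_zero (one_le_tt b) y
  have hpy := psi_nonneg hg hy
  have hpx := psi_nonneg hg hx
  -- the bound for `T`
  have hTg : ∀ m ≤ b, M G g b T r m + M G g b T r (m + 1) ≤ K * y.e - g3 * y.N (tt b) := by
    intro m hm
    have hl := light_U hG hg HT hy m
    unfold psi at hpy
    rcases Nat.lt_or_ge (y.N (tt b)) 2 with h | h
    · rcases Nat.lt_or_ge (y.N (tt b)) 1 with h1 | h1
      · have h0 : y.N (tt b) = 0 := by omega
        rw [h0]
        push_cast
        linarith
      · have h0 : y.N (tt b) = 1 := by omega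
        have h2 := leg_gain hG D HT h0 (by omega) hm
        rw [hg2] at h2
        rw [h0]
        push_cast
        linarith
    · have h2 := hT2 h m hm
      linarith
  refine ⟨?_, ?_⟩
  · have h1 := X_join hG hg.nonneg hx S T r
    have h2 := hTg x.h hx
    have h3 : ((x.N (tt b) + y.N (tt b) - 1 : ℕ) : ℝ) ≤
        ((x.N (tt b) - 1 : ℕ) : ℝ) + y.N (tt b) := by
      exact_mod_cast (by omega : x.N (tt b) + y.N (tt b) - 1 ≤ x.N (tt b) - 1 + y.N (tt b))
    have h4 := mul_le_mul_of_nonneg_left h3 hg30.le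
    push_cast at h4 ⊢
    linarith
  · intro hN m hm
    have hj1 := M_join (G := G) hg.nonneg b S T r m
    have hj2 := M_join (G := G) hg.nonneg b S T r (m + 1)
    have hT := hTg m hm
    push_cast
    rcases Nat.lt_or_ge (x.N (tt b)) 2 with h | h
    · -- `x` has one long path
      have hx1 : x.N (tt b) = 1 := by
        rcases Nat.lt_or_ge (x.N (tt b)) 1 with h1 | h1
        · have h2 := hNx.1 (by omega)
          have h3 := hNy.2 (by omega)
          omega
        · omega
      have hl := light_U hG hg HS hx m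
      rw [hx1] at hN ⊢
      rcases Nat.lt_or_ge (y.N (tt b)) 2 with h1 | h1
      · have hy1 : y.N (tt b) = 1 := by omega
        have h2 := leg_gain hG D HT hy1 (by omega) hm
        rw [hg2] at h2
        rw [hy1]
        push_cast
        linarith
      · by_cases hp : psi g K x.h ≤ 2 * g3
        · have h2 := leg_gain hG D HS hx1 (by omega) hm
          rw [hg2] at h2
          unfold psi at hp
          push_cast
          linarith
        · have h2 := hT2 h1 m hm
          have hp' := lt_of_not_ge hp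
          have h3 := psi_star hg hyx hx
          have h4 : ¬ y.h < tt b := fun hc => by
            have := hNy.2 hc
            omega
          have h5 : 9 * x.h ≤ 10 * y.h := by
            unfold tt at h4
            omega
          have h6 : 1 ≤ y.h := by
            have := one_le_tt b
            omega
          have h5' : 9 * (x.h : ℝ) ≤ 10 * y.h := by exact_mod_cast h5
          have h6' : (1 : ℝ) ≤ y.h := by exact_mod_cast h6
          have h7 : g3 ≤ psi g K y.h := by
            by_contra hc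
            have hc' := lt_of_not_ge hc
            have e1 : (y.h : ℝ) * (2 * g3) ≤ y.h * psi g K x.h :=
              mul_le_mul_of_nonneg_left hp'.le (by linarith)
            have e2 : (x.h : ℝ) * psi g K y.h ≤ x.h * g3 :=
              mul_le_mul_of_nonneg_left hc'.le (Nat.cast_nonneg _)
            have e3 : (2 * (y.h : ℝ) - x.h) * g3 ≤ 0 := by linarith
            have e4 : 0 < (2 * (y.h : ℝ) - x.h) * g3 := mul_pos (by linarith) hg30
            linarith
          unfold psi at h7
          push_cast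
          linarith
    · have h2 := hS2 h m hm
      linarith

theorem low_gain (hG : G.Connected) {g : ℕ → ℝ} {b : ℕ} {K ε : ℝ} (D : ND g b K ε) {x : RT}
    {S : Finset V} {r : V} (H : Tr G x S r) (hh : x.h ≤ b) :
    X G g b S r x.h ≤ g 0 + 2 * ∑ j ∈ Icc 1 x.h, g j + K * ((x.e : ℝ) - x.h) -
      K * (ε * b) / 600 * ((x.N (tt b) - 1 : ℕ) : ℝ) ∧
    (2 ≤ x.N (tt b) → ∀ m ≤ b, M G g b S r m + M G g b S r (m + 1) ≤
      2 * ∑ j ∈ range x.h, g j + K * ((x.e : ℝ) - x.h) -
        K * (ε * b) / 600 * x.N (tt b)) := by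
  have hg := D.cf
  induction H with
  | pt r =>
    refine ⟨?_, ?_⟩
    · have h1 := low hG hg (Tr.pt (G := G) r).built (Nat.zero_le b)
      simpa [X, RT.h, RT.e, RT.N] using h1
    · intro h
      simp [RT.N] at h
  | @ext x S c r H hadj hr ih =>
    have hx : x.h + 1 ≤ b := hh
    obtain ⟨ih1, ih2⟩ := ih (by omega)
    have HE : Tr G (RT.ext x) (insert r S) r := Tr.ext r H hadj hr
    have hNe : (RT.ext x).N (tt b) = x.N (tt b) ∨
        ((RT.ext x).N (tt b) = 1 ∧ x.N (tt b) = 0) := by
      by_cases h1 : x.h + 1 = tt b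
      · right
        refine ⟨by simp only [RT.N, if_pos h1], (RT.N_eq_zero (one_le_tt b) x).2 (by omega)⟩
      · left
        simp only [RT.N, if_neg h1]
    have hd : ∀ v ∈ insert r S, G.dist r v ≤ x.h + 1 := HE.built.dist_le hG
    have hd' : ∀ v ∈ S, G.dist c v ≤ x.h := H.built.dist_le hG
    refine ⟨?_, ?_⟩
    · have h1 := X_ext_low hG hg.nonneg H.mem hd hadj hx
      have h2 : (RT.ext x).N (tt b) - 1 = x.N (tt b) - 1 := by omega
      rw [h2]
      show X G g b (insert r S) r (x.h + 1) ≤ g 0 + 2 * ∑ j ∈ Icc 1 (x.h + 1), g j +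
        K * (((x.e + 1 : ℕ) : ℝ) - ((x.h + 1 : ℕ) : ℝ)) - _
      rw [Finset.sum_Icc_succ_top (by omega)]
      push_cast
      linarith
    · intro hN m hm
      have h1 : (RT.ext x).N (tt b) = x.N (tt b) := by omega
      rw [h1] at hN ⊢
      have h2 := ih2 hN m hm
      have h3 := M_ext hG hg.nonneg H.mem hd' hadj hx m
      have h4 := M_ext hG hg.nonneg H.mem hd' hadj hx (m + 1)
      show M G g b (insert r S) r m + M G g b (insert r S) r (m + 1) ≤
        2 * ∑ j ∈ range (x.h + 1), g j +
        K * (((x.e + 1 : ℕ) : ℝ) - ((x.h + 1 : ℕ) : ℝ)) - _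
      rw [Finset.sum_range_succ]
      push_cast
      linarith
  | @join x y S T r HS HT hST ihS ihT =>
    have hxy : max x.h y.h ≤ b := hh
    obtain ⟨ihS1, ihS2⟩ := ihS (by omega)
    obtain ⟨ihT1, ihT2⟩ := ihT (by omega)
    rcases le_total y.h x.h with h | h
    · have h1 := low_join hG D HS HT (by omega) h ihS1 ihS2 ihT2
      have h2 : (RT.join x y).h = x.h := max_eq_left h
      rw [h2]
      exact h1
    · have h1 := low_join hG D HT HS (by omega) h ihT1 ihT2 ihS2
      have h2 : (RT.join x y).h = y.h := max_eq_right h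
      have h3 : (RT.join x y).N (tt b) = y.N (tt b) + x.N (tt b) := Nat.add_comm _ _
      have h4 : (RT.join x y).e = y.e + x.e := Nat.add_comm _ _
      rw [h2, h3, h4, Finset.union_comm]
      exact h1

end Pool.Agent.Helper67.HS
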