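import Pool.Agent.Helper67.HS.Defs

/-! # Project HS, module HS-A5a: the mass of the long paths -/

set_option autoImplicit false

namespace Pool.Agent.Helper67.HS

open Finset Pool.Agent.Helper51.BN Pool.Agent.Helper51.ST

/-- The remainder used in the induction. -/
private def mf (t t' h : ℕ) : ℕ := if h < t then h else if h < t' then h - t else 0

private theorem N_mass_aux {t t' : ℕ} (ht : 1 ≤ t) (htt : t ≤ t') (x : RT) :
    t * x.N t + (t' - t) * x.N t' + mf t t' x.h ≤ x.e := by
  induction x with
  | pt => simp [RT.N, RT.h, RT.e, mf]
  | ext x ih =>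
    simp only [RT.N, RT.h, RT.e]
    unfold mf at *
    by_cases h1 : x.h + 1 = t
    · have hA : x.h < t := by omega
      rw [if_pos hA] at ih
      rw [if_pos h1]
      by_cases h2 : x.h + 1 = t'
      · have : t' - t = 0 := by omega
        rw [if_pos h2, this, if_neg (by omega), if_neg (by omega)]
        have := Nat.zero_le (t * x.N t)
        omega
      · rw [if_neg h2, if_neg (by omega), if_pos (by omega)]
        have := Nat.zero_le (t * x.N t)
        omega
    · rw [if_neg h1]
      by_cases h2 : x.h + 1 = t'
      · rw [if_pos h2]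
        have hB : ¬ x.h < t := by omega
        have hC : x.h < t' := by omega
        rw [if_neg hB, if_pos hC] at ih
        rw [if_neg (by omega), if_neg (by omega)]
        have := Nat.zero_le ((t' - t) * x.N t')
        omega
      · rw [if_neg h2]
        split_ifs at ih ⊢ <;> omega
  | join x y ihx ihy =>
    simp only [RT.N, RT.h, RT.e]
    have hm : mf t t' (max x.h y.h) ≤ mf t t' x.h + mf t t' y.h := by
      rcases max_choice x.h y.h with h | h <;> rw [h] <;> omega
    have e1 : t * (x.N t + y.N t) = t * x.N t + t * y.N t := by ring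
    have e2 : (t' - t) * (x.N t' + y.N t') = (t' - t) * x.N t' + (t' - t) * y.N t' := by ring
    rw [e1, e2]
    omega

theorem N_mass {t t' : ℕ} (ht : 1 ≤ t) (htt : t ≤ t') (x : RT) :
    t * x.N t + (t' - t) * x.N t' ≤ x.e := by
  have := N_mass_aux ht htt x
  omega

end Pool.Agent.Helper67.HS
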