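import Pool.Agent.Helper67.HS.ConvTr

/-! # Project HS, module HS-C0: sizes of the pieces and of the packings -/

set_option autoImplicit false

namespace Pool.Agent.Helper67.HS

open Finset Pool.Agent.Helper51.BN Pool.Agent.Helper51.ST Pool.Agent.Helper64.FB

variable {V : Type*} [DecidableEq V] {G : SimpleGraph V} {k A L m : ℕ} {y : Fin m → RT}
  {P : Fin m → Finset V} {q : Fin m → V} {R : ℕ} {U C : Fin m → Finset V}

theorem HD.card_eq (H : HD G k A L m y P q R U C) (i : Fin m) : (P i).card = (y i).e + 1 :=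
  (H.data.tr i).card

theorem HD.conv (H : HD G k A L m y P q R U C) (i : Fin m) : Conv G (P i) :=
  conv_tr H.tree (H.data.tr i)

private theorem HD.pack (H : HD G k A L m y P q R U C) (hR : R ≤ k) (i : Fin m) :
    (U i).card * (R + 1) ≤ (P i).card := by
  refine pack_card H.tree (H.conv i) (H.sub i) (H.sep i) ?_
  have h1 := H.card_eq i
  have h2 := H.data.big i
  omega

theorem HD.exc_eq (H : HD G k A L m y P q R U C) (hR : R ≤ k) (i : Fin m) :
    (U i).card * (R + 1) + exc P U R i = (P i).card := by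
  have h := H.pack hR i
  unfold exc
  omega

theorem HD.card_le (H : HD G k A L m y P q R U C) (hR : R ≤ k) (hR9 : 97 * k ≤ 100 * R)
    (i : Fin m) : (U i).card ≤ 17 * A := by
  have h := H.pack hR i
  rw [H.card_eq i] at h
  have h1 := H.up i
  have hA := H.A10
  by_contra hc
  push Not at hc
  have h2 : (17 * A + 1) * (R + 1) ≤ (U i).card * (R + 1) := Nat.mul_le_mul_right _ hc
  have h3 : (17 * A + 1) * (R + 1) ≤ 16 * A * k + 1 := by omega
  have h4 : (17 * A + 1) * (97 * k + 100) ≤ (17 * A + 1) * (100 * (R + 1)) :=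
    Nat.mul_le_mul_left _ (by omega)
  nlinarith

theorem HD.two_le (H : HD G k A L m y P q R U C) (hR : R + 1 ≤ k) (i : Fin m)
    (h : exc P U R i ≤ k) : 2 ≤ (U i).card := by
  have h1 := H.exc_eq (by omega : R ≤ k) i
  have h2 := H.card_eq i
  have h3 := H.data.big i
  by_contra hc
  push Not at hc
  have h4 : (U i).card * (R + 1) ≤ 1 * (R + 1) := Nat.mul_le_mul_right _ (by omega)
  omega

/-- The total of the packings. -/
theorem HD.sum_le (H : HD G k A L m y P q R U C) (hR : R ≤ k) :
    (∑ i, (U i).card) * (R + 1) + ∑ i, exc P U R i ≤ k ^ 2 + m := by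
  have h1 : (∑ i, (U i).card) * (R + 1) + ∑ i, exc P U R i = ∑ i, (P i).card := by
    rw [Finset.sum_mul, ← Finset.sum_add_distrib]
    exact Finset.sum_congr rfl fun i _ => H.exc_eq hR i
  have h2 : ∑ i, (P i).card = ∑ i, (y i).e + m := by
    rw [Finset.sum_congr rfl fun i _ => H.card_eq i, Finset.sum_add_distrib]
    simp
  have h3 := H.data.tot
  omega

theorem HD.m_le (H : HD G k A L m y P q R U C) : 80 * m ≤ k := by
  have h1 := H.data.cnt
  have h2 := H.A10
  have h3 : 8 * 10 * m ≤ 8 * A * m := Nat.mul_le_mul_right _ (by omega)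
  omega

end Pool.Agent.Helper67.HS
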