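import Pool.Agent.Helper67.HS.High

/-! # Project HS, module HS-A4: gain of a piece -/

set_option autoImplicit false

namespace Pool.Agent.Helper67.HS

open Finset Pool.Agent.Helper51.BN Pool.Agent.Helper51.ST

variable {V : Type*} [Fintype V] [DecidableEq V] {G : SimpleGraph V}

omit [Fintype V] [DecidableEq V] in
private theorem one_ballA {g : ℕ → ℝ} {b : ℕ} {K ε : ℝ} (D : ND g b K ε) {x : RT}
    {S : Finset V} {q : V} (he : 8 * b ≤ x.e) (hS : ∀ v ∈ S, G.dist q v ≤ b) :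
    ∃ (C : Finset (V × ℕ)) (x₁ x₂ : RT), (∀ p ∈ C, p.2 ≤ b) ∧
      (∀ v ∈ S, ∃ p ∈ C, G.dist p.1 v ≤ p.2) ∧ x₁.e + x₂.e = x.e ∧
      x.N (tt b) ≤ x₁.N (tt b) + x₂.N (tt b) ∧
      (2 * b + 1) * cost g C ≤ K * x.e - K * (ε * b) / 1200 *
        ((x₁.N (tt b) : ℝ) + x₂.N (tt b) - x₁.N (t2 b) - x₂.N (t2 b) - 2) := by
  refine ⟨{(q, b)}, x, RT.pt, by simp, fun v hv => ⟨(q, b), by simp, hS v hv⟩, by simp [RT.e],
    by simp [RT.N], ?_⟩
  have h1 : cost g ({(q, b)} : Finset (V × ℕ)) = g b := by simp [cost]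
  rw [h1]
  simp only [RT.N, Nat.cast_zero, add_zero, sub_zero]
  have hK := D.Kpos
  have hε := D.εpos
  have hε1 := D.ε1
  have hbig := D.big
  have hb : (1000 : ℝ) ≤ b := by nlinarith
  have ht1 : 1 ≤ tt b := by unfold tt; omega
  have ht : (9 : ℝ) * b ≤ 10 * tt b := by
    have : 9 * b ≤ 10 * tt b := by unfold tt; omega
    exact_mod_cast this
  have h6 : (tt b : ℝ) * x.N (tt b) + x.w (tt b) ≤ x.e := by exact_mod_cast RT.N_mul_le ht1 x
  have hw : (0 : ℝ) ≤ x.w (tt b) := Nat.cast_nonneg _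
  have hN : (0 : ℝ) ≤ x.N (tt b) := Nat.cast_nonneg _
  have hN' : (0 : ℝ) ≤ x.N (t2 b) := Nat.cast_nonneg _
  have h13 : (8 : ℝ) * b ≤ x.e := by exact_mod_cast he
  have h14 : (2 * (b : ℝ) + 1) * g b ≤ 3 * b * K := by
    have h15 := D.cf.nonneg b
    have h16 := D.cf.top
    exact mul_le_mul (by linarith) h16 h15 (by positivity)
  have h7 : (9 : ℝ) * (b * x.N (tt b)) ≤ 10 * x.e := by nlinarith
  have h8 : ε * (b * x.N (tt b)) ≤ 1 * (b * x.N (tt b)) := by
    apply mul_le_mul_of_nonneg_right hε1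
    positivity
  have h9 : K * (ε * b) / 1200 * ((x.N (tt b) : ℝ) - x.N (t2 b) - 2) ≤
      K * (ε * (b * x.N (tt b))) / 1200 := by
    have h10 : 0 ≤ K * (ε * b) / 1200 := by positivity
    calc K * (ε * b) / 1200 * ((x.N (tt b) : ℝ) - x.N (t2 b) - 2) ≤
        K * (ε * b) / 1200 * (x.N (tt b) : ℝ) := mul_le_mul_of_nonneg_left (by linarith) h10
      _ = K * (ε * (b * x.N (tt b))) / 1200 := by ring
  have h11 : K * (ε * (b * x.N (tt b))) ≤ K * (2 * x.e) :=
    mul_le_mul_of_nonneg_left (by linarith) hK.le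
  have h12 : K * (8 * b) ≤ K * x.e := mul_le_mul_of_nonneg_left h13 hK.le
  nlinarith

omit [Fintype V] [DecidableEq V] in
private theorem one_highA {b : ℕ} {K ε Y : ℝ} (hK : 0 ≤ K * (ε * b) / 1200) {x : RT}
    (h1 : Y ≤ K * x.e) (h2 : 2 ≤ x.N (tt b) → Y ≤ K * x.e -
      K * (ε * b) / 1200 * ((x.N (tt b) : ℝ) - x.N (t2 b))) :
    Y ≤ K * x.e - K * (ε * b) / 1200 * ((x.N (tt b) : ℝ) - x.N (t2 b) - 1) := by
  rcases Nat.lt_or_ge (x.N (tt b)) 2 with h | h
  · have h3 : (x.N (tt b) : ℝ) ≤ 1 := by exact_mod_cast (by omega : x.N (tt b) ≤ 1)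
    have h4 : (0 : ℝ) ≤ x.N (t2 b) := Nat.cast_nonneg _
    have h5 : K * (ε * b) / 1200 * ((x.N (tt b) : ℝ) - x.N (t2 b) - 1) ≤ 0 :=
      mul_nonpos_of_nonneg_of_nonpos hK (by linarith)
    linarith
  · have h3 := h2 h
    have h5 : K * (ε * b) / 1200 * ((x.N (tt b) : ℝ) - x.N (t2 b) - 1) ≤
        K * (ε * b) / 1200 * ((x.N (tt b) : ℝ) - x.N (t2 b)) :=
      mul_le_mul_of_nonneg_left (by linarith) hK
    linarith

theorem piece_gain (hG : G.Connected) {g : ℕ → ℝ} {b : ℕ} {K ε : ℝ} (D : ND g b K ε) {x : RT}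
    {S : Finset V} {r : V} (H : Tr G x S r) (he : 8 * b ≤ x.e) :
    ∃ (C : Finset (V × ℕ)) (x₁ x₂ : RT), (∀ p ∈ C, p.2 ≤ b) ∧
      (∀ v ∈ S, ∃ p ∈ C, G.dist p.1 v ≤ p.2) ∧ x₁.e + x₂.e = x.e ∧
      x.N (tt b) ≤ x₁.N (tt b) + x₂.N (tt b) ∧
      (2 * b + 1) * cost g C ≤ K * x.e - K * (ε * b) / 1200 *
        ((x₁.N (tt b) : ℝ) + x₂.N (tt b) - x₁.N (t2 b) - x₂.N (t2 b) - 2) := by
  rcases le_total x.h b with hb | hb
  · exact one_ballA D he fun v hv => (H.built.dist_le hG v hv).trans hb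
  · have hrS : S ∩ {r} = {r} := by
      rw [inter_eq_right, singleton_subset_iff]
      exact H.mem
    obtain ⟨q, x₁, x₂, S₁, S₂, H1, H2, h12, hU, hE, h1h, hNw, -⟩ := reroot H (Tr.pt r) hrS hb
    have hSr : S ∪ {r} = S := by
      rw [union_eq_left, singleton_subset_iff]
      exact H.mem
    rw [hSr] at hU
    simp only [RT.e, add_zero] at hE
    have hεb : (1000 : ℝ) ≤ b := by
      have h1 := D.εpos
      have h2 := D.ε1
      have h3 := D.big
      nlinarith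
    have hb1000 : 1000 ≤ b := by exact_mod_cast hεb
    obtain ⟨hN, hw⟩ := hNw (tt b) (by unfold tt; omega) (by unfold tt; omega)
    simp only [RT.N, RT.w, RT.h, add_zero, Nat.zero_min] at hN hw
    rcases le_total x₂.h b with hk | hk
    · refine one_ballA D he (q := q) fun v hv => ?_
      rw [← hU, mem_union] at hv
      rcases hv with hv | hv
      · exact (H1.built.dist_le hG v hv).trans h1h.le
      · exact (H2.built.dist_le hG v hv).trans hk
    · have h0 := two_sided_X hG D.cf.nonneg (b := b) S₁ S₂ q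
      have hc : 0 ≤ K * (ε * b) / 1200 := by
        have := D.Kpos
        have := D.εpos
        positivity
      have g1 := high_gain hG D H1 h1h.ge
      have g2 := high_gain hG D H2 hk
      have h1 := one_highA hc g1.1 g1.2
      have h2 := one_highA hc g2.1 g2.2
      obtain ⟨C, hC1, hC2, hC3⟩ := exists_F (G := G) D.cf.nonneg (b := b) (S₁ ∪ S₂) q
        (s := 0) (by omega)
      refine ⟨C, x₁, x₂, hC1, fun v hv => ?_, hE, hN, ?_⟩
      · rw [← hU] at hv
        rcases hC2.1 v hv with h | h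
        · exact h
        · exfalso
          omega
      · rw [hC3]
        have h3 : ((x₁.e : ℝ) + x₂.e) = x.e := by exact_mod_cast hE
        have h9 : K * ((x₁.e : ℝ) + x₂.e) = K * x.e := by rw [h3]
        linarith

end Pool.Agent.Helper67.HS
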