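import Pool.Agent.Helper67.HS.Defs

/-! # Project HS: elementary facts about `psi` -/

set_option autoImplicit false

namespace Pool.Agent.Helper67.HS

open Finset Pool.Agent.Helper51.BN Pool.Agent.Helper51.ST

variable {g : ℕ → ℝ} {b : ℕ} {K : ℝ}

theorem psi_zero (g : ℕ → ℝ) (K : ℝ) : psi g K 0 = 0 := by simp [psi]

theorem psi_nonneg (hg : CF g b K) {n : ℕ} (hn : n ≤ b) : 0 ≤ psi g K n := by
  have h := sum_range_le hg hn
  simp only [psi]
  linarith

theorem psi_le (hg : CF g b K) (n : ℕ) : psi g K n ≤ K * n := by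
  have h : 0 ≤ ∑ i ∈ range n, g i := Finset.sum_nonneg fun i _ => hg.nonneg i
  simp only [psi]
  linarith

/-- Initial averages are increasing. -/
theorem range_star (hg : CF g b K) {i j : ℕ} (hij : i ≤ j) (hj : j ≤ b) :
    (j : ℝ) * ∑ r ∈ range i, g r ≤ i * ∑ r ∈ range j, g r := by
  obtain ⟨d, rfl⟩ := Nat.exists_eq_add_of_le hij
  clear hij
  rcases Nat.eq_zero_or_pos i with h0 | hi
  · subst h0
    simp
  induction d with
  | zero => simp
  | succ d ih =>
    have h1 := ih (by omega)
    have h2 : ∑ r ∈ range i, g r ≤ i * g (i + d) := by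
      have h3 : ∑ r ∈ range i, g r ≤ ∑ _r ∈ range i, g (i + d) :=
        Finset.sum_le_sum fun r hr => hg.mono r (i + d)
          (by have := Finset.mem_range.mp hr; omega) (by omega)
      simpa using h3
    have h4 : i + (d + 1) = (i + d) + 1 := by omega
    rw [h4, Finset.sum_range_succ]
    push_cast at h1 ⊢
    nlinarith

/-- `psi n / n` is decreasing. -/
theorem psi_star (hg : CF g b K) {i j : ℕ} (hij : i ≤ j) (hj : j ≤ b) :
    (i : ℝ) * psi g K j ≤ j * psi g K i := by
  have h := range_star hg hij hj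
  simp only [psi]
  nlinarith

theorem psi_add_le (hg : CF g b K) (n a : ℕ) : psi g K (n + a) ≤ psi g K n + K * a := by
  have h : ∑ i ∈ range n, g i ≤ ∑ i ∈ range (n + a), g i :=
    Finset.sum_le_sum_of_subset_of_nonneg (Finset.range_mono (by omega)) fun i _ _ => hg.nonneg i
  simp only [psi]
  push_cast
  linarith

theorem psi_double (hg : CF g b K) {w : ℕ} (hw : 2 * w + 1 ≤ b) :
    psi g K (2 * w + 1) ≤ 2 * psi g K w + K := by
  have h1 : ∑ i ∈ range (2 * w + 1), g i =
      ∑ i ∈ range w, g i + ∑ i ∈ range (w + 1), g (w + i) := by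
    have : 2 * w + 1 = w + (w + 1) := by ring
    rw [this, Finset.sum_range_add]
  have h2 : ∑ i ∈ range w, g i ≤ ∑ i ∈ range (w + 1), g (w + i) := by
    rw [Finset.sum_range_succ]
    have h3 : ∑ i ∈ range w, g i ≤ ∑ i ∈ range w, g (w + i) :=
      Finset.sum_le_sum fun i hi => hg.mono i (w + i) (by omega)
        (by have := Finset.mem_range.mp hi; omega)
    have h4 := hg.nonneg (w + w)
    linarith
  simp only [psi]
  rw [h1]
  push_cast
  linarith

theorem ND.low {ε : ℝ} (D : ND g b K ε) {n : ℕ} (hn : n ≤ b) :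
    K * (ε * min (n : ℝ) ((b : ℝ) - n)) ≤ psi g K n := by
  have h := range_le D.cf D.εpos.le D.ε1 D.nf hn
  simp only [psi]
  linarith

end Pool.Agent.Helper67.HS
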