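import Pool.Agent.Helper67.HS.Piece
import Pool.Agent.Helper67.HS.Mass

/-! # Project HS, module HS-A5: the price is flat up to `O(L / b)` in mean -/

set_option autoImplicit false

namespace Pool.Agent.Helper67.HS

open Finset Pool.Agent.Helper51.BN Pool.Agent.Helper51.ST

variable {V : Type*} [Fintype V] [DecidableEq V] {G : SimpleGraph V}

private theorem sharp_num {k b tt' d' m S1 S2 : ℝ} (hk : 1000 ≤ k) (hb : 99 * k ≤ 100 * b)
    (h1 : 9 * b ≤ 10 * tt') (h2 : 6 * b ≤ 10 * d' + 10) (hS2 : 0 ≤ S2)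
    (hS : tt' * S1 + d' * S2 ≤ k ^ 2) (hN : 99 * k ≤ 100 * S1) (hm : 80 * m ≤ k) :
    3 * k ≤ 4 * (S1 - S2 - 2 * m) := by
  have hd : 59 * k ≤ 100 * d' := by linarith
  have ht : 891 * k ≤ 1000 * tt' := by linarith
  have hk0 : 0 < k := by linarith
  have hS1 : 0 ≤ S1 := by linarith
  have h3 : 891 * k * S1 ≤ 1000 * tt' * S1 := mul_le_mul_of_nonneg_right ht hS1
  have h4 : 59 * k * S2 ≤ 100 * d' * S2 := mul_le_mul_of_nonneg_right hd hS2
  have h5 : k * (891 * S1 + 590 * S2) ≤ k * (1000 * k) := by nlinarith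
  have h6 : 891 * S1 + 590 * S2 ≤ 1000 * k := le_of_mul_le_mul_left h5 hk0
  linarith

theorem sharp {k A L m : ℕ} {y : Fin m → RT} {P : Fin m → Finset V} {q : Fin m → V}
    (D : Data G k A L m y P q) {g : ℕ → ℝ} {b : ℕ} {ρ : ℝ} (hp : Price g k L b ρ)
    (hA : 10 ≤ A) (hLk : 10 ^ 6 * L ≤ k) (hb : 99 * k ≤ 100 * b)
    (hN : 99 * k ≤ 100 * ∑ i, (y i).N (tt b))
    (hNF : NF g b (ρ * (2 * b + 1)) (10 ^ 4 * L / b)) : Cheap G g k L P := by
  have hL2 := D.L2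
  have hb1 := hp.b1
  have hbk := hp.bk
  have hbr : (0 : ℝ) < b := by
    have : 0 < b := by omega
    exact_mod_cast this
  have hLr : (2 : ℝ) ≤ L := by exact_mod_cast hL2
  have hLk' : (10 : ℝ) ^ 6 * L ≤ k := by exact_mod_cast hLk
  have hbr' : (99 : ℝ) * k ≤ 100 * b := by exact_mod_cast hb
  have hk0 : (0 : ℝ) < k := by nlinarith
  have hK : 0 < ρ * (2 * (b : ℝ) + 1) := mul_pos hp.ρpos (by positivity)
  obtain ⟨K, hKdef⟩ : ∃ K, K = ρ * (2 * (b : ℝ) + 1) := ⟨_, rfl⟩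
  have hεb : (10 ^ 4 * (L : ℝ) / b) * b = 10 ^ 4 * L := by field_simp
  have hcf := hp.cf
  rw [← hKdef] at hK hNF hcf
  have hND : ND g b K (10 ^ 4 * L / b) := by
    refine ⟨hcf, hK, by positivity, ?_, hNF, ?_⟩
    · rw [div_le_one hbr]
      nlinarith
    · rw [hεb]
      nlinarith
  have hpg := fun i => piece_gain D.conn hND (D.tr i) (by have := D.big i; omega)
  choose C x₁ x₂ hC1 hC2 hC3 hC4 hC5 using hpg
  refine ⟨C, fun i p hp' => ?_, hC2, ?_⟩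
  · have := hC1 i p hp'
    omega
  rw [hεb] at hC5
  -- the sums
  obtain ⟨S1, hS1⟩ : ∃ S1 : ℝ, S1 = ∑ i, (((x₁ i).N (tt b) : ℝ) + (x₂ i).N (tt b)) := ⟨_, rfl⟩
  obtain ⟨S2, hS2⟩ : ∃ S2 : ℝ, S2 = ∑ i, (((x₁ i).N (t2 b) : ℝ) + (x₂ i).N (t2 b)) := ⟨_, rfl⟩
  have hS2' : 0 ≤ S2 := by
    rw [hS2]
    exact Finset.sum_nonneg fun i _ => by positivity
  have hS1' : (99 : ℝ) * k ≤ 100 * S1 := by
    have h1 : ((∑ i, (y i).N (tt b) : ℕ) : ℝ) ≤ S1 := by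
      rw [hS1]
      push_cast
      refine Finset.sum_le_sum fun i _ => ?_
      exact_mod_cast hC4 i
    have h2 : (99 : ℝ) * k ≤ 100 * ((∑ i, (y i).N (tt b) : ℕ) : ℝ) := by exact_mod_cast hN
    linarith
  have htt1 : 1 ≤ tt b := by unfold tt; omega
  have htt2 : tt b ≤ t2 b := by unfold tt t2; omega
  have hmass : (tt b : ℝ) * S1 + ((t2 b - tt b : ℕ) : ℝ) * S2 ≤ k ^ 2 := by
    have h1 : ∀ i, (tt b : ℝ) * (((x₁ i).N (tt b) : ℝ) + (x₂ i).N (tt b)) +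
        ((t2 b - tt b : ℕ) : ℝ) * (((x₁ i).N (t2 b) : ℝ) + (x₂ i).N (t2 b)) ≤ (y i).e := by
      intro i
      have h2 := N_mass htt1 htt2 (x₁ i)
      have h3 := N_mass htt1 htt2 (x₂ i)
      have h4 := hC3 i
      have h5 : tt b * ((x₁ i).N (tt b) + (x₂ i).N (tt b)) +
          (t2 b - tt b) * ((x₁ i).N (t2 b) + (x₂ i).N (t2 b)) ≤ (y i).e := by
        rw [Nat.mul_add, Nat.mul_add]
        omega
      exact_mod_cast h5
    have h2 : (tt b : ℝ) * S1 + ((t2 b - tt b : ℕ) : ℝ) * S2 ≤ ((∑ i, (y i).e : ℕ) : ℝ) := by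
      rw [hS1, hS2, Finset.mul_sum, Finset.mul_sum, ← Finset.sum_add_distrib]
      push_cast
      exact Finset.sum_le_sum fun i _ => h1 i
    have h3 : ((∑ i, (y i).e : ℕ) : ℝ) ≤ (k : ℝ) ^ 2 := by exact_mod_cast D.tot
    linarith
  have hm : (80 : ℝ) * m ≤ k := by
    have h1 := D.cnt
    have h2 : 80 * m ≤ 8 * A * m := Nat.mul_le_mul_right _ (by omega)
    exact_mod_cast h2.trans h1
  have hgap : 3 * (k : ℝ) ≤ 4 * (S1 - S2 - 2 * m) := by
    refine sharp_num (b := b) (tt' := tt b) (d' := ((t2 b - tt b : ℕ) : ℝ)) (by nlinarith)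
      hbr' ?_ ?_ hS2' hmass hS1' hm
    · have h1 : 9 * b ≤ 10 * tt b := by unfold tt; omega
      exact_mod_cast h1
    · have h1 : 6 * b ≤ 10 * (t2 b - tt b) + 10 := by unfold tt t2; omega
      exact_mod_cast h1
  have hsum : (2 * (b : ℝ) + 1) * ∑ i, cost g (C i) ≤ K * (k : ℝ) ^ 2 -
      K * (10 ^ 4 * L) / 1200 * (S1 - S2 - 2 * m) := by
    have h1 : (2 * (b : ℝ) + 1) * ∑ i, cost g (C i) ≤ ∑ i, (K * ((y i).e : ℝ) -
        K * (10 ^ 4 * L) / 1200 * (((x₁ i).N (tt b) : ℝ) + (x₂ i).N (tt b) - (x₁ i).N (t2 b) -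
          (x₂ i).N (t2 b) - 2)) := by
      rw [Finset.mul_sum]
      exact Finset.sum_le_sum fun i _ => hC5 i
    have h2 : ∑ i, (K * ((y i).e : ℝ) -
        K * (10 ^ 4 * L) / 1200 * (((x₁ i).N (tt b) : ℝ) + (x₂ i).N (tt b) - (x₁ i).N (t2 b) -
          (x₂ i).N (t2 b) - 2)) = K * ((∑ i, (y i).e : ℕ) : ℝ) -
        K * (10 ^ 4 * L) / 1200 * (S1 - S2 - 2 * m) := by
      rw [Finset.sum_sub_distrib, ← Finset.mul_sum, ← Finset.mul_sum, hS1, hS2]
      push_cast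
      congr 2
      have h3 : (2 : ℝ) * m = ∑ _i : Fin m, (2 : ℝ) := by
        rw [Finset.sum_const, Finset.card_univ, Fintype.card_fin, nsmul_eq_mul]
        ring
      rw [h3, ← Finset.sum_sub_distrib, ← Finset.sum_sub_distrib]
      refine Finset.sum_congr rfl fun i _ => ?_
      ring
    have h3 : ((∑ i, (y i).e : ℕ) : ℝ) ≤ (k : ℝ) ^ 2 := by exact_mod_cast D.tot
    have h4 := mul_le_mul_of_nonneg_left h3 hK.le
    linarith
  have hfin : (2 * (b : ℝ) + 1) * ∑ i, cost g (C i) ≤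
      (2 * (b : ℝ) + 1) * ∑ r ∈ range (k - L), g r := by
    have h1 : K * (10 ^ 4 * L) / 1200 * (3 * k / 4) ≤
        K * (10 ^ 4 * L) / 1200 * (S1 - S2 - 2 * m) :=
      mul_le_mul_of_nonneg_left (by linarith) (by positivity)
    have h2 : 4 * (K * L * k) ≤ K * (10 ^ 4 * L) / 1200 * (3 * k / 4) := by
      have h3 : 0 ≤ K * L * k := by positivity
      have h4 : K * (10 ^ 4 * L) / 1200 * (3 * k / 4) = 25 / 4 * (K * L * k) := by ring
      linarith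
    have h3 : K * (k : ℝ) ^ 2 - 4 * (K * L * k) =
        (2 * (b : ℝ) + 1) * (ρ * ((k : ℝ) ^ 2 - 4 * k * L)) := by
      rw [hKdef]
      ring
    have h4 := mul_le_mul_of_nonneg_left hp.tot (by positivity : (0 : ℝ) ≤ 2 * b + 1)
    linarith
  exact le_of_mul_le_mul_left hfin (by positivity)

end Pool.Agent.Helper67.HS
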