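import Pool.Agent.Helper67.HS.BaseCover

/-! # Project HS, module HS-C1: the total excess of the pieces -/

set_option autoImplicit false

namespace Pool.Agent.Helper67.HS

open Finset Pool.Agent.Helper51.BN Pool.Agent.Helper51.ST

variable {V : Type*} [DecidableEq V] {G : SimpleGraph V} {k A L m : ℕ} {y : Fin m → RT}
  {P : Fin m → Finset V} {q : Fin m → V} {R : ℕ} {U C : Fin m → Finset V} {g : ℕ → ℝ} {b : ℕ}
  {K : ℝ}

private theorem sigma_num {k b R L n E m : ℝ} (hk : 10 ≤ k) (hL : 2 ≤ L) (hE : 0 ≤ E)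
    (hm : 80 * m ≤ k) (hR : R + 1 ≤ b) (hb : b + 1 ≤ k) (hR9 : 97 * k ≤ 100 * R)
    (hR10 : 10 ≤ R)
    (h1 : k ^ 2 - 4 * k * L < (b + 1 / 2) * (n + 4 * 10 ^ 4 * L + E / (10 * R)))
    (h2 : n * (R + 1) + E ≤ k ^ 2 + m) :
    E ≤ 2 * k * (b - R) + 10 ^ 5 * k * L := by
  have hR0 : 0 < R := by linarith
  have e1 : E / (10 * R) * (R + 1) ≤ 11 / 100 * E := by
    rw [div_mul_eq_mul_div, div_le_iff₀ (by positivity)]
    nlinarith [mul_nonneg hE (by linarith : (0 : ℝ) ≤ R - 10)]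
  have e2 : (n + 4 * 10 ^ 4 * L + E / (10 * R)) * (R + 1) ≤
      k ^ 2 + m - 89 / 100 * E + 4 * 10 ^ 4 * L * (R + 1) := by
    have : (n + 4 * 10 ^ 4 * L + E / (10 * R)) * (R + 1) =
        n * (R + 1) + 4 * 10 ^ 4 * L * (R + 1) + E / (10 * R) * (R + 1) := by ring
    rw [this]
    linarith
  have e3 : (k ^ 2 - 4 * k * L) * (R + 1) <
      (b + 1 / 2) * (k ^ 2 + m - 89 / 100 * E + 4 * 10 ^ 4 * L * (R + 1)) := by
    have a1 := mul_lt_mul_of_pos_right h1 (by linarith : (0 : ℝ) < R + 1)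
    have a2 := mul_le_mul_of_nonneg_left e2 (by linarith : (0 : ℝ) ≤ b + 1 / 2)
    calc (k ^ 2 - 4 * k * L) * (R + 1)
        < (b + 1 / 2) * (n + 4 * 10 ^ 4 * L + E / (10 * R)) * (R + 1) := a1
      _ = (b + 1 / 2) * ((n + 4 * 10 ^ 4 * L + E / (10 * R)) * (R + 1)) := by ring
      _ ≤ _ := a2
  -- lower bound of `E (b + 1/2)`
  have e4 : 97 / 100 * k * E ≤ (b + 1 / 2) * E :=
    mul_le_mul_of_nonneg_right (by linarith) hE
  have e5 : (b + 1 / 2) * m ≤ k * (k / 80) := by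
    have c1 : (b + 1 / 2) * m ≤ (b + 1 / 2) * (k / 80) :=
      mul_le_mul_of_nonneg_left (by linarith) (by linarith)
    have c2 : (b + 1 / 2) * (k / 80) ≤ k * (k / 80) :=
      mul_le_mul_of_nonneg_right (by linarith) (by linarith)
    linarith
  have e6 : (b + 1 / 2) * (R + 1) ≤ k * k :=
    mul_le_mul (by linarith) (by linarith) (by linarith) (by linarith)
  have e7 : L * ((b + 1 / 2) * (R + 1)) ≤ L * (k * k) :=
    mul_le_mul_of_nonneg_left e6 (by linarith)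
  have e8 : k * L * (R + 1) ≤ k * L * k :=
    mul_le_mul_of_nonneg_left (by linarith) (by positivity)
  have e9 : 89 / 100 * (97 / 100 * k * E) ≤
      k ^ 2 * (b - R) + k * (k / 80) + 4 * 10 ^ 4 * (L * (k * k)) + 4 * (k * L * k) := by
    nlinarith [sq_nonneg k]
  have e10 : k * (89 / 100 * (97 / 100) * E) ≤
      k * (k * (b - R) + k / 80 + 4 * 10 ^ 4 * (L * k) + 4 * (L * k)) := by
    linarith
  have e11 := le_of_mul_le_mul_left e10 (by linarith : 0 < k)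
  have e12 : 0 ≤ k * (b - R) := mul_nonneg (by linarith) (by linarith)
  have e13 : 0 ≤ k * L := mul_nonneg (by linarith) (by linarith)
  have e14 : k / 80 ≤ k * L := by nlinarith
  nlinarith

theorem sigma_le (H : HD G k A L m y P q R U C) (hF : FP g k L b K)
    (hR : R + 2 * 10 ^ 8 * A * L ≤ b) (hR9 : 97 * k ≤ 100 * R) (hn : ¬ Cheap G g k L P) :
    ∑ i, exc P U R i ≤ 2 * k * (b - R) + 10 ^ 5 * k * L := by
  obtain ⟨D, hD1, hD2, hD3⟩ := base_cover H hF hR hR9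
  have hlt : ∑ r ∈ range (k - L), g r < ∑ i, cost g (D i) := by
    by_contra h
    exact hn ⟨D, hD1, hD2, not_lt.1 h⟩
  have hL2 := H.data.L2
  have hk16 : 16 ≤ k := by
    have h1 := H.data.L4
    have h2 : 2 ^ 4 ≤ L ^ 4 := Nat.pow_le_pow_left hL2 4
    omega
  have hA := H.A10
  have hAL : 1 ≤ A * L := Nat.one_le_iff_ne_zero.2 (by positivity)
  have hRb : R + 1 ≤ b := by
    have : 2 * 10 ^ 8 * A * L = 2 * 10 ^ 8 * (A * L) := by ring
    omega
  have hbk := hF.bk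
  have hRk : R ≤ k := by omega
  have hsum := H.sum_le hRk
  have hm := H.m_le
  have hR10 : 10 ≤ R := by omega
  set n := ∑ i, (U i).card with hn'
  set E := ∑ i, exc P U R i with hE'
  have hKpos := hF.Kpos
  have hS : K * ((k : ℝ) ^ 2 - 4 * k * L) <
      K * (((b : ℝ) + 1 / 2) * ((n : ℝ) + 4 * 10 ^ 4 * L + (E : ℝ) / (10 * R))) := by
    have h3 : (∑ r ∈ range (k - L), g r) <
        K / 2 * ((n : ℝ) + 4 * 10 ^ 4 * L + (E : ℝ) / (10 * R)) := lt_of_lt_of_le hlt hD3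
    have h4 := hF.tot
    have h5 := mul_lt_mul_of_pos_left h3 (by positivity : (0 : ℝ) < 2 * (b : ℝ) + 1)
    calc K * ((k : ℝ) ^ 2 - 4 * k * L) ≤ _ := h4
      _ < _ := h5
      _ = _ := by ring
  have h1 := lt_of_mul_lt_mul_left hS hKpos.le
  have h2 : (n : ℝ) * ((R : ℝ) + 1) + (E : ℝ) ≤ (k : ℝ) ^ 2 + (m : ℝ) := by exact_mod_cast hsum
  have h3 := sigma_num (k := k) (b := b) (R := R) (L := L) (n := n) (E := E) (m := m)
    (by exact_mod_cast (by omega : 10 ≤ k)) (by exact_mod_cast hL2) (by positivity)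
    (by exact_mod_cast hm) (by exact_mod_cast hRb) (by exact_mod_cast (by omega : b + 1 ≤ k))
    (by exact_mod_cast hR9) (by exact_mod_cast hR10) h1 h2
  have h4 : ((b - R : ℕ) : ℝ) = (b : ℝ) - R := by
    rw [Nat.cast_sub (by omega)]
  have h5 : (E : ℝ) ≤ ((2 * k * (b - R) + 10 ^ 5 * k * L : ℕ) : ℝ) := by
    push_cast [h4]
    linarith [h3]
  exact_mod_cast h5

end Pool.Agent.Helper67.HS
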