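import Pool.Agent.Helper67.HS.Sharp

/-! # Project HS, module HS-A6: the price of a family of pieces without cheap covers -/

set_option autoImplicit false

namespace Pool.Agent.Helper67.HS

open Finset Pool.Agent.Helper51.BN Pool.Agent.Helper51.ST

universe u

/-- If the pieces have no cheap covers for the price `g`, then `g` is flat. -/
theorem soft {c : ℝ} (hc : 0 < c) (hc1 : c ≤ 1) :
    ∃ (Λ : ℝ) (k₀ : ℕ), ∀ {V : Type u} [Fintype V] [DecidableEq V] {G : SimpleGraph V}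
      {k A L m : ℕ} {y : Fin m → RT} {P : Fin m → Finset V} {q : Fin m → V},
      Data G k A L m y P q → ∀ {g : ℕ → ℝ} {b : ℕ} {ρ : ℝ}, Price g k L b ρ →
      ∀ {x x₀ : RT} {l : ℕ}, Λ ≤ Real.log k → Real.log k ^ 3 ≤ A → A ≤ L → k₀ ≤ k → k₀ ≤ A →
      10 ^ 6 * L ≤ k → x₀.e ≤ 8 * A * k →
      (∀ t, 1 ≤ t → x.N t ≤ ∑ i, (y i).N t + x₀.N t + m) →
      c * k / Real.log k ≤ l + 1 → (l : ℝ) ≤ c * k / Real.log k → l < x.N l →
      ¬ Cheap G g k L P → FP g k L b (ρ * (2 * b + 1)) := by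
  obtain ⟨ε₁, hε₁, hε₁1, k₁, h₁⟩ := flat_total.{u} (δ := 1 / 100) (δ₁ := 1 / 100)
    (by norm_num) (by norm_num) (by norm_num) (by norm_num)
  obtain ⟨k₂, h₂⟩ := flat_stem.{u} (ε' := 1 / 10 ^ 7) (ε := 1 / 10 ^ 8)
    (by norm_num) (by norm_num) (by norm_num) (by norm_num)
  obtain ⟨k₃, h₃⟩ := flat_small.{u} (τ := 1 / 100) (by norm_num) (by norm_num)
  set ε : ℝ := min ε₁ (1 / 10 ^ 8) with hεdef
  have hε : 0 < ε := lt_min hε₁ (by norm_num)
  have hεa : ε ≤ ε₁ := min_le_left _ _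
  have hεb : ε ≤ 1 / 10 ^ 8 := min_le_right _ _
  obtain ⟨Λ, h₀⟩ := nonflat_total.{u} hε (hεa.trans hε₁1) hc hc1
  refine ⟨Λ, max (max k₁ k₂) (max k₃ 100), ?_⟩
  intro V _ _ G k A L m y P q D g b ρ hp x x₀ l hΛ hlog hAL hk hA hLk hx₀ hN hl1 hl2 hlN hch
  have hk₁ : k₁ ≤ k := ((le_max_left _ _).trans (le_max_left _ _)).trans hk
  have hk₂ : k₂ ≤ k := ((le_max_right _ _).trans (le_max_left _ _)).trans hk
  have hk₃ : k₃ ≤ k := ((le_max_left _ _).trans (le_max_right _ _)).trans hk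
  have hk100 : 100 ≤ k := ((le_max_right _ _).trans (le_max_right _ _)).trans hk
  have hA₁ : k₁ ≤ A := ((le_max_left _ _).trans (le_max_left _ _)).trans hA
  have hA₂ : k₂ ≤ A := ((le_max_right _ _).trans (le_max_left _ _)).trans hA
  have hA₃ : k₃ ≤ A := ((le_max_left _ _).trans (le_max_right _ _)).trans hA
  have hA100 : 100 ≤ A := ((le_max_right _ _).trans (le_max_right _ _)).trans hA
  have hb1 : 1 ≤ b := hp.b1
  have hbr : (1 : ℝ) ≤ b := by exact_mod_cast hb1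
  have hkr : (100 : ℝ) ≤ k := by exact_mod_cast hk100
  have hρ := hp.ρpos
  have hK : 0 < ρ * (2 * (b : ℝ) + 1) := by positivity
  -- non-flatness for smaller constants
  have hmon : ∀ {e e' : ℝ}, e' ≤ e → NF g b (ρ * (2 * b + 1)) e →
      NF g b (ρ * (2 * b + 1)) e' := by
    rintro e e' he ⟨h, hhb, hh⟩
    refine ⟨h, hhb, hh.trans (mul_le_mul_of_nonneg_left ?_ hK.le)⟩
    have := mul_le_mul_of_nonneg_right he (Nat.cast_nonneg b : (0 : ℝ) ≤ b)
    linarith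
  have hnf : ¬ NF g b (ρ * (2 * b + 1)) ε := fun h =>
    hch (h₀ D hp hΛ hlog hAL hx₀ hN hl1 hl2 hlN h)
  have hnf₁ : ¬ NF g b (ρ * (2 * b + 1)) ε₁ := fun h => hnf (hmon hεa h)
  have hnf₂ : ¬ NF g b (ρ * (2 * b + 1)) (1 / 10 ^ 8) := fun h => hnf (hmon hεb h)
  -- the total number of long paths
  have hbig : (1 - (1 / 100 : ℝ) / 2) * k <
      ((∑ i, (y i).N ⌈(1 - 3 * (1 / 100 : ℝ)) * k⌉₊ : ℕ) : ℝ) := by
    by_contra hcon
    exact hch (h₁ D hp hk₁ hA₁ hnf₁ (not_lt.1 hcon))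
  -- the scale is large
  have hb99 : 99 * k ≤ 100 * b := by
    by_contra hcon
    push Not at hcon
    have hcon' : (100 : ℝ) * b < 99 * k := by exact_mod_cast hcon
    have hs := h₂ D hp hk₂ hA₂ hnf₂ hch
    refine hch (h₃ D hp hk₃ hA₃ (B := ⌊(1 - (1 / 10 ^ 7 : ℝ)) * b⌋₊ + 1) (by omega) ?_ ?_)
    · have h4 : ((⌊(1 - (1 / 10 ^ 7 : ℝ)) * b⌋₊ : ℕ) : ℝ) ≤ (1 - (1 / 10 ^ 7 : ℝ)) * b :=
        Nat.floor_le (by
          have : (0 : ℝ) ≤ 1 - 1 / 10 ^ 7 := by norm_num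
          positivity)
      push_cast
      have h5 : (1 - (1 / 10 ^ 7 : ℝ)) * b ≤ b := by
        have h6 : (0 : ℝ) ≤ (1 / 10 ^ 7 : ℝ) * b := by positivity
        linarith
      have h7 : ((1 : ℝ) - 1 / 100) * k = 99 * k / 100 := by ring
      rw [h7]
      linarith
    · refine hs.trans (mul_le_mul_of_nonneg_right ?_ (by positivity))
      norm_num
  have hbk : b ≤ k := by
    have := hp.bk
    omega
  -- the sharp estimate
  have hsharp : ¬ NF g b (ρ * (2 * b + 1)) (10 ^ 4 * L / b) := by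
    intro h
    refine hch (sharp D hp (by omega) hLk hb99 ?_ h)
    have h4 : tt b ≤ ⌈(1 - 3 * (1 / 100 : ℝ)) * k⌉₊ := by
      have h5 : ((tt b : ℕ) : ℝ) ≤ (1 - 3 * (1 / 100 : ℝ)) * k := by
        have h6 : ((9 * b / 10 : ℕ) : ℝ) ≤ 9 * b / 10 := by
          have h7 : ((9 * b / 10 : ℕ) : ℝ) ≤ ((9 * b : ℕ) : ℝ) / ((10 : ℕ) : ℝ) :=
            Nat.cast_div_le
          push_cast at h7
          exact h7
        have h8 : (b : ℝ) ≤ k := by exact_mod_cast hbk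
        rw [tt, Nat.cast_add, Nat.cast_one]
        linarith
      exact_mod_cast h5.trans (Nat.le_ceil _)
    have h5 : ∑ i, (y i).N ⌈(1 - 3 * (1 / 100 : ℝ)) * k⌉₊ ≤ ∑ i, (y i).N (tt b) :=
      Finset.sum_le_sum fun i _ => RT.N_anti (by rw [tt]; omega) h4 (y i)
    have h6 : (((∑ i, (y i).N ⌈(1 - 3 * (1 / 100 : ℝ)) * k⌉₊ : ℕ)) : ℝ) ≤
        ((∑ i, (y i).N (tt b) : ℕ) : ℝ) := by exact_mod_cast h5
    have h7 : ((99 * k : ℕ) : ℝ) ≤ ((100 * ∑ i, (y i).N (tt b) : ℕ) : ℝ) := by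
      have h8 := hbig.le.trans h6
      rw [Nat.cast_mul, Nat.cast_mul]
      push_cast at h8 ⊢
      linarith
    exact_mod_cast h7
  have hLb : (10 : ℝ) ^ 4 * L / b * b = 10 ^ 4 * L := by
    have : (b : ℝ) ≠ 0 := by positivity
    field_simp
  refine ⟨hp.nonneg, hp.mono, hK, ?_, ?_, ?_, hp.bk, hb99⟩
  · intro R hR
    have h4 := flat_price hp.cf hsharp hR
    rw [hLb] at h4
    linarith
  · by_contra hcon
    push Not at hcon
    refine hsharp ⟨b, le_refl b, ?_⟩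
    rw [hLb]
    exact hcon.le
  · have h4 := mul_le_mul_of_nonneg_left hp.tot (by positivity : (0 : ℝ) ≤ 2 * b + 1)
    linarith

end Pool.Agent.Helper67.HS
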